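import Pool.Agent.H690.HK.BilA

/-! Task BIL of the project HK of helper998, part B. -/

set_option autoImplicit false

noncomputable section

namespace Pool.Agent.H690.HK

open MeasureTheory Filter Topology Set
open scoped ENNReal NNReal RealInnerProductSpace Pointwise

open Pool.Agent.H998.HK

/-! ### measurability of the kernel -/

theorem iter_meas {f : ℝ → ℝ} (hf : Measurable f) (n : ℕ) : Measurable (iteratedDeriv n f) := by
  cases n with
  | zero => simpa using hf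
  | succ n => rw [iteratedDeriv_succ]; exact measurable_deriv _

theorem yukR_meas (κ : ℝ) : Measurable (yukR κ) := by
  unfold yukR; fun_prop

theorem tc_meas (κ : ℝ) (j : ℕ) : Measurable fun z : E3 × E3 => tc κ j z.1 z.2 := by
  unfold tc
  refine Finset.measurable_sum _ fun p _ => ?_
  have h1 : Measurable fun z : E3 × E3 => iteratedDeriv (j - p) (yukR κ) (‖z.2‖ ^ 2) :=
    (iter_meas (yukR_meas κ) _).comp (by fun_prop)
  have h2 : Measurable fun z : E3 × E3 => (‖z.1‖ ^ 2) ^ p := by fun_prop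
  have h3 : Measurable fun z : E3 × E3 => (-2 * ⟪z.1, z.2⟫) ^ (j - 2 * p) :=
    Continuous.measurable (by fun_prop)
  exact ((h1.div_const _).mul h2).mul h3

theorem Km_meas (κ : ℝ) (m : ℕ) : Measurable fun z : E3 × E3 => Km κ m z.1 z.2 := by
  unfold Km yuk
  refine Measurable.sub ((yukR_meas κ).comp (by fun_prop)) ?_
  exact Finset.measurable_sum _ fun j _ => tc_meas κ j

theorem wK_meas (κ : ℝ) (m : ℕ) : Measurable fun z : E3 × E3 => wK κ m z.1 z.2 := by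
  unfold wK
  refine (Km_meas κ m).mul ?_
  exact Measurable.pow_const (by fun_prop) _

/-! ### the radial inequalities -/

theorem cl1 {a c d L : ℝ} (h0 : 0 ≤ L) (h1 : c - a - Real.log 2 ≤ L) :
    (Real.exp c / Real.exp a) ^ (1 / 4 : ℝ) * ((Real.exp a * Real.exp c) ^ (-(1 / 2 : ℝ)) *
      (Real.exp (2 * d - a - c) ^ (-(1 / 6 : ℝ)) * Real.exp L ^ (-(1 / 3 : ℝ)))) *
      (Real.exp a ^ 2 * Real.exp c ^ 2) ≤
    Real.exp (Real.log 2) * (Real.exp a ^ (5 / 3 : ℝ) * Real.exp d ^ (-(1 / 3 : ℝ)) * Real.exp c ^ (5 / 3 : ℝ)) := by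
  have h3 : 0 ≤ Real.log 2 := Real.log_nonneg (by norm_num)
  simp only [← Real.exp_mul, ← Real.exp_add, ← Real.exp_sub, ← Real.exp_nat_mul]
  apply Real.exp_le_exp.2
  push_cast
  linarith

theorem cl2 {a c d L ρ : ℝ} (h0 : 0 ≤ L) (h1 : c - a - Real.log 2 ≤ L)
    (ha : a ≤ ρ) (hc : c ≤ ρ) :
    (Real.exp c / Real.exp a) ^ (1 / 4 : ℝ) * ((Real.exp a * Real.exp c) ^ (-(1 / 2 : ℝ)) *
      Real.exp c ^ (-(1 / 2 : ℝ)) *
      (Real.exp (2 * d - a - c) ^ (-(1 / 3 : ℝ)) * Real.exp L ^ (-(1 / 6 : ℝ)))) *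
      (Real.exp a ^ 2 * Real.exp c ^ 2) ≤
    Real.exp (Real.log 2) * Real.exp ρ ^ (1 / 2 : ℝ) * (Real.exp a ^ (5 / 3 : ℝ) * Real.exp d ^ (-(2 / 3 : ℝ)) *
      Real.exp c ^ (1 : ℝ)) := by
  have h3 : 0 ≤ Real.log 2 := Real.log_nonneg (by norm_num)
  simp only [← Real.exp_mul, ← Real.exp_add, ← Real.exp_sub, ← Real.exp_nat_mul]
  apply Real.exp_le_exp.2
  push_cast
  rcases le_total a c with h | h
  · linarith
  · linarith

theorem cl3 {a c d L ρ : ℝ} (h0 : 0 ≤ L) (h1 : a - c - Real.log 2 ≤ L)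
    (ha : a ≤ ρ) (hc : c ≤ ρ) :
    (Real.exp c / Real.exp a) ^ (1 / 4 : ℝ) * ((Real.exp a * Real.exp c) ^ (-(1 / 2 : ℝ)) *
      Real.exp c ^ (-(1 / 2 : ℝ)) *
      (Real.exp (2 * d - a - c) ^ (-(1 / 3 : ℝ)) * Real.exp L ^ (-(1 / 6 : ℝ)))) *
      (Real.exp a ^ 2 * Real.exp c ^ 2) ≤
    Real.exp (Real.log 2) * Real.exp ρ ^ (1 / 2 : ℝ) * (Real.exp a ^ (1 : ℝ) * Real.exp d ^ (-(2 / 3 : ℝ)) *
      Real.exp c ^ (5 / 3 : ℝ)) := by
  have h3 : 0 ≤ Real.log 2 := Real.log_nonneg (by norm_num)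
  simp only [← Real.exp_mul, ← Real.exp_add, ← Real.exp_sub, ← Real.exp_nat_mul]
  apply Real.exp_le_exp.2
  push_cast
  rcases le_total a c with h | h
  · linarith
  · linarith

section radial

variable {r s : ℝ}

theorem T_facts (hr : 0 < r) (hs : 0 < s) (hrs : r ≠ s) :
    ∃ a c d L : ℝ, r = Real.exp a ∧ s = Real.exp c ∧ |r - s| = Real.exp d ∧
      (r - s) ^ 2 / (r * s) = Real.exp (2 * d - a - c) ∧ 1 + (r - s) ^ 2 / (r * s) = Real.exp L ∧
      0 ≤ L ∧ c - a - Real.log 2 ≤ L ∧ a - c - Real.log 2 ≤ L := by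
  have hd : 0 < |r - s| := abs_pos.2 (sub_ne_zero.2 hrs)
  have hT : 0 < (r - s) ^ 2 / (r * s) := by
    have : 0 < (r - s) ^ 2 := by rw [← sq_abs]; positivity
    positivity
  have h1T : 0 < 1 + (r - s) ^ 2 / (r * s) := by linarith
  refine ⟨Real.log r, Real.log s, Real.log |r - s|, Real.log (1 + (r - s) ^ 2 / (r * s)),
    (Real.exp_log hr).symm, (Real.exp_log hs).symm, (Real.exp_log hd).symm, ?_,
    (Real.exp_log h1T).symm, Real.log_nonneg (by linarith), ?_, ?_⟩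
  · rw [Real.exp_sub, Real.exp_sub, Real.exp_log hr, Real.exp_log hs, two_mul, Real.exp_add,
      Real.exp_log hd, ← sq, sq_abs, div_div]
  · rw [← Real.log_div hs.ne' hr.ne', ← Real.log_div (by positivity) (by norm_num)]
    apply Real.log_le_log (by positivity)
    rw [div_div, div_le_iff₀ (by positivity)]
    have : (1 + (r - s) ^ 2 / (r * s)) * (r * 2) = (2 * (r * s) + 2 * (r - s) ^ 2) / s := by
      field_simp
    rw [this, le_div_iff₀ hs]
    nlinarith [sq_nonneg (r - s), sq_nonneg (2 * r - s)]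
  · rw [← Real.log_div hr.ne' hs.ne', ← Real.log_div (by positivity) (by norm_num)]
    apply Real.log_le_log (by positivity)
    rw [div_div, div_le_iff₀ (by positivity)]
    have : (1 + (r - s) ^ 2 / (r * s)) * (s * 2) = (2 * (r * s) + 2 * (r - s) ^ 2) / r := by
      field_simp
    rw [this, le_div_iff₀ hr]
    nlinarith [sq_nonneg (r - s), sq_nonneg (2 * s - r)]

theorem rl1 (hr : 0 < r) (hs : 0 < s) (hrs : r ≠ s) :
    (s / r) ^ (1 / 4 : ℝ) * ((r * s) ^ (-(1 / 2 : ℝ)) *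
      (((r - s) ^ 2 / (r * s)) ^ (-(1 / 6 : ℝ)) * (1 + (r - s) ^ 2 / (r * s)) ^ (-(1 / 3 : ℝ)))) *
      (r ^ 2 * s ^ 2) ≤
    2 * (r ^ (5 / 3 : ℝ) * |r - s| ^ (-(1 / 3 : ℝ)) * s ^ (5 / 3 : ℝ)) := by
  obtain ⟨a, c, d, L, h1, h2, h3, h4, h5, h6, h7, h8⟩ := T_facts hr hs hrs
  have h := cl1 (d := d) h6 h7
  rw [h5, h4, h3, h1, h2]
  rwa [Real.exp_log (by norm_num : (0 : ℝ) < 2)] at h

theorem rl2 (hr : 0 < r) (hs : 0 < s) (hrs : r ≠ s) {r0 : ℝ} (hr0 : r ≤ r0) (hs0 : s ≤ r0) :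
    (s / r) ^ (1 / 4 : ℝ) * ((r * s) ^ (-(1 / 2 : ℝ)) * s ^ (-(1 / 2 : ℝ)) *
      (((r - s) ^ 2 / (r * s)) ^ (-(1 / 3 : ℝ)) * (1 + (r - s) ^ 2 / (r * s)) ^ (-(1 / 6 : ℝ)))) *
      (r ^ 2 * s ^ 2) ≤
    2 * r0 ^ (1 / 2 : ℝ) * (r ^ (5 / 3 : ℝ) * |r - s| ^ (-(2 / 3 : ℝ)) * s ^ (1 : ℝ)) := by
  obtain ⟨a, c, d, L, h1, h2, h3, h4, h5, h6, h7, h8⟩ := T_facts hr hs hrs
  have hr00 : 0 < r0 := by linarith
  have ha : a ≤ Real.log r0 := by
    rw [Real.le_log_iff_exp_le hr00, ← h1]; exact hr0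
  have hc : c ≤ Real.log r0 := by
    rw [Real.le_log_iff_exp_le hr00, ← h2]; exact hs0
  have h := cl2 (d := d) h6 h7 ha hc
  rw [h5, h4, h3, h1, h2]
  rwa [Real.exp_log (by norm_num : (0 : ℝ) < 2), Real.exp_log hr00] at h

theorem rl3 (hr : 0 < r) (hs : 0 < s) (hrs : r ≠ s) {r0 : ℝ} (hr0 : r ≤ r0) (hs0 : s ≤ r0) :
    (s / r) ^ (1 / 4 : ℝ) * ((r * s) ^ (-(1 / 2 : ℝ)) * s ^ (-(1 / 2 : ℝ)) *
      (((r - s) ^ 2 / (r * s)) ^ (-(1 / 3 : ℝ)) * (1 + (r - s) ^ 2 / (r * s)) ^ (-(1 / 6 : ℝ)))) *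
      (r ^ 2 * s ^ 2) ≤
    2 * r0 ^ (1 / 2 : ℝ) * (r ^ (1 : ℝ) * |r - s| ^ (-(2 / 3 : ℝ)) * s ^ (5 / 3 : ℝ)) := by
  obtain ⟨a, c, d, L, h1, h2, h3, h4, h5, h6, h7, h8⟩ := T_facts hr hs hrs
  have hr00 : 0 < r0 := by linarith
  have ha : a ≤ Real.log r0 := by
    rw [Real.le_log_iff_exp_le hr00, ← h1]; exact hr0
  have hc : c ≤ Real.log r0 := by
    rw [Real.le_log_iff_exp_le hr00, ← h2]; exact hs0
  have h := cl3 (d := d) h6 h8 ha hc
  rw [h5, h4, h3, h1, h2]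
  rwa [Real.exp_log (by norm_num : (0 : ℝ) < 2), Real.exp_log hr00] at h

end radial

/-! ### pointwise bounds in polar coordinates -/

section pw

variable {C : ℝ} (hC : 0 < C)

theorem abs_inner_le (w w' : S2) : |⟪(w : E3), (w' : E3)⟫| ≤ 1 := by
  have := abs_real_inner_le_norm (w : E3) (w' : E3)
  simpa using this

theorem norm_polar {r : ℝ} (hr : 0 < r) (w : S2) : ‖r • (w : E3)‖ = r := by
  rw [norm_smul, Real.norm_eq_abs, abs_of_pos hr]; simp

theorem bb_polar {r s : ℝ} (hr : 0 < r) (hs : 0 < s) (w w' : S2) :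
    bb (r • (w : E3)) (s • (w' : E3)) = 1 - ⟪(w : E3), (w' : E3)⟫ := by
  unfold bb
  rw [norm_polar hr, norm_polar hs, inner_smul_left, inner_smul_right]
  simp only [conj_trivial]
  field_simp

theorem TT_polar {r s : ℝ} (hr : 0 < r) (hs : 0 < s) (w w' : S2) :
    TT (r • (w : E3)) (s • (w' : E3)) = (r - s) ^ 2 / (r * s) := by
  unfold TT
  rw [norm_polar hr, norm_polar hs]

theorem pow_cancel {r s : ℝ} (hr : 0 < r) (hs : 0 < s) (m : ℕ) :
    (r / s) ^ m * (s / r) ^ ((m : ℝ) + 1 / 4) = (s / r) ^ (1 / 4 : ℝ) := by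
  have h1 : 0 < s / r := by positivity
  rw [Real.rpow_add h1, Real.rpow_natCast, ← mul_assoc, ← mul_pow]
  have : r / s * (s / r) = 1 := by field_simp
  rw [this, one_pow, one_mul]

/-- from real numbers to `ℝ≥0∞` -/
theorem toENN {W c0 r s a e1 e2 : ℝ} (hc0 : 0 < c0) (ha : 0 < a) (hr : 0 < r) (hs : 0 < s)
    (w w' : S2) (hreal : r ≠ s → |⟪(w : E3), (w' : E3)⟫| < 1 → W * (r ^ 2 * s ^ 2) ≤
      c0 * (r ^ e1 * (((1 - ⟪(w : E3), (w' : E3)⟫) ^ (-a) + (1 + ⟪(w : E3), (w' : E3)⟫) ^ (-a)) *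
        |r - s| ^ (-a)) * s ^ e2)) :
    ENNReal.ofReal W * (ENNReal.ofReal (r ^ 2) * ENNReal.ofReal (s ^ 2)) ≤
      ENNReal.ofReal c0 * (ENNReal.ofReal (r ^ e1) * (Bk a w w' * Ak a r s) *
        ENNReal.ofReal (s ^ e2)) := by
  have hre : 0 < r ^ e1 := Real.rpow_pos_of_pos hr _
  have hse : 0 < s ^ e2 := Real.rpow_pos_of_pos hs _
  have h1 : ENNReal.ofReal c0 ≠ 0 := by simpa using hc0
  have h2 : ENNReal.ofReal (r ^ e1) ≠ 0 := by simpa using hre
  have h3 : ENNReal.ofReal (s ^ e2) ≠ 0 := by simpa using hse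
  have hpow : ∀ x : ℝ, ENNReal.ofReal x ^ (-a) ≠ 0 := by
    intro x hx
    rw [ENNReal.rpow_eq_zero_iff] at hx
    rcases hx with ⟨_, h⟩ | ⟨h, _⟩
    · linarith
    · exact ENNReal.ofReal_ne_top h
  have hz : ENNReal.ofReal 0 ^ (-a) = ∞ := by
    rw [ENNReal.ofReal_zero]; exact ENNReal.zero_rpow_of_neg (by linarith)
  have hB0 : Bk a w w' ≠ 0 := by
    intro h
    exact hpow _ (add_eq_zero.1 h).1
  have hA0 : Ak a r s ≠ 0 := hpow _
  have htop : Bk a w w' * Ak a r s = ∞ → ENNReal.ofReal W * (ENNReal.ofReal (r ^ 2) *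
      ENNReal.ofReal (s ^ 2)) ≤ ENNReal.ofReal c0 * (ENNReal.ofReal (r ^ e1) *
        (Bk a w w' * Ak a r s) * ENNReal.ofReal (s ^ e2)) := by
    intro h
    rw [h, ENNReal.mul_top h2, ENNReal.top_mul h3, ENNReal.mul_top h1]
    exact le_top
  by_cases hrs : r = s
  · apply htop
    have : Ak a r s = ∞ := by
      unfold Ak; rw [hrs, sub_self, abs_zero]; exact hz
    rw [this, ENNReal.mul_top hB0]
  by_cases hin : |⟪(w : E3), (w' : E3)⟫| < 1
  · have h4 := hreal hrs hin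
    rw [abs_lt] at hin
    have hb1 : 0 < 1 - ⟪(w : E3), (w' : E3)⟫ := by linarith [hin.2]
    have hb2 : 0 < 1 + ⟪(w : E3), (w' : E3)⟫ := by linarith [hin.1]
    have hd : 0 < |r - s| := abs_pos.2 (sub_ne_zero.2 hrs)
    have hBe : Bk a w w' = ENNReal.ofReal ((1 - ⟪(w : E3), (w' : E3)⟫) ^ (-a) +
        (1 + ⟪(w : E3), (w' : E3)⟫) ^ (-a)) := by
      unfold Bk
      rw [ENNReal.ofReal_rpow_of_pos hb1, ENNReal.ofReal_rpow_of_pos hb2,
        ENNReal.ofReal_add (Real.rpow_pos_of_pos hb1 _).le (Real.rpow_pos_of_pos hb2 _).le]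
    have hAe : Ak a r s = ENNReal.ofReal (|r - s| ^ (-a)) := by
      unfold Ak
      rw [ENNReal.ofReal_rpow_of_pos hd]
    have hBpos : 0 < (1 - ⟪(w : E3), (w' : E3)⟫) ^ (-a) + (1 + ⟪(w : E3), (w' : E3)⟫) ^ (-a) :=
      add_pos (Real.rpow_pos_of_pos hb1 _) (Real.rpow_pos_of_pos hb2 _)
    have hApos : 0 < |r - s| ^ (-a) := Real.rpow_pos_of_pos hd _
    have hL : ENNReal.ofReal (r ^ 2) * ENNReal.ofReal (s ^ 2) = ENNReal.ofReal (r ^ 2 * s ^ 2) :=
      (ENNReal.ofReal_mul (by positivity)).symm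
    rw [hBe, hAe, hL]
    generalize (1 - ⟪(w : E3), (w' : E3)⟫) ^ (-a) + (1 + ⟪(w : E3), (w' : E3)⟫) ^ (-a) = B at *
    generalize |r - s| ^ (-a) = A at *
    have hR : ENNReal.ofReal c0 * (ENNReal.ofReal (r ^ e1) * (ENNReal.ofReal B * ENNReal.ofReal A) *
        ENNReal.ofReal (s ^ e2)) = ENNReal.ofReal (c0 * (r ^ e1 * (B * A) * s ^ e2)) := by
      rw [ENNReal.ofReal_mul hc0.le, ENNReal.ofReal_mul (by positivity), ENNReal.ofReal_mul hre.le,
        ENNReal.ofReal_mul hBpos.le]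
    rw [hR]
    by_cases hW : 0 ≤ W
    · rw [← ENNReal.ofReal_mul hW]
      exact ENNReal.ofReal_le_ofReal h4
    · rw [ENNReal.ofReal_of_nonpos (by linarith), zero_mul]
      exact zero_le
  · apply htop
    have h5 : |⟪(w : E3), (w' : E3)⟫| = 1 := le_antisymm (abs_inner_le w w') (not_lt.1 hin)
    have : Bk a w w' = ∞ := by
      unfold Bk
      rcases (abs_eq (by norm_num : (0 : ℝ) ≤ 1)).1 h5 with h | h
      · rw [h, sub_self, hz]; exact top_add _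
      · rw [h, add_neg_cancel, hz]; exact add_top _
    rw [this, ENNReal.top_mul hA0]

end pw

/-- the assembly of the bilinear estimate in polar coordinates -/
theorem assemble {p q a : ℝ} (hp : 1 < p) (hq : 1 < q) (ha : 0 < a) (ha1 : a < 1)
    (h : 1 / p + 1 / q + a = 2) : ∃ C : ℝ≥0, ∀ (c0 : ℝ) (K : E3 → E3 → ℝ≥0∞) (f g : E3 → ℝ≥0∞),
    Measurable (Function.uncurry K) → Measurable f → Measurable g →
    (∀ (r s : ℝ) (w w' : S2), 0 < r → 0 < s → f (r • (w : E3)) ≠ 0 → g (s • (w' : E3)) ≠ 0 →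
      K (r • (w : E3)) (s • (w' : E3)) * (ENNReal.ofReal (r ^ 2) * ENNReal.ofReal (s ^ 2)) ≤
        ENNReal.ofReal c0 * (ENNReal.ofReal (r ^ (2 / p)) * (Bk a w w' * Ak a r s) *
          ENNReal.ofReal (s ^ (2 / q)))) →
    ∫⁻ x, ∫⁻ y, f x * K x y * g y ≤ ENNReal.ofReal c0 * C * nrm p f * nrm q g := by
  have hp0 : 0 < p := by linarith
  have hq0 : 0 < q := by linarith
  obtain ⟨CB, hCB⟩ := BLE_sphere hp hq ha ha1 h
  obtain ⟨CA, hCA⟩ := BLE_radial hp hq ha ha1 h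
  refine ⟨CB * CA, ?_⟩
  intro c0 K f g hK hf hg hpt
  have hBm : Measurable (Function.uncurry (Bk a)) := by
    have h1 : Measurable fun z : S2 × S2 => ENNReal.ofReal (1 - ⟪(z.1 : E3), (z.2 : E3)⟫) ^ (-a) :=
      (((measurable_const.sub inner_meas).ennreal_ofReal).pow_const _)
    have h2 : Measurable fun z : S2 × S2 => ENNReal.ofReal (1 + ⟪(z.1 : E3), (z.2 : E3)⟫) ^ (-a) :=
      (((measurable_const.add inner_meas).ennreal_ofReal).pow_const _)
    exact h1.add h2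
  have hsm : Measurable fun z : S2 × ℝ => z.2 • (z.1 : E3) := Continuous.measurable (by fun_prop)
  set F : S2 → ℝ → ℝ≥0∞ := fun w r => ENNReal.ofReal (r ^ (2 / p)) * f (r • (w : E3)) with hF
  set G : S2 → ℝ → ℝ≥0∞ := fun w s => ENNReal.ofReal (s ^ (2 / q)) * g (s • (w : E3)) with hG
  have hFm : Measurable (Function.uncurry F) := by
    have h1 : Measurable fun z : S2 × ℝ => ENNReal.ofReal (z.2 ^ (2 / p)) := by fun_prop
    exact h1.mul (hf.comp hsm)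
  have hGm : Measurable (Function.uncurry G) := by
    have h1 : Measurable fun z : S2 × ℝ => ENNReal.ofReal (z.2 ^ (2 / q)) := by fun_prop
    exact h1.mul (hg.comp hsm)
  have hnF : ∫⁻ w, ∫⁻ r in Ioi (0 : ℝ), F w r ^ p ∂volume ∂sg = ∫⁻ x, f x ^ p := by
    rw [polar _ (hf.pow_const p)]
    refine lintegral_congr fun w => ?_
    refine setLIntegral_congr_fun measurableSet_Ioi fun r hr => ?_
    have hr' : (0 : ℝ) < r := hr
    change (ENNReal.ofReal (r ^ (2 / p)) * f (r • (w : E3))) ^ p = _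
    rw [ENNReal.mul_rpow_of_nonneg _ _ hp0.le,
      ENNReal.ofReal_rpow_of_pos (Real.rpow_pos_of_pos hr' _), ← Real.rpow_mul hr'.le,
      div_mul_cancel₀ _ hp0.ne']
    norm_num
  have hnG : ∫⁻ w, ∫⁻ r in Ioi (0 : ℝ), G w r ^ q ∂volume ∂sg = ∫⁻ x, g x ^ q := by
    rw [polar _ (hg.pow_const q)]
    refine lintegral_congr fun w => ?_
    refine setLIntegral_congr_fun measurableSet_Ioi fun r hr => ?_
    have hr' : (0 : ℝ) < r := hr
    change (ENNReal.ofReal (r ^ (2 / q)) * g (r • (w : E3))) ^ q = _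
    rw [ENNReal.mul_rpow_of_nonneg _ _ hq0.le,
      ENNReal.ofReal_rpow_of_pos (Real.rpow_pos_of_pos hr' _), ← Real.rpow_mul hr'.le,
      div_mul_cancel₀ _ hq0.ne']
    norm_num
  have hprod := BLE_prod hp0 hq0 hBm (Ak_meas a) (CA := CB) (CB := CA) ENNReal.coe_ne_top hCB hCA
    F G hFm hGm
  rw [hnF, hnG] at hprod
  have hint : Measurable fun z : E3 × E3 => f z.1 * K z.1 z.2 * g z.2 :=
    ((hf.comp measurable_fst).mul hK).mul (hg.comp measurable_snd)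
  have hc0 : ENNReal.ofReal c0 ≠ ∞ := ENNReal.ofReal_ne_top
  calc ∫⁻ x, ∫⁻ y, f x * K x y * g y
      = ∫⁻ w, ∫⁻ r in Ioi (0 : ℝ), ENNReal.ofReal (r ^ 2) *
          ∫⁻ y, f (r • (w : E3)) * K (r • (w : E3)) y * g y ∂volume ∂volume ∂sg :=
        polar _ hint.lintegral_prod_right'
    _ = ∫⁻ w, ∫⁻ r in Ioi (0 : ℝ), ENNReal.ofReal (r ^ 2) *
          ∫⁻ w', ∫⁻ s in Ioi (0 : ℝ), ENNReal.ofReal (s ^ 2) * (f (r • (w : E3)) *
            K (r • (w : E3)) (s • (w' : E3)) * g (s • (w' : E3))) ∂volume ∂sg ∂volume ∂sg := by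
        refine lintegral_congr fun w => lintegral_congr fun r => ?_
        have m5 : Measurable fun y => f (r • (w : E3)) * K (r • (w : E3)) y * g y :=
          hint.comp measurable_prodMk_left
        rw [polar _ m5]
    _ ≤ ∫⁻ w, ∫⁻ r in Ioi (0 : ℝ), ENNReal.ofReal c0 *
          ∫⁻ w', ∫⁻ s in Ioi (0 : ℝ), F w r * (Bk a w w' * Ak a r s) * G w' s ∂volume ∂sg
            ∂volume ∂sg := by
        refine lintegral_mono fun w => setLIntegral_mono' measurableSet_Ioi fun r hr => ?_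
        have hr' : (0 : ℝ) < r := hr
        rw [← lintegral_const_mul' _ _ ENNReal.ofReal_ne_top, ← lintegral_const_mul' _ _ hc0]
        refine lintegral_mono fun w' => ?_
        rw [← lintegral_const_mul' _ _ ENNReal.ofReal_ne_top, ← lintegral_const_mul' _ _ hc0]
        refine setLIntegral_mono' measurableSet_Ioi fun s hs => ?_
        have hs' : (0 : ℝ) < s := hs
        by_cases hf0 : f (r • (w : E3)) = 0
        · rw [hf0]; simp
        by_cases hg0 : g (s • (w' : E3)) = 0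
        · rw [hg0]; simp
        have h5 := hpt r s w w' hr' hs' hf0 hg0
        calc _ = f (r • (w : E3)) * g (s • (w' : E3)) * (K (r • (w : E3)) (s • (w' : E3)) *
              (ENNReal.ofReal (r ^ 2) * ENNReal.ofReal (s ^ 2))) := by ring
          _ ≤ f (r • (w : E3)) * g (s • (w' : E3)) * (ENNReal.ofReal c0 *
              (ENNReal.ofReal (r ^ (2 / p)) * (Bk a w w' * Ak a r s) *
                ENNReal.ofReal (s ^ (2 / q)))) := by gcongr
          _ = _ := by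
              change _ = ENNReal.ofReal c0 * ((ENNReal.ofReal (r ^ (2 / p)) * f (r • (w : E3))) *
                (Bk a w w' * Ak a r s) * (ENNReal.ofReal (s ^ (2 / q)) * g (s • (w' : E3))))
              ring
    _ = ENNReal.ofReal c0 * ∫⁻ w, ∫⁻ r in Ioi (0 : ℝ),
          ∫⁻ w', ∫⁻ s in Ioi (0 : ℝ), F w r * (Bk a w w' * Ak a r s) * G w' s ∂volume ∂sg
            ∂volume ∂sg := by
        rw [← lintegral_const_mul' _ _ hc0]
        refine lintegral_congr fun w => ?_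
        rw [← lintegral_const_mul' _ _ hc0]
    _ ≤ ENNReal.ofReal c0 * (CB * CA * (∫⁻ x, f x ^ p) ^ (1 / p) * (∫⁻ x, g x ^ q) ^ (1 / q)) := by
        gcongr
    _ = _ := by
        unfold nrm
        rw [ENNReal.coe_mul]
        ring

theorem comb {W C P B R ρ X Y Z : ℝ} (h5 : W ≤ C * P * B) (h6 : P * R ≤ 2 * ρ * (X * Y * Z))
    (hR : 0 ≤ R) (hCB : 0 ≤ C * B) : W * R ≤ 2 * C * ρ * (X * (B * Y) * Z) := by
  calc W * R ≤ (C * P * B) * R := mul_le_mul_of_nonneg_right h5 hR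
    _ = (C * B) * (P * R) := by ring
    _ ≤ (C * B) * (2 * ρ * (X * Y * Z)) := mul_le_mul_of_nonneg_left h6 hCB
    _ = _ := by ring

/-- **Task BIL** -/
theorem t_BIL : S_KB → S_BIL := by
  rintro ⟨C, hC, hKB⟩
  obtain ⟨C1, h1⟩ := assemble (p := 6 / 5) (q := 6 / 5) (a := 1 / 3) (by norm_num) (by norm_num)
    (by norm_num) (by norm_num) (by norm_num)
  obtain ⟨C2, h2⟩ := assemble (p := 6 / 5) (q := 2) (a := 2 / 3) (by norm_num) (by norm_num)
    (by norm_num) (by norm_num) (by norm_num)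
  obtain ⟨C3, h3⟩ := assemble (p := 2) (q := 6 / 5) (a := 2 / 3) (by norm_num) (by norm_num)
    (by norm_num) (by norm_num) (by norm_num)
  refine ⟨Real.toNNReal (2 * C) * (C1 + C2 + C3), ?_⟩
  intro κ m r0 hκ hr0 f g hf hg hf0 hg0
  have hsq : √r0 = r0 ^ (1 / 2 : ℝ) := Real.sqrt_eq_rpow r0
  have hr0' : 0 < r0 ^ (1 / 2 : ℝ) := Real.rpow_pos_of_pos hr0 _
  -- the real pointwise bounds
  have hKB' : ∀ (r s : ℝ) (w w' : S2), 0 < r → 0 < s → r ≠ s → |⟪(w : E3), (w' : E3)⟫| < 1 →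
      |wK κ m (r • (w : E3)) (s • (w' : E3))| ≤ C * ((s / r) ^ (1 / 4 : ℝ) *
        ((r * s) ^ (-(1 / 2 : ℝ)) * (((r - s) ^ 2 / (r * s)) ^ (-(1 / 6 : ℝ)) *
          (1 + (r - s) ^ 2 / (r * s)) ^ (-(1 / 3 : ℝ))))) *
            ((1 - ⟪(w : E3), (w' : E3)⟫) ^ (-(1 / 3 : ℝ)) +
              (1 + ⟪(w : E3), (w' : E3)⟫) ^ (-(1 / 3 : ℝ))) ∧
      √κ * |wK κ m (r • (w : E3)) (s • (w' : E3))| ≤ C * ((s / r) ^ (1 / 4 : ℝ) *
        ((r * s) ^ (-(1 / 2 : ℝ)) * s ^ (-(1 / 2 : ℝ)) *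
          (((r - s) ^ 2 / (r * s)) ^ (-(1 / 3 : ℝ)) *
          (1 + (r - s) ^ 2 / (r * s)) ^ (-(1 / 6 : ℝ))))) *
            ((1 - ⟪(w : E3), (w' : E3)⟫) ^ (-(2 / 3 : ℝ)) +
              (1 + ⟪(w : E3), (w' : E3)⟫) ^ (-(2 / 3 : ℝ))) := by
    intro r s w w' hr hs hrs hin
    have hx : ‖r • (w : E3)‖ = r := norm_polar hr w
    have hy : ‖s • (w' : E3)‖ = s := norm_polar hs w'
    have hb := bb_polar hr hs w w'
    have hT := TT_polar hr hs w w'
    rw [abs_lt] at hin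
    have h := hKB κ m (r • (w : E3)) (s • (w' : E3)) hκ (by rw [hx]; exact hr) (by rw [hy]; exact hs)
      (by rw [hx, hy]; exact hrs) (by rw [hb]; linarith [hin.2]) (by rw [hb]; linarith [hin.1])
    rw [hx, hy, hb, hT] at h
    have e2 : 2 - (1 - ⟪(w : E3), (w' : E3)⟫) = 1 + ⟪(w : E3), (w' : E3)⟫ := by ring
    rw [e2] at h
    have hw : |wK κ m (r • (w : E3)) (s • (w' : E3))| =
        |Km κ m (r • (w : E3)) (s • (w' : E3))| * (s / r) ^ ((m : ℝ) + 1 / 4) := by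
      unfold wK
      rw [abs_mul, hx, hy, abs_of_pos (Real.rpow_pos_of_pos (by positivity) _)]
    have hp := pow_cancel hr hs m
    have hpos : 0 ≤ (s / r) ^ ((m : ℝ) + 1 / 4) := by positivity
    rw [hw]
    constructor
    · calc _ ≤ _ := mul_le_mul_of_nonneg_right h.1 hpos
        _ = C * (((r / s) ^ m * (s / r) ^ ((m : ℝ) + 1 / 4)) *
        ((r * s) ^ (-(1 / 2 : ℝ)) * (((r - s) ^ 2 / (r * s)) ^ (-(1 / 6 : ℝ)) *
          (1 + (r - s) ^ 2 / (r * s)) ^ (-(1 / 3 : ℝ))))) *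
            ((1 - ⟪(w : E3), (w' : E3)⟫) ^ (-(1 / 3 : ℝ)) +
              (1 + ⟪(w : E3), (w' : E3)⟫) ^ (-(1 / 3 : ℝ))) := by ring
        _ = _ := by rw [hp]
    · rw [← mul_assoc]
      calc _ ≤ _ := mul_le_mul_of_nonneg_right h.2 hpos
        _ = C * (((r / s) ^ m * (s / r) ^ ((m : ℝ) + 1 / 4)) *
        ((r * s) ^ (-(1 / 2 : ℝ)) * s ^ (-(1 / 2 : ℝ)) *
          (((r - s) ^ 2 / (r * s)) ^ (-(1 / 3 : ℝ)) *
          (1 + (r - s) ^ 2 / (r * s)) ^ (-(1 / 6 : ℝ))))) *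
            ((1 - ⟪(w : E3), (w' : E3)⟫) ^ (-(2 / 3 : ℝ)) +
              (1 + ⟪(w : E3), (w' : E3)⟫) ^ (-(2 / 3 : ℝ))) := by ring
        _ = _ := by rw [hp]
  have hBpos : ∀ (a : ℝ) (w w' : S2), |⟪(w : E3), (w' : E3)⟫| < 1 →
      0 ≤ (1 - ⟪(w : E3), (w' : E3)⟫) ^ a + (1 + ⟪(w : E3), (w' : E3)⟫) ^ a := by
    intro a w w' hin
    rw [abs_lt] at hin
    have hb1 : 0 < 1 - ⟪(w : E3), (w' : E3)⟫ := by linarith [hin.2]
    have hb2 : 0 < 1 + ⟪(w : E3), (w' : E3)⟫ := by linarith [hin.1]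
    positivity
  have hle : ∀ (r : ℝ) (w : S2), 0 < r → f (r • (w : E3)) ≠ 0 → r ≤ r0 := by
    intro r w hr h
    by_contra hcon
    exact h (hf0 _ (by rw [norm_polar hr w]; linarith))
  have hle' : ∀ (r : ℝ) (w : S2), 0 < r → g (r • (w : E3)) ≠ 0 → r ≤ r0 := by
    intro r w hr h
    by_contra hcon
    exact h (hg0 _ (by rw [norm_polar hr w]; linarith))
  have hKm1 : Measurable (Function.uncurry fun x y => ENNReal.ofReal |wK κ m x y|) :=
    (wK_meas κ m).abs.ennreal_ofReal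
  have hKm2 : Measurable (Function.uncurry fun x y => ENNReal.ofReal (√κ * |wK κ m x y|)) :=
    ((wK_meas κ m).abs.const_mul _).ennreal_ofReal
  have hfin : ∀ (c : ℝ≥0), c ≤ C1 + C2 + C3 → ENNReal.ofReal (2 * C) * c ≤
      ((Real.toNNReal (2 * C) * (C1 + C2 + C3) : ℝ≥0) : ℝ≥0∞) := by
    intro c hc
    rw [ENNReal.ofReal, ← ENNReal.coe_mul]
    exact_mod_cast mul_le_mul_right hc _
  have hc1 : C1 ≤ C1 + C2 + C3 := by rw [add_assoc]; exact le_self_add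
  have hc2 : C2 ≤ C1 + C2 + C3 := by rw [add_comm C1 C2, add_assoc]; exact le_self_add
  have hc3 : C3 ≤ C1 + C2 + C3 := le_add_self
  refine ⟨?_, ?_, ?_⟩
  · refine (h1 (2 * C * 1) _ f g hKm1 hf hg ?_).trans ?_
    · intro r s w w' hr hs _ _
      refine toENN (by positivity) (by norm_num) hr hs w w' fun hrs hin => ?_
      have h5 := (hKB' r s w w' hr hs hrs hin).1
      have h6 := rl1 hr hs hrs
      have h7 := hBpos (-(1 / 3)) w w' hin
      have e1 : (2 / (6 / 5) : ℝ) = 5 / 3 := by norm_num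
      rw [e1]
      rw [← mul_one (2 : ℝ)] at h6
      exact comb h5 (by linarith [h6]) (by positivity) (by positivity)
    · rw [mul_one]
      gcongr
      exact hfin C1 hc1
  · refine (h2 (2 * C * r0 ^ (1 / 2 : ℝ)) _ f g hKm2 hf hg ?_).trans ?_
    · intro r s w w' hr hs hfr hgs
      refine toENN (by positivity) (by norm_num) hr hs w w' fun hrs hin => ?_
      have h5 := (hKB' r s w w' hr hs hrs hin).2
      have h6 := rl2 hr hs hrs (hle r w hr hfr) (hle' s w' hs hgs)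
      have h7 := hBpos (-(2 / 3)) w w' hin
      have e1 : (2 / (6 / 5) : ℝ) = 5 / 3 := by norm_num
      have e2 : (2 / 2 : ℝ) = 1 := by norm_num
      rw [e1, e2]
      exact comb h5 h6 (by positivity) (by positivity)
    · rw [hsq, ENNReal.ofReal_mul (by positivity)]
      calc _ = (ENNReal.ofReal (2 * C) * C2) * ENNReal.ofReal (r0 ^ (1 / 2 : ℝ)) * nrm (6 / 5) f *
            nrm 2 g := by ring
        _ ≤ _ := by gcongr; exact hfin C2 hc2
  · refine (h3 (2 * C * r0 ^ (1 / 2 : ℝ)) _ f g hKm2 hf hg ?_).trans ?_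
    · intro r s w w' hr hs hfr hgs
      refine toENN (by positivity) (by norm_num) hr hs w w' fun hrs hin => ?_
      have h5 := (hKB' r s w w' hr hs hrs hin).2
      have h6 := rl3 hr hs hrs (hle r w hr hfr) (hle' s w' hs hgs)
      have h7 := hBpos (-(2 / 3)) w w' hin
      have e1 : (2 / (6 / 5) : ℝ) = 5 / 3 := by norm_num
      have e2 : (2 / 2 : ℝ) = 1 := by norm_num
      rw [e1, e2]
      exact comb h5 h6 (by positivity) (by positivity)
    · rw [hsq, ENNReal.ofReal_mul (by positivity)]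
      calc _ = (ENNReal.ofReal (2 * C) * C3) * ENNReal.ofReal (r0 ^ (1 / 2 : ℝ)) * nrm 2 f *
            nrm (6 / 5) g := by ring
        _ ≤ _ := by gcongr; exact hfin C3 hc3

end Pool.Agent.H690.HK
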