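import Pool.Agent.H690.HK.HLS

/-! Task BIL of the project HK of helper998, part A: bilinear estimates for product kernels,
spherical caps, polar coordinates. -/

set_option autoImplicit false

noncomputable section

namespace Pool.Agent.H690.HK

open MeasureTheory Filter Topology Set
open scoped ENNReal NNReal RealInnerProductSpace Pointwise

open Pool.Agent.H998.HK

/-! ### abstract bilinear estimates -/

/-- bilinear estimate -/
def BLE (p q : ℝ) {X Y : Type} [MeasurableSpace X] [MeasurableSpace Y] (μ : Measure X)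
    (ν : Measure Y) (N : X → Y → ℝ≥0∞) (C : ℝ≥0∞) : Prop :=
  ∀ (f : X → ℝ≥0∞) (g : Y → ℝ≥0∞), Measurable f → Measurable g →
    ∫⁻ x, ∫⁻ y, f x * N x y * g y ∂ν ∂μ ≤
      C * (∫⁻ x, f x ^ p ∂μ) ^ (1 / p) * (∫⁻ y, g y ^ q ∂ν) ^ (1 / q)

theorem BLE.add {p q : ℝ} {X Y : Type} [MeasurableSpace X] [MeasurableSpace Y] {μ : Measure X}
    {ν : Measure Y} [SigmaFinite ν] {N N' : X → Y → ℝ≥0∞} {C C' : ℝ≥0∞}
    (hN : Measurable (Function.uncurry N)) (h : BLE p q μ ν N C) (h' : BLE p q μ ν N' C') :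
    BLE p q μ ν (fun x y => N x y + N' x y) (C + C') := by
  intro f g hf hg
  have hfx : Measurable fun z : X × Y => f z.1 := hf.comp measurable_fst
  have hgy : Measurable fun z : X × Y => g z.2 := hg.comp measurable_snd
  have hF : Measurable fun z : X × Y => f z.1 * N z.1 z.2 * g z.2 := (hfx.mul hN).mul hgy
  calc ∫⁻ x, ∫⁻ y, f x * (N x y + N' x y) * g y ∂ν ∂μ =
      ∫⁻ x, ∫⁻ y, (f x * N x y * g y + f x * N' x y * g y) ∂ν ∂μ :=
        lintegral_congr fun x => lintegral_congr fun y => by ring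
    _ = ∫⁻ x, ∫⁻ y, f x * N x y * g y ∂ν ∂μ + ∫⁻ x, ∫⁻ y, f x * N' x y * g y ∂ν ∂μ := by
        rw [← lintegral_add_left hF.lintegral_prod_right']
        refine lintegral_congr fun x => ?_
        exact lintegral_add_left (hF.comp measurable_prodMk_left) _
    _ ≤ _ := add_le_add (h f g hf hg) (h' f g hf hg)
    _ = _ := by ring

/-- kernels of weak type with a constant -/
theorem BLE_weak {p q r : ℝ} (hp : 1 < p) (hq : 1 < q) (hr : 1 < r)
    (hpqr : 1 / p + 1 / q + 1 / r = 2) {K : ℝ} (hK : 0 < K) :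
    ∃ C : ℝ≥0, ∀ (X Y : Type) [MeasurableSpace X] [MeasurableSpace Y] (μ : Measure X) (ν : Measure Y)
    [SigmaFinite μ] [SigmaFinite ν] (N : X → Y → ℝ≥0∞), Measurable (Function.uncurry N) →
    (∀ x (t : ℝ), 0 < t → ν {y | ENNReal.ofReal t < N x y} ≤ ENNReal.ofReal (K * t ^ (-r))) →
    (∀ y (t : ℝ), 0 < t → μ {x | ENNReal.ofReal t < N x y} ≤ ENNReal.ofReal (K * t ^ (-r))) →
    BLE p q μ ν N C := by
  obtain ⟨C, hC⟩ := t_HLS p q r hp hq hr hpqr
  set k : ℝ := K ^ (1 / r) with hk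
  have hr0 : 0 < r := by linarith
  have hk0 : 0 < k := Real.rpow_pos_of_pos hK _
  refine ⟨C * ⟨k, hk0.le⟩, ?_⟩
  intro X Y _ _ μ ν _ _ N hN h1 h2 f g hf hg
  have hscale : ∀ (t : ℝ), 0 < t → ∀ a : ℝ≥0∞, ENNReal.ofReal t < ENNReal.ofReal k⁻¹ * a →
      ENNReal.ofReal (t * k) < a := by
    intro t ht a ha
    rw [ENNReal.ofReal_mul ht.le]
    by_contra hcon
    rw [not_lt] at hcon
    have h3 : ENNReal.ofReal k⁻¹ * a ≤ ENNReal.ofReal k⁻¹ * (ENNReal.ofReal t * ENNReal.ofReal k) := by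
      gcongr
    have h4 : ENNReal.ofReal k⁻¹ * (ENNReal.ofReal t * ENNReal.ofReal k) = ENNReal.ofReal t := by
      rw [← ENNReal.ofReal_mul ht.le, ← ENNReal.ofReal_mul (inv_pos.2 hk0).le]
      congr 1; field_simp
    rw [h4] at h3
    exact absurd (lt_of_lt_of_le ha h3) (lt_irrefl _)
  have hexp : ∀ t : ℝ, 0 < t → K * (t * k) ^ (-r) = t ^ (-r) := by
    intro t ht
    rw [Real.mul_rpow ht.le hk0.le, hk, ← Real.rpow_mul hK.le]
    have : 1 / r * -r = -1 := by field_simp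
    rw [this, Real.rpow_neg_one]
    field_simp
  have h3 := hC X Y μ ν (fun x y => ENNReal.ofReal k⁻¹ * N x y) (hN.const_mul _) (by
    intro x t ht
    refine (measure_mono (fun y (hy : ENNReal.ofReal t < ENNReal.ofReal k⁻¹ * N x y) =>
      hscale t ht _ hy)).trans ((h1 x (t * k) (by positivity)).trans (le_of_eq ?_))
    rw [hexp t ht]) (by
    intro y t ht
    refine (measure_mono (fun x (hx : ENNReal.ofReal t < ENNReal.ofReal k⁻¹ * N x y) =>
      hscale t ht _ hx)).trans ((h2 y (t * k) (by positivity)).trans (le_of_eq ?_))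
    rw [hexp t ht]) f g hf hg
  have h4 : ∀ x y, f x * N x y * g y = ENNReal.ofReal k * (f x * (ENNReal.ofReal k⁻¹ * N x y) * g y) := by
    intro x y
    have : ENNReal.ofReal k * ENNReal.ofReal k⁻¹ = 1 := by
      rw [← ENNReal.ofReal_mul hk0.le, mul_inv_cancel₀ hk0.ne', ENNReal.ofReal_one]
    calc f x * N x y * g y = (ENNReal.ofReal k * ENNReal.ofReal k⁻¹) * (f x * N x y * g y) := by
          rw [this, one_mul]
      _ = _ := by ring
  simp only [h4]
  have h5 : ∀ x, ∫⁻ y, ENNReal.ofReal k * (f x * (ENNReal.ofReal k⁻¹ * N x y) * g y) ∂ν =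
      ENNReal.ofReal k * ∫⁻ y, (f x * (ENNReal.ofReal k⁻¹ * N x y) * g y) ∂ν := fun x =>
    lintegral_const_mul' _ _ ENNReal.ofReal_ne_top
  simp only [h5]
  rw [lintegral_const_mul' _ _ ENNReal.ofReal_ne_top]
  have h6 : ((C * ⟨k, hk0.le⟩ : ℝ≥0) : ℝ≥0∞) = ENNReal.ofReal k * C := by
    rw [ENNReal.coe_mul, mul_comm]
    congr 1
    rw [ENNReal.ofReal]
    congr 1
    ext
    rw [Real.coe_toNNReal _ hk0.le]; rfl
  rw [h6, mul_assoc, mul_assoc]
  rw [mul_assoc] at h3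
  gcongr

/-- products of kernels -/
theorem BLE_prod {p q : ℝ} (hp : 0 < p) (hq : 0 < q) {X X' Y Y' : Type} [MeasurableSpace X]
    [MeasurableSpace X'] [MeasurableSpace Y] [MeasurableSpace Y'] {μ : Measure X} {μ' : Measure X'}
    {ν : Measure Y} {ν' : Measure Y'} [SigmaFinite μ] [SigmaFinite μ'] [SigmaFinite ν]
    [SigmaFinite ν'] {A : X → Y → ℝ≥0∞} {B : X' → Y' → ℝ≥0∞} (hA : Measurable (Function.uncurry A))
    (hB : Measurable (Function.uncurry B)) {CA CB : ℝ≥0∞} (hCB : CB ≠ ∞)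
    (h : BLE p q μ ν A CA) (h' : BLE p q μ' ν' B CB) (F : X → X' → ℝ≥0∞) (G : Y → Y' → ℝ≥0∞)
    (hF : Measurable (Function.uncurry F)) (hG : Measurable (Function.uncurry G)) :
    ∫⁻ x, ∫⁻ x', ∫⁻ y, ∫⁻ y', F x x' * (A x y * B x' y') * G y y' ∂ν' ∂ν ∂μ' ∂μ ≤
      CA * CB * (∫⁻ x, ∫⁻ x', F x x' ^ p ∂μ' ∂μ) ^ (1 / p) *
        (∫⁻ y, ∫⁻ y', G y y' ^ q ∂ν' ∂ν) ^ (1 / q) := by
  set φ : X → ℝ≥0∞ := fun x => (∫⁻ x', F x x' ^ p ∂μ') ^ (1 / p) with hφ
  set γ : Y → ℝ≥0∞ := fun y => (∫⁻ y', G y y' ^ q ∂ν') ^ (1 / q) with hγ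
  have hφm : Measurable φ := (Measurable.lintegral_prod_right' (hF.pow_const p)).pow_const _
  have hγm : Measurable γ := (Measurable.lintegral_prod_right' (hG.pow_const q)).pow_const _
  have hφp : ∀ x, φ x ^ p = ∫⁻ x', F x x' ^ p ∂μ' := fun x => by
    rw [hφ]
    change ((∫⁻ x', F x x' ^ p ∂μ') ^ (1 / p)) ^ p = _
    rw [← ENNReal.rpow_mul, one_div_mul_cancel hp.ne', ENNReal.rpow_one]
  have hγq : ∀ y, γ y ^ q = ∫⁻ y', G y y' ^ q ∂ν' := fun y => by
    rw [hγ]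
    change ((∫⁻ y', G y y' ^ q ∂ν') ^ (1 / q)) ^ q = _
    rw [← ENNReal.rpow_mul, one_div_mul_cancel hq.ne', ENNReal.rpow_one]
  have hFm : ∀ x, Measurable (F x) := fun x => hF.comp measurable_prodMk_left
  have hGm : ∀ y, Measurable (G y) := fun y => hG.comp measurable_prodMk_left
  -- the four-variable function
  have hH : ∀ x, Measurable fun z : (X' × Y) × Y' =>
      F x z.1.1 * (A x z.1.2 * B z.1.1 z.2) * G z.1.2 z.2 := by
    intro x
    have m1 : Measurable fun z : (X' × Y) × Y' => F x z.1.1 :=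
      (hFm x).comp (measurable_fst.comp measurable_fst)
    have m2 : Measurable fun z : (X' × Y) × Y' => A x z.1.2 :=
      (hA.comp measurable_prodMk_left : Measurable (A x)).comp (measurable_snd.comp measurable_fst)
    have m3 : Measurable fun z : (X' × Y) × Y' => B z.1.1 z.2 :=
      hB.comp ((measurable_fst.comp measurable_fst).prodMk measurable_snd)
    have m4 : Measurable fun z : (X' × Y) × Y' => G z.1.2 z.2 :=
      hG.comp ((measurable_snd.comp measurable_fst).prodMk measurable_snd)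
    exact (m1.mul (m2.mul m3)).mul m4
  calc ∫⁻ x, ∫⁻ x', ∫⁻ y, ∫⁻ y', F x x' * (A x y * B x' y') * G y y' ∂ν' ∂ν ∂μ' ∂μ
      = ∫⁻ x, ∫⁻ y, ∫⁻ x', ∫⁻ y', F x x' * (A x y * B x' y') * G y y' ∂ν' ∂μ' ∂ν ∂μ := by
        refine lintegral_congr fun x => ?_
        exact lintegral_lintegral_swap (hH x).lintegral_prod_right'.aemeasurable
    _ = ∫⁻ x, ∫⁻ y, A x y * ∫⁻ x', ∫⁻ y', F x x' * B x' y' * G y y' ∂ν' ∂μ' ∂ν ∂μ := by
        refine lintegral_congr fun x => lintegral_congr fun y => ?_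
        have m3 : Measurable fun z : X' × Y' => F x z.1 * B z.1 z.2 * G y z.2 :=
          (((hFm x).comp measurable_fst).mul hB).mul ((hGm y).comp measurable_snd)
        rw [← lintegral_const_mul _ m3.lintegral_prod_right']
        refine lintegral_congr fun x' => ?_
        have m4 : Measurable fun y' : Y' => F x x' * B x' y' * G y y' :=
          m3.comp measurable_prodMk_left
        change _ = A x y * ∫⁻ y', F x x' * B x' y' * G y y' ∂ν'
        rw [← lintegral_const_mul _ m4]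
        refine lintegral_congr fun y' => ?_
        ring
    _ ≤ ∫⁻ x, ∫⁻ y, A x y * (CB * φ x * γ y) ∂ν ∂μ := by
        refine lintegral_mono fun x => lintegral_mono fun y => ?_
        change A x y * _ ≤ A x y * _
        gcongr
        exact h' (F x) (G y) (hFm x) (hGm y)
    _ = CB * ∫⁻ x, ∫⁻ y, φ x * A x y * γ y ∂ν ∂μ := by
        rw [← lintegral_const_mul' _ _ hCB]
        refine lintegral_congr fun x => ?_
        rw [← lintegral_const_mul' _ _ hCB]
        refine lintegral_congr fun y => ?_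
        ring
    _ ≤ CB * (CA * (∫⁻ x, φ x ^ p ∂μ) ^ (1 / p) * (∫⁻ y, γ y ^ q ∂ν) ^ (1 / q)) := by
        gcongr
        exact h φ γ hφm hγm
    _ = _ := by
        simp only [hφp, hγq]
        ring

/-! ### spherical caps -/

/-- the unit sphere -/
abbrev S2 : Type := Metric.sphere (0 : E3) 1

/-- surface measure -/
abbrev sg : Measure S2 := (volume : Measure E3).toSphere

theorem exists_basis (u : E3) (hu : ‖u‖ = 1) : ∃ b : OrthonormalBasis (Fin 3) ℝ E3, b 0 = u := by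
  have hv : Orthonormal ℝ (({0} : Set (Fin 3)).domRestrict (fun _ : Fin 3 => u)) := by
    constructor
    · intro i; exact hu
    · intro i j hij
      exact absurd (Subsingleton.elim i j) hij
  obtain ⟨b, hb⟩ := hv.exists_orthonormalBasis_extension_of_card_eq (by simp)
  exact ⟨b, hb 0 rfl⟩

theorem box_measure (u : E3) (hu : ‖u‖ = 1) {τ : ℝ} (hτ : 0 < τ) :
    volume {y : E3 | |⟪u, y⟫| ≤ 1 ∧ ‖y‖ ^ 2 - ⟪u, y⟫ ^ 2 ≤ 2 * τ} ≤ ENNReal.ofReal (16 * τ) := by
  obtain ⟨b, hb⟩ := exists_basis u hu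
  set a : Fin 3 → ℝ := ![1, √(2 * τ), √(2 * τ)] with ha
  have hsub : {y : E3 | |⟪u, y⟫| ≤ 1 ∧ ‖y‖ ^ 2 - ⟪u, y⟫ ^ 2 ≤ 2 * τ} ⊆
      b.repr ⁻¹' ((WithLp.ofLp) ⁻¹' (Icc (-a) a)) := by
    rintro y ⟨h1, h2⟩
    have h3 : ‖y‖ ^ 2 = ⟪b 0, y⟫ ^ 2 + ⟪b 1, y⟫ ^ 2 + ⟪b 2, y⟫ ^ 2 := by
      have := b.sum_sq_norm_inner_right y
      rw [Fin.sum_univ_three] at this
      simp only [Real.norm_eq_abs, sq_abs] at this
      linarith
    rw [hb] at h3
    have h4 : ⟪b 1, y⟫ ^ 2 + ⟪b 2, y⟫ ^ 2 ≤ 2 * τ := by linarith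
    have h5 : |⟪b 1, y⟫| ≤ √(2 * τ) := Real.abs_le_sqrt (by nlinarith [sq_nonneg ⟪b 2, y⟫])
    have h6 : |⟪b 2, y⟫| ≤ √(2 * τ) := Real.abs_le_sqrt (by nlinarith [sq_nonneg ⟪b 1, y⟫])
    have h7 : ∀ i, |⟪b i, y⟫| ≤ a i := by
      intro i
      fin_cases i
      · change |⟪b 0, y⟫| ≤ 1
        rw [hb]; exact h1
      · exact h5
      · exact h6
    change WithLp.ofLp (b.repr y) ∈ Icc (-a) a
    rw [mem_Icc]
    constructor
    · intro i
      change -a i ≤ b.repr y i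
      rw [b.repr_apply_apply]
      exact (abs_le.1 (h7 i)).1
    · intro i
      change b.repr y i ≤ a i
      rw [b.repr_apply_apply]
      exact (abs_le.1 (h7 i)).2
  refine (measure_mono hsub).trans ?_
  have hm1 : MeasurableSet (Icc (-a) a) := measurableSet_Icc
  rw [b.measurePreserving_repr.measure_preimage
      ((PiLp.volume_preserving_ofLp (Fin 3)).measurable hm1).nullMeasurableSet,
    (PiLp.volume_preserving_ofLp (Fin 3)).measure_preimage hm1.nullMeasurableSet,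
    Real.volume_Icc_pi, Fin.prod_univ_three]
  have e0 : a 0 - (-a) 0 = 2 := by simp [ha]; norm_num
  have e1 : a 1 - (-a) 1 = 2 * √(2 * τ) := by simp [ha]; ring
  have e2 : a 2 - (-a) 2 = 2 * √(2 * τ) := by simp [ha]; ring
  rw [e0, e1, e2, ← ENNReal.ofReal_mul (by norm_num), ← ENNReal.ofReal_mul (by positivity)]
  apply ENNReal.ofReal_le_ofReal
  have : √(2 * τ) * √(2 * τ) = 2 * τ := Real.mul_self_sqrt (by positivity)
  nlinarith

/-- the measure of a spherical cap -/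
theorem cap_measure (u : E3) (hu : ‖u‖ = 1) {τ : ℝ} (hτ : 0 < τ) :
    sg {w : S2 | 1 - ⟪u, (w : E3)⟫ < τ} ≤ ENNReal.ofReal (48 * τ) := by
  have hm : MeasurableSet {w : S2 | 1 - ⟪u, (w : E3)⟫ < τ} := by
    refine measurableSet_lt ?_ measurable_const
    exact (Continuous.measurable (by fun_prop))
  rw [Measure.toSphere_apply' _ hm]
  have hdim : Module.finrank ℝ E3 = 3 := by simp
  rw [hdim]
  have hsub : Ioo (0 : ℝ) 1 • ((↑) '' {w : S2 | 1 - ⟪u, (w : E3)⟫ < τ} : Set E3) ⊆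
      {y : E3 | |⟪u, y⟫| ≤ 1 ∧ ‖y‖ ^ 2 - ⟪u, y⟫ ^ 2 ≤ 2 * τ} := by
    rintro _ ⟨ρ, hρ, _, ⟨w, hw, rfl⟩, rfl⟩
    have hw1 : ‖(w : E3)‖ = 1 := by simpa using w.2
    have hc : |⟪u, (w : E3)⟫| ≤ 1 := by
      have := abs_real_inner_le_norm u (w : E3)
      rwa [hu, hw1, one_mul] at this
    have hw' : 1 - ⟪u, (w : E3)⟫ < τ := hw
    simp only
    refine ⟨?_, ?_⟩
    · change |⟪u, ρ • (w : E3)⟫| ≤ 1
      rw [inner_smul_right, abs_mul, abs_of_pos hρ.1]
      exact mul_le_one₀ hρ.2.le (abs_nonneg _) hc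
    · change ‖ρ • (w : E3)‖ ^ 2 - ⟪u, ρ • (w : E3)⟫ ^ 2 ≤ 2 * τ
      rw [inner_smul_right, norm_smul, hw1, Real.norm_eq_abs, abs_of_pos hρ.1, mul_one]
      have h1 := abs_le.1 hc
      have h2 : ρ ^ 2 ≤ 1 := by nlinarith [hρ.1, hρ.2]
      have h3 : (1 - ⟪u, (w : E3)⟫) * (1 + ⟪u, (w : E3)⟫) ≤ 2 * τ := by nlinarith [h1.1, h1.2]
      have h4 : 0 ≤ (1 - ⟪u, (w : E3)⟫) * (1 + ⟪u, (w : E3)⟫) :=
        mul_nonneg (by linarith [h1.2]) (by linarith [h1.1])
      nlinarith [sq_nonneg ρ]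
  calc (3 : ℕ) * volume (Ioo (0 : ℝ) 1 • ((↑) '' {w : S2 | 1 - ⟪u, (w : E3)⟫ < τ} : Set E3)) ≤
      (3 : ℕ) * ENNReal.ofReal (16 * τ) := by
        gcongr
        exact (measure_mono hsub).trans (box_measure u hu hτ)
    _ = ENNReal.ofReal (48 * τ) := by
        rw [← ENNReal.ofReal_natCast, ← ENNReal.ofReal_mul (by positivity)]
        congr 1; push_cast; ring

/-- the spherical kernel -/
def Bk (a : ℝ) (w w' : S2) : ℝ≥0∞ :=
  ENNReal.ofReal (1 - ⟪(w : E3), (w' : E3)⟫) ^ (-a) + ENNReal.ofReal (1 + ⟪(w : E3), (w' : E3)⟫) ^ (-a)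

/-- the radial kernel -/
def Ak (a : ℝ) (r s : ℝ) : ℝ≥0∞ := ENNReal.ofReal |r - s| ^ (-a)

theorem lt_rpow_neg {a t b : ℝ} (ha : 0 < a) (ht : 0 < t)
    (h : ENNReal.ofReal t < ENNReal.ofReal b ^ (-a)) : b < t ^ (-(1 / a)) := by
  by_contra hcon
  rw [not_lt] at hcon
  have hb : 0 < b := lt_of_lt_of_le (Real.rpow_pos_of_pos ht _) hcon
  rw [ENNReal.ofReal_rpow_of_pos hb, ENNReal.ofReal_lt_ofReal_iff (Real.rpow_pos_of_pos hb _)] at h
  have h2 : b ^ (-a) ≤ (t ^ (-(1 / a))) ^ (-a) :=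
    Real.rpow_le_rpow_of_nonpos (Real.rpow_pos_of_pos ht _) hcon (by linarith)
  rw [← Real.rpow_mul ht.le] at h2
  have : -(1 / a) * -a = 1 := by field_simp
  rw [this, Real.rpow_one] at h2
  linarith

theorem weak_sphere {a : ℝ} (ha : 0 < a) (u : E3) (hu : ‖u‖ = 1) {t : ℝ} (ht : 0 < t) :
    sg {w : S2 | ENNReal.ofReal t < ENNReal.ofReal (1 - ⟪u, (w : E3)⟫) ^ (-a)} ≤
      ENNReal.ofReal (48 * t ^ (-(1 / a))) :=
  (measure_mono (fun w hw => lt_rpow_neg ha ht hw)).trans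
    (cap_measure u hu (Real.rpow_pos_of_pos ht _))

theorem weak_radial {a : ℝ} (ha : 0 < a) (r : ℝ) {t : ℝ} (ht : 0 < t) :
    (volume.restrict (Ioi (0 : ℝ))) {s | ENNReal.ofReal t < Ak a r s} ≤
      ENNReal.ofReal (48 * t ^ (-(1 / a))) := by
  have h0 := Real.rpow_pos_of_pos ht (-(1 / a))
  have hsub : {s | ENNReal.ofReal t < Ak a r s} ⊆ Ioo (r - t ^ (-(1 / a))) (r + t ^ (-(1 / a))) := by
    intro s hs
    have h1 : |r - s| < t ^ (-(1 / a)) := lt_rpow_neg ha ht hs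
    rw [abs_lt] at h1
    exact ⟨by linarith [h1.1, h1.2], by linarith [h1.1, h1.2]⟩
  refine (Measure.restrict_apply_le _ _).trans ((measure_mono hsub).trans ?_)
  rw [Real.volume_Ioo]
  apply ENNReal.ofReal_le_ofReal
  linarith

theorem Ak_meas (a : ℝ) : Measurable (Function.uncurry (Ak a)) := by
  have h : Measurable fun z : ℝ × ℝ => |z.1 - z.2| := by fun_prop
  exact (h.ennreal_ofReal).pow_const _

theorem inner_meas : Measurable fun z : S2 × S2 => ⟪(z.1 : E3), (z.2 : E3)⟫ :=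
  Continuous.measurable (by fun_prop)

/-- bilinear estimate on the sphere -/
theorem BLE_sphere {p q a : ℝ} (hp : 1 < p) (hq : 1 < q) (ha : 0 < a) (ha1 : a < 1)
    (h : 1 / p + 1 / q + a = 2) : ∃ C : ℝ≥0, BLE p q sg sg (Bk a) C := by
  have hr : 1 < 1 / a := by rw [lt_div_iff₀ ha]; linarith
  obtain ⟨C, hC⟩ := BLE_weak hp hq hr (by rw [one_div_one_div]; exact h) (K := 48) (by norm_num)
  refine ⟨C + C, ?_⟩
  have h1 : BLE p q sg sg (fun w w' : S2 => ENNReal.ofReal (1 - ⟪(w : E3), (w' : E3)⟫) ^ (-a)) C := by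
    refine hC S2 S2 sg sg _ ?_ ?_ ?_
    · exact ((measurable_const.sub inner_meas).ennreal_ofReal).pow_const _
    · intro w t ht
      exact weak_sphere ha w (by simp) ht
    · intro w t ht
      have := weak_sphere ha (w : E3) (by simp) ht
      have e : ∀ x : S2, ⟪(w : E3), (x : E3)⟫ = ⟪(x : E3), (w : E3)⟫ := fun x => real_inner_comm _ _
      simp only [e] at this
      exact this
  have h2 : BLE p q sg sg (fun w w' : S2 => ENNReal.ofReal (1 + ⟪(w : E3), (w' : E3)⟫) ^ (-a)) C := by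
    refine hC S2 S2 sg sg _ ?_ ?_ ?_
    · exact ((measurable_const.add inner_meas).ennreal_ofReal).pow_const _
    · intro w t ht
      have := weak_sphere ha (-(w : E3)) (by simp) ht
      simp only [inner_neg_left, sub_neg_eq_add] at this
      exact this
    · intro w t ht
      have := weak_sphere ha (-(w : E3)) (by simp) ht
      have e : ∀ x : S2, ⟪(w : E3), (x : E3)⟫ = ⟪(x : E3), (w : E3)⟫ := fun x => real_inner_comm _ _
      simp only [inner_neg_left, sub_neg_eq_add, e] at this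
      exact this
  have h3 := BLE.add ((((measurable_const.sub inner_meas).ennreal_ofReal).pow_const _)) h1 h2
  rw [ENNReal.coe_add]
  exact h3

/-- bilinear estimate on the half-line -/
theorem BLE_radial {p q a : ℝ} (hp : 1 < p) (hq : 1 < q) (ha : 0 < a) (ha1 : a < 1)
    (h : 1 / p + 1 / q + a = 2) : ∃ C : ℝ≥0, BLE p q (volume.restrict (Ioi (0 : ℝ)))
      (volume.restrict (Ioi (0 : ℝ))) (Ak a) C := by
  have hr : 1 < 1 / a := by rw [lt_div_iff₀ ha]; linarith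
  obtain ⟨C, hC⟩ := BLE_weak hp hq hr (by rw [one_div_one_div]; exact h) (K := 48) (by norm_num)
  refine ⟨C, hC ℝ ℝ _ _ (Ak a) (Ak_meas a) (fun r t ht => weak_radial ha r ht) (fun s t ht => ?_)⟩
  have := weak_radial ha s ht
  simp only [Ak, abs_sub_comm s] at this
  exact this

/-! ### polar coordinates -/

theorem polar (F : E3 → ℝ≥0∞) (hF : Measurable F) :
    ∫⁻ x, F x = ∫⁻ w, ∫⁻ r in Ioi (0 : ℝ), ENNReal.ofReal (r ^ 2) * F (r • (w : E3)) ∂volume ∂sg := by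
  have h1 : ∫⁻ x, F x = ∫⁻ x : ({(0)}ᶜ : Set E3), F x ∂((volume : Measure E3).comap (↑)) := by
    rw [lintegral_subtype_comap (measurableSet_singleton _).compl, restrict_compl_singleton]
  have hdim : Module.finrank ℝ E3 - 1 = 2 := by simp
  have h2 := (volume : Measure E3).measurePreserving_homeomorphUnitSphereProd
  rw [hdim] at h2
  have h3 : ∀ x : ({(0)}ᶜ : Set E3), F x =
      (fun z : S2 × Ioi (0 : ℝ) => F (z.2.1 • (z.1 : E3))) (homeomorphUnitSphereProd E3 x) := by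
    intro x
    have hx : ‖(x : E3)‖ ≠ 0 := norm_ne_zero_iff.2 x.2
    simp [smul_smul, hx]
  have hmeas : Measurable fun z : S2 × Ioi (0 : ℝ) => F (z.2.1 • (z.1 : E3)) :=
    hF.comp (Continuous.measurable (by fun_prop))
  rw [h1]
  simp only [h3]
  rw [h2.lintegral_comp hmeas, lintegral_prod _ hmeas.aemeasurable]
  refine lintegral_congr fun w => ?_
  have hm2 : Measurable fun r : Ioi (0 : ℝ) => F (r.1 • (w : E3)) :=
    hmeas.comp measurable_prodMk_left
  change ∫⁻ r : Ioi (0 : ℝ), F (r.1 • (w : E3)) ∂(Measure.volumeIoiPow 2) = _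
  rw [Measure.volumeIoiPow, lintegral_withDensity_eq_lintegral_mul _ (by fun_prop) hm2]
  rw [← lintegral_subtype_comap measurableSet_Ioi]
  rfl

end Pool.Agent.H690.HK
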