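import Pool.Agent.H998.HK.Spec

/-! Task HLS of the project HK of helper998: the Hardy-Littlewood-Sobolev inequality for kernels of
weak type. -/

set_option autoImplicit false

noncomputable section

namespace Pool.Agent.H690.HK

open MeasureTheory Filter Topology Set
open scoped ENNReal NNReal

/-! ### two one-dimensional integrals -/

theorem int_low {a T : ℝ} (ha : -1 < a) (hT : 0 < T) :
    ∫⁻ t in Ioc (0 : ℝ) T, ENNReal.ofReal (t ^ a) = ENNReal.ofReal (T ^ (a + 1) / (a + 1)) := by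
  rw [← ofReal_integral_eq_lintegral_ofReal]
  · congr 1
    rw [← intervalIntegral.integral_of_le hT.le, integral_rpow (Or.inl ha), Real.zero_rpow (by linarith),
      sub_zero]
  · exact (intervalIntegrable_iff_integrableOn_Ioc_of_le hT.le).1
      (intervalIntegral.intervalIntegrable_rpow' ha)
  · refine (ae_restrict_mem measurableSet_Ioc).mono fun t ht => ?_
    exact Real.rpow_nonneg ht.1.le _

theorem int_high {a T : ℝ} (ha : a < -1) (hT : 0 < T) :
    ∫⁻ t in Ioi T, ENNReal.ofReal (t ^ a) = ENNReal.ofReal (T ^ (a + 1) / (-(a + 1))) := by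
  rw [← ofReal_integral_eq_lintegral_ofReal]
  · congr 1
    rw [integral_Ioi_rpow_of_lt ha hT]
    rw [div_neg, neg_div]
  · exact integrableOn_Ioi_rpow_of_lt ha hT
  · refine (ae_restrict_mem measurableSet_Ioi).mono fun t ht => ?_
    exact Real.rpow_nonneg (hT.trans ht).le _

/-- one-variable estimate -/
theorem ov {q r : ℝ} (hq : 1 < q) (hr : 1 < r) (hqr : 1 < 1 / q + 1 / r) :
    ∃ C : ℝ≥0, 0 < C ∧ ∀ (Y : Type) [MeasurableSpace Y] (ν : Measure Y) (n h : Y → ℝ≥0∞),
      Measurable n → Measurable h →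
      (∀ t : ℝ, 0 < t → ν {y | ENNReal.ofReal t < n y} ≤ ENNReal.ofReal (t ^ (-r))) →
      ∫⁻ y, h y ^ q ∂ν ≤ 1 → ∀ H : ℝ, 0 < H → (∀ y, h y ≤ ENNReal.ofReal H) →
      ∫⁻ y, h y * n y ∂ν ≤ C * ENNReal.ofReal (H ^ (1 - q * (1 - 1 / r))) := by
  have hq0 : 0 < q := by linarith
  have hr0 : 0 < r := by linarith
  have hs : r * (1 - 1 / q) < 1 := by
    have : 1 - 1 / q < 1 / r := by linarith
    calc r * (1 - 1 / q) < r * (1 / r) := by gcongr
      _ = 1 := by field_simp
  set s := r * (1 - 1 / q) with hs_def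
  have hs1 : 0 < 1 - s := by linarith
  have hr1 : 0 < r - 1 := by linarith
  refine ⟨⟨1 / (1 - s) + 1 / (r - 1), by positivity⟩, ?_, ?_⟩
  · rw [← NNReal.coe_pos]
    change 0 < 1 / (1 - s) + 1 / (r - 1)
    positivity
  intro Y _ ν n h hn hh hw hh1 H hH hhH
  -- `n` is finite almost everywhere
  have hfin : ∀ᵐ y ∂ν, n y < ∞ := by
    have h1 : ν {y | n y = ∞} = 0 := by
      refine le_antisymm ?_ zero_le
      have h2 : ∀ t : ℝ, 0 < t → ν {y | n y = ∞} ≤ ENNReal.ofReal (t ^ (-r)) := fun t ht =>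
        (measure_mono (fun y (hy : n y = ∞) => by
          change ENNReal.ofReal t < n y
          rw [hy]; exact ENNReal.ofReal_lt_top)).trans (hw t ht)
      have h3 : Tendsto (fun t : ℝ => ENNReal.ofReal (t ^ (-r))) atTop (𝓝 (ENNReal.ofReal 0)) :=
        (ENNReal.continuous_ofReal.tendsto 0).comp (tendsto_rpow_neg_atTop hr0)
      rw [ENNReal.ofReal_zero] at h3
      exact ge_of_tendsto h3 ((eventually_gt_atTop 0).mono fun t ht => h2 t ht)
    rw [ae_iff]
    simpa [not_lt, top_le_iff] using h1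
  set m : Y → ℝ := fun y => (n y).toReal with hm
  have hm0 : ∀ y, 0 ≤ m y := fun y => ENNReal.toReal_nonneg
  have hmm : Measurable m := hn.ennreal_toReal
  have h1 : ∫⁻ y, h y * n y ∂ν = ∫⁻ y, (h * fun y => ENNReal.ofReal (m y)) y ∂ν := by
    refine lintegral_congr_ae (hfin.mono fun y hy => ?_)
    change h y * n y = h y * ENNReal.ofReal (n y).toReal
    rw [ENNReal.ofReal_toReal hy.ne]
  rw [h1, ← lintegral_withDensity_eq_lintegral_mul ν hh hmm.ennreal_ofReal,
    lintegral_eq_lintegral_meas_lt _ (Eventually.of_forall hm0) hmm.aemeasurable]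
  -- the measure of the level sets
  have hlev : ∀ t : ℝ, 0 < t → (ν.withDensity h) {y | t < m y} ≤
      min (ENNReal.ofReal (t ^ (-s))) (ENNReal.ofReal H * ENNReal.ofReal (t ^ (-r))) := by
    intro t ht
    have hS : MeasurableSet {y | ENNReal.ofReal t < n y} := measurableSet_lt measurable_const hn
    have h2 : (ν.withDensity h) {y | t < m y} ≤ ∫⁻ y in {y | ENNReal.ofReal t < n y}, h y ∂ν := by
      rw [← withDensity_apply _ hS]
      refine measure_mono fun y hy => ?_
      change ENNReal.ofReal t < n y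
      have hy' : t < (n y).toReal := hy
      by_cases hy2 : n y = ∞
      · rw [hy2]; exact ENNReal.ofReal_lt_top
      · rw [← ENNReal.ofReal_toReal hy2]
        exact (ENNReal.ofReal_lt_ofReal_iff (ht.trans hy')).2 hy'
    refine h2.trans (le_min ?_ ?_)
    · -- Hoelder
      have hconj : q.HolderConjugate (q / (q - 1)) := Real.HolderConjugate.conjExponent hq
      have h3 := ENNReal.lintegral_mul_le_Lp_mul_Lq (ν.restrict {y | ENNReal.ofReal t < n y})
        hconj hh.aemeasurable (measurable_const (a := (1 : ℝ≥0∞))).aemeasurable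
      have h4 : ∫⁻ y in {y | ENNReal.ofReal t < n y}, (h * fun _ : Y => (1 : ℝ≥0∞)) y ∂ν =
          ∫⁻ y in {y | ENNReal.ofReal t < n y}, h y ∂ν :=
        lintegral_congr fun y => mul_one _
      rw [h4] at h3
      refine h3.trans ?_
      have h5 : (∫⁻ y in {y | ENNReal.ofReal t < n y}, h y ^ q ∂ν) ^ (1 / q) ≤ 1 := by
        refine ENNReal.rpow_le_one ?_ (by positivity)
        exact (setLIntegral_le_lintegral _ _).trans hh1
      have h6 : (∫⁻ y in {y | ENNReal.ofReal t < n y}, ((1 : ℝ≥0∞)) ^ (q / (q - 1)) ∂ν) ^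
          (1 / (q / (q - 1))) ≤ ENNReal.ofReal (t ^ (-s)) := by
        have h7 : 0 < q / (q - 1) := div_pos hq0 (by linarith)
        simp only [ENNReal.one_rpow, lintegral_const, one_mul]
        rw [Measure.restrict_apply_univ]
        calc _ ≤ (ENNReal.ofReal (t ^ (-r))) ^ (1 / (q / (q - 1))) :=
              ENNReal.rpow_le_rpow (hw t ht) (by positivity)
          _ = ENNReal.ofReal (t ^ (-s)) := by
            rw [ENNReal.ofReal_rpow_of_pos (Real.rpow_pos_of_pos ht _), ← Real.rpow_mul ht.le]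
            congr 2
            rw [hs_def]
            field_simp
      calc _ ≤ 1 * ENNReal.ofReal (t ^ (-s)) := mul_le_mul' h5 h6
        _ = _ := one_mul _
    · calc ∫⁻ y in {y | ENNReal.ofReal t < n y}, h y ∂ν ≤
          ∫⁻ y in {y | ENNReal.ofReal t < n y}, ENNReal.ofReal H ∂ν := lintegral_mono fun y => hhH y
        _ = ENNReal.ofReal H * ν {y | ENNReal.ofReal t < n y} := by
            rw [lintegral_const, Measure.restrict_apply_univ]
        _ ≤ _ := by gcongr; exact hw t ht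
  set T : ℝ := H ^ (q / r) with hT
  have hT0 : 0 < T := Real.rpow_pos_of_pos hH _
  have hU : Ioi (0 : ℝ) = Ioc 0 T ∪ Ioi T := (Ioc_union_Ioi_eq_Ioi hT0.le).symm
  rw [hU]
  refine (lintegral_union_le _ _ _).trans ?_
  have h8 : ∫⁻ t in Ioc 0 T, (ν.withDensity h) {y | t < m y} ≤
      ENNReal.ofReal (T ^ (-s + 1) / (-s + 1)) := by
    rw [← int_low (by linarith) hT0]
    refine setLIntegral_mono' measurableSet_Ioc fun t ht => ?_
    exact (hlev t ht.1).trans (min_le_left _ _)
  have h9 : ∫⁻ t in Ioi T, (ν.withDensity h) {y | t < m y} ≤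
      ENNReal.ofReal H * ENNReal.ofReal (T ^ (-r + 1) / (-(-r + 1))) := by
    rw [← int_high (by linarith) hT0, ← lintegral_const_mul']
    · refine setLIntegral_mono' measurableSet_Ioi fun t ht => ?_
      exact (hlev t (hT0.trans ht)).trans (min_le_right _ _)
    · exact ENNReal.ofReal_ne_top
  refine (add_le_add h8 h9).trans (le_of_eq ?_)
  have e1 : T ^ (-s + 1) = H ^ (1 - q * (1 - 1 / r)) := by
    rw [hT, ← Real.rpow_mul hH.le]
    congr 1
    rw [hs_def]; field_simp; ring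
  have e2 : H * T ^ (-r + 1) = H ^ (1 - q * (1 - 1 / r)) := by
    rw [hT, ← Real.rpow_mul hH.le]
    nth_rewrite 1 [← Real.rpow_one H]
    rw [← Real.rpow_add hH]
    congr 1
    field_simp; ring
  rw [← ENNReal.ofReal_mul hH.le, ← mul_div_assoc, e2, e1, ← ENNReal.ofReal_add (by
    apply div_nonneg (Real.rpow_nonneg hH.le _); linarith) (by
    apply div_nonneg (Real.rpow_nonneg hH.le _); linarith)]
  rw [ENNReal.coe_nnreal_eq, ← ENNReal.ofReal_mul (by exact NNReal.coe_nonneg _)]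
  congr 1
  change _ = (1 / (1 - s) + 1 / (r - 1)) * _
  rw [show -s + 1 = 1 - s by ring, show -(-r + 1) = r - 1 by ring]
  field_simp

/-- one half of the double integral -/
theorem half {p q r : ℝ} (hp : 1 < p) (hq : 1 < q) (hr : 1 < r) (hpqr : 1 / p + 1 / q + 1 / r = 2) :
    ∃ C : ℝ≥0, 0 < C ∧ ∀ (X Y : Type) [MeasurableSpace X] [MeasurableSpace Y] (μ : Measure X)
      (ν : Measure Y) [SigmaFinite μ] [SigmaFinite ν] (N : X → Y → ℝ≥0∞),
      Measurable (Function.uncurry N) →
      (∀ x (t : ℝ), 0 < t → ν {y | ENNReal.ofReal t < N x y} ≤ ENNReal.ofReal (t ^ (-r))) →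
      ∀ (f : X → ℝ≥0∞) (g : Y → ℝ≥0∞), Measurable f → Measurable g → ∫⁻ y, g y ^ q ∂ν ≤ 1 →
      ∫⁻ x, ∫⁻ y, (if g y ^ q ≤ f x ^ p then f x * N x y * g y else 0) ∂ν ∂μ ≤
        C * ∫⁻ x, f x ^ p ∂μ := by
  have hp0 : 0 < p := by linarith
  have hq0 : 0 < q := by linarith
  have hp1 : 1 / p < 1 := by rw [div_lt_one hp0]; exact hp
  obtain ⟨C, hC, h⟩ := ov hq hr (by linarith)
  refine ⟨C, hC, ?_⟩
  intro X Y _ _ μ ν _ _ N hN hw f g hf hg hg1
  rw [← lintegral_const_mul' _ _ ENNReal.coe_ne_top]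
  refine lintegral_mono fun x => ?_
  change ∫⁻ y, (if g y ^ q ≤ f x ^ p then f x * N x y * g y else 0) ∂ν ≤ C * f x ^ p
  have hNx : Measurable (N x) := hN.comp measurable_prodMk_left
  by_cases hx0 : f x = 0
  · have : ∀ y, (if g y ^ q ≤ f x ^ p then f x * N x y * g y else 0) = 0 := by
      intro y; rw [hx0]; simp
    simp only [this, lintegral_zero]
    exact zero_le
  by_cases hxt : f x = ∞
  · rw [hxt, ENNReal.top_rpow_of_pos hp0, ENNReal.mul_top (by exact_mod_cast hC.ne')]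
    exact le_top
  set F : ℝ := (f x).toReal with hF
  have hF0 : 0 < F := ENNReal.toReal_pos hx0 hxt
  have hfF : f x = ENNReal.ofReal F := (ENNReal.ofReal_toReal hxt).symm
  set H : ℝ := F ^ (p / q) with hH
  have hH0 : 0 < H := Real.rpow_pos_of_pos hF0 _
  set k : Y → ℝ≥0∞ := fun y => if g y ^ q ≤ f x ^ p then g y else 0 with hk
  have hkm : Measurable k := by
    refine Measurable.ite ?_ hg measurable_const
    exact measurableSet_le (hg.pow_const _) measurable_const
  have hk1 : ∫⁻ y, k y ^ q ∂ν ≤ 1 := by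
    refine le_trans (lintegral_mono fun y => ?_) hg1
    change (if g y ^ q ≤ f x ^ p then g y else 0) ^ q ≤ g y ^ q
    split_ifs
    · exact le_rfl
    · rw [ENNReal.zero_rpow_of_pos hq0]; exact zero_le
  have hkH : ∀ y, k y ≤ ENNReal.ofReal H := by
    intro y
    change (if g y ^ q ≤ f x ^ p then g y else 0) ≤ ENNReal.ofReal H
    split_ifs with hy
    · have h1 := ENNReal.rpow_le_rpow hy (z := 1 / q) (by positivity)
      rw [← ENNReal.rpow_mul, ← ENNReal.rpow_mul, mul_one_div_cancel hq0.ne', ENNReal.rpow_one, hfF,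
        ENNReal.ofReal_rpow_of_pos hF0] at h1
      rw [hH, div_eq_mul_one_div]
      exact h1
    · exact zero_le
  have h1 := h Y ν (N x) k hNx hkm (hw x) hk1 H hH0 hkH
  calc ∫⁻ y, (if g y ^ q ≤ f x ^ p then f x * N x y * g y else 0) ∂ν
      = ∫⁻ y, f x * (k y * N x y) ∂ν := by
        refine lintegral_congr fun y => ?_
        change _ = f x * ((if g y ^ q ≤ f x ^ p then g y else 0) * N x y)
        split_ifs
        · ring
        · simp
    _ = f x * ∫⁻ y, k y * N x y ∂ν := lintegral_const_mul' _ _ hxt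
    _ ≤ f x * (C * ENNReal.ofReal (H ^ (1 - q * (1 - 1 / r)))) := by gcongr
    _ = C * f x ^ p := by
        rw [hfF, mul_left_comm, ← ENNReal.ofReal_mul hF0.le, ENNReal.ofReal_rpow_of_pos hF0]
        congr 2
        rw [hH, ← Real.rpow_mul hF0.le]
        nth_rewrite 1 [← Real.rpow_one F]
        rw [← Real.rpow_add hF0]
        congr 1
        have h2 : 1 / r = 2 - 1 / p - 1 / q := by linarith
        rw [h2]
        field_simp
        ring

/-- the normalised inequality -/
theorem normalised {p q r : ℝ} (hp : 1 < p) (hq : 1 < q) (hr : 1 < r)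
    (hpqr : 1 / p + 1 / q + 1 / r = 2) :
    ∃ C : ℝ≥0, 0 < C ∧ ∀ (X Y : Type) [MeasurableSpace X] [MeasurableSpace Y] (μ : Measure X)
      (ν : Measure Y) [SigmaFinite μ] [SigmaFinite ν] (N : X → Y → ℝ≥0∞),
      Measurable (Function.uncurry N) →
      (∀ x (t : ℝ), 0 < t → ν {y | ENNReal.ofReal t < N x y} ≤ ENNReal.ofReal (t ^ (-r))) →
      (∀ y (t : ℝ), 0 < t → μ {x | ENNReal.ofReal t < N x y} ≤ ENNReal.ofReal (t ^ (-r))) →
      ∀ (f : X → ℝ≥0∞) (g : Y → ℝ≥0∞), Measurable f → Measurable g → ∫⁻ x, f x ^ p ∂μ ≤ 1 →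
      ∫⁻ y, g y ^ q ∂ν ≤ 1 → ∫⁻ x, ∫⁻ y, f x * N x y * g y ∂ν ∂μ ≤ C := by
  obtain ⟨C1, hC1, h1⟩ := half hp hq hr hpqr
  obtain ⟨C2, hC2, h2⟩ := half hq hp hr (by linarith)
  refine ⟨C1 + C2, by positivity, ?_⟩
  intro X Y _ _ μ ν _ _ N hN hw hw' f g hf hg hf1 hg1
  have hfx : Measurable fun z : X × Y => f z.1 := hf.comp measurable_fst
  have hgy : Measurable fun z : X × Y => g z.2 := hg.comp measurable_snd
  have hF : Measurable fun z : X × Y => f z.1 * N z.1 z.2 * g z.2 := (hfx.mul hN).mul hgy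
  have hA : Measurable fun z : X × Y =>
      if g z.2 ^ q ≤ f z.1 ^ p then f z.1 * N z.1 z.2 * g z.2 else 0 :=
    Measurable.ite (measurableSet_le (hgy.pow_const _) (hfx.pow_const _)) hF measurable_const
  have hB : Measurable fun z : X × Y =>
      if f z.1 ^ p ≤ g z.2 ^ q then g z.2 * N z.1 z.2 * f z.1 else 0 :=
    Measurable.ite (measurableSet_le (hfx.pow_const _) (hgy.pow_const _))
      ((hgy.mul hN).mul hfx) measurable_const
  have h3 := h1 X Y μ ν N hN hw f g hf hg hg1
  have h4 := h2 Y X ν μ (fun y x => N x y) (hN.comp measurable_swap) hw' g f hg hf hf1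
  have h5 : ∫⁻ y, ∫⁻ x, (if f x ^ p ≤ g y ^ q then g y * N x y * f x else 0) ∂μ ∂ν =
      ∫⁻ x, ∫⁻ y, (if f x ^ p ≤ g y ^ q then g y * N x y * f x else 0) ∂ν ∂μ :=
    lintegral_lintegral_swap (hB.comp measurable_swap).aemeasurable
  rw [h5] at h4
  calc ∫⁻ x, ∫⁻ y, f x * N x y * g y ∂ν ∂μ ≤
      ∫⁻ x, ∫⁻ y, ((if g y ^ q ≤ f x ^ p then f x * N x y * g y else 0) +
        (if f x ^ p ≤ g y ^ q then g y * N x y * f x else 0)) ∂ν ∂μ := by
        refine lintegral_mono fun x => lintegral_mono fun y => ?_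
        change f x * N x y * g y ≤ (if g y ^ q ≤ f x ^ p then f x * N x y * g y else 0) +
          (if f x ^ p ≤ g y ^ q then g y * N x y * f x else 0)
        rcases le_total (g y ^ q) (f x ^ p) with h | h
        · rw [if_pos h]; exact le_self_add
        · rw [if_pos h]
          have : f x * N x y * g y = g y * N x y * f x := by ring
          rw [this]
          exact le_add_self
    _ = ∫⁻ x, ∫⁻ y, (if g y ^ q ≤ f x ^ p then f x * N x y * g y else 0) ∂ν ∂μ +
        ∫⁻ x, ∫⁻ y, (if f x ^ p ≤ g y ^ q then g y * N x y * f x else 0) ∂ν ∂μ := by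
        rw [← lintegral_add_left hA.lintegral_prod_right']
        refine lintegral_congr fun x => ?_
        exact lintegral_add_left (hA.comp measurable_prodMk_left) _
    _ ≤ C1 * 1 + C2 * 1 := by
        refine add_le_add (h3.trans ?_) (h4.trans ?_)
        · gcongr
        · gcongr
    _ = _ := by simp

/-- the Hardy-Littlewood-Sobolev inequality -/
theorem t_HLS : Pool.Agent.H998.HK.S_HLS := by
  intro p q r hp hq hr hpqr
  have hp0 : 0 < p := by linarith
  have hq0 : 0 < q := by linarith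
  obtain ⟨C, hC, h⟩ := normalised hp hq hr hpqr
  refine ⟨C, ?_⟩
  intro X Y _ _ μ ν _ _ N hN hw hw' f g hf hg
  set A := ∫⁻ x, f x ^ p ∂μ with hA
  set B := ∫⁻ y, g y ^ q ∂ν with hB
  by_cases hA0 : A = 0
  · have h1 : f =ᵐ[μ] 0 := by
      have := (lintegral_eq_zero_iff (hf.pow_const p)).1 hA0
      refine this.mono fun x hx => ?_
      exact (ENNReal.rpow_eq_zero_iff_of_pos hp0).1 hx
    have h2 : ∫⁻ x, ∫⁻ y, f x * N x y * g y ∂ν ∂μ = 0 := by
      refine (lintegral_congr_ae (h1.mono fun x hx => ?_)).trans lintegral_zero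
      have hx' : f x = 0 := hx
      simp [hx']
    rw [h2]; exact zero_le
  by_cases hB0 : B = 0
  · have h1 : g =ᵐ[ν] 0 := by
      have := (lintegral_eq_zero_iff (hg.pow_const q)).1 hB0
      refine this.mono fun x hx => ?_
      exact (ENNReal.rpow_eq_zero_iff_of_pos hq0).1 hx
    have h2 : ∫⁻ x, ∫⁻ y, f x * N x y * g y ∂ν ∂μ = 0 := by
      refine (lintegral_congr fun x => ?_).trans lintegral_zero
      refine (lintegral_congr_ae (h1.mono fun y hy => ?_)).trans lintegral_zero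
      have hy' : g y = 0 := hy
      change f x * N x y * g y = 0
      rw [hy', mul_zero]
    rw [h2]; exact zero_le
  have hA' : A ^ (1 / p) ≠ 0 := by
    rw [Ne, ENNReal.rpow_eq_zero_iff_of_pos (by positivity)]; exact hA0
  have hB' : B ^ (1 / q) ≠ 0 := by
    rw [Ne, ENNReal.rpow_eq_zero_iff_of_pos (by positivity)]; exact hB0
  have hC' : (C : ℝ≥0∞) ≠ 0 := by exact_mod_cast hC.ne'
  by_cases hAt : A = ∞
  · have : A ^ (1 / p) = ∞ := by rw [hAt]; exact ENNReal.top_rpow_of_pos (by positivity)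
    rw [this, ENNReal.mul_top hC', ENNReal.top_mul hB']
    exact le_top
  by_cases hBt : B = ∞
  · have : B ^ (1 / q) = ∞ := by rw [hBt]; exact ENNReal.top_rpow_of_pos (by positivity)
    rw [this, ENNReal.mul_top (mul_ne_zero hC' hA')]
    exact le_top
  set a := A ^ (1 / p) with ha
  set b := B ^ (1 / q) with hb
  have hat : a ≠ ∞ := ENNReal.rpow_ne_top_of_nonneg (by positivity) hAt
  have hbt : b ≠ ∞ := ENNReal.rpow_ne_top_of_nonneg (by positivity) hBt
  have hap : a ^ p = A := by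
    rw [ha, ← ENNReal.rpow_mul, one_div_mul_cancel hp0.ne', ENNReal.rpow_one]
  have hbq : b ^ q = B := by
    rw [hb, ← ENNReal.rpow_mul, one_div_mul_cancel hq0.ne', ENNReal.rpow_one]
  have hf1 : ∫⁻ x, (a⁻¹ * f x) ^ p ∂μ ≤ 1 := by
    have : ∀ x, (a⁻¹ * f x) ^ p = (a ^ p)⁻¹ * f x ^ p := fun x => by
      rw [ENNReal.mul_rpow_of_nonneg _ _ hp0.le, ENNReal.inv_rpow]
    simp only [this]
    rw [lintegral_const_mul _ (hf.pow_const p), hap]
    exact (ENNReal.inv_mul_cancel hA0 hAt).le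
  have hg1 : ∫⁻ y, (b⁻¹ * g y) ^ q ∂ν ≤ 1 := by
    have : ∀ y, (b⁻¹ * g y) ^ q = (b ^ q)⁻¹ * g y ^ q := fun y => by
      rw [ENNReal.mul_rpow_of_nonneg _ _ hq0.le, ENNReal.inv_rpow]
    simp only [this]
    rw [lintegral_const_mul _ (hg.pow_const q), hbq]
    exact (ENNReal.inv_mul_cancel hB0 hBt).le
  have h1 := h X Y μ ν N hN hw hw' (fun x => a⁻¹ * f x) (fun y => b⁻¹ * g y)
    (hf.const_mul _) (hg.const_mul _) hf1 hg1
  have hfx : Measurable fun z : X × Y => f z.1 := hf.comp measurable_fst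
  have hgy : Measurable fun z : X × Y => g z.2 := hg.comp measurable_snd
  have hF : Measurable fun z : X × Y => a⁻¹ * f z.1 * N z.1 z.2 * (b⁻¹ * g z.2) :=
    (((hfx.const_mul _)).mul hN).mul (hgy.const_mul _)
  calc ∫⁻ x, ∫⁻ y, f x * N x y * g y ∂ν ∂μ =
      ∫⁻ x, ∫⁻ y, (a * b) * (a⁻¹ * f x * N x y * (b⁻¹ * g y)) ∂ν ∂μ := by
        refine lintegral_congr fun x => lintegral_congr fun y => ?_
        have h2 : a * a⁻¹ = 1 := ENNReal.mul_inv_cancel hA' hat
        have h3 : b * b⁻¹ = 1 := ENNReal.mul_inv_cancel hB' hbt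
        calc f x * N x y * g y = (a * a⁻¹) * (b * b⁻¹) * (f x * N x y * g y) := by
              rw [h2, h3, one_mul, one_mul]
          _ = _ := by ring
    _ = (a * b) * ∫⁻ x, ∫⁻ y, (a⁻¹ * f x * N x y * (b⁻¹ * g y)) ∂ν ∂μ := by
        rw [← lintegral_const_mul' _ _ (ENNReal.mul_ne_top hat hbt)]
        refine lintegral_congr fun x => ?_
        rw [lintegral_const_mul' _ _ (ENNReal.mul_ne_top hat hbt)]
    _ ≤ (a * b) * C := by gcongr
    _ = C * a * b := by ring

end Pool.Agent.H690.HK
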