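import Pool.Agent.H998.HK.Spec2

/-! Task SPLIT of the project HK of helper998, part A: mollification. -/

set_option autoImplicit false
set_option linter.unusedSectionVars false

noncomputable section

namespace Pool.Agent.H690.HK

open MeasureTheory Filter Topology Set ContinuousLinearMap
open scoped ENNReal NNReal Convolution

open Pool.Agent.H998.HK

section moll

variable {X : Type} [NormedAddCommGroup X] [NormedSpace ℝ X] [FiniteDimensional ℝ X]
  [MeasureSpace X] [BorelSpace X] [(volume : Measure X).IsAddHaarMeasure]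
variable {F : Type} [NormedAddCommGroup F] [NormedSpace ℝ F] [CompleteSpace F]

variable (X) in
/-- bump functions -/
def bp (k : ℕ) : ContDiffBump (0 : X) where
  rIn := 1 / (2 * ((k : ℝ) + 1))
  rOut := 1 / ((k : ℝ) + 1)
  rIn_pos := by positivity
  rIn_lt_rOut := by
    apply one_div_lt_one_div_of_lt (by positivity)
    have : (0 : ℝ) < (k : ℝ) + 1 := by positivity
    linarith

theorem bp_rOut (k : ℕ) : (bp X k).rOut = 1 / ((k : ℝ) + 1) := rfl

/-- the mollifier -/
def rho (k : ℕ) : X → ℝ := (bp X k).normed volume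

theorem rho_test (k : ℕ) : Test (rho (X := X) k) :=
  ⟨(bp X k).contDiff_normed, (bp X k).hasCompactSupport_normed⟩

theorem rho_nonneg (k : ℕ) (x : X) : 0 ≤ rho k x := (bp X k).nonneg_normed x

theorem rho_integral (k : ℕ) : ∫ x : X, rho k x = 1 := (bp X k).integral_normed

theorem rho_cont (k : ℕ) : Continuous (rho (X := X) k) := (rho_test k).1.continuous

theorem rho_integrable (k : ℕ) : Integrable (rho (X := X) k) :=
  (rho_cont k).integrable_of_hasCompactSupport (rho_test k).2

/-- mollification -/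
def mol (k : ℕ) (u : X → F) : X → F := fun x => ∫ t, rho k t • u (x - t)

theorem mol_eq (k : ℕ) (u : X → F) :
    mol k u = (bp X k).normed volume ⋆[lsmul ℝ ℝ, volume] u := rfl

theorem mol_congr (k : ℕ) {u v : X → F} (h : u =ᵐ[volume] v) : mol k u = mol k v := by
  funext x
  refine integral_congr_ae ?_
  have h1 : (fun t => u (x - t)) =ᵐ[volume] fun t => v (x - t) :=
    (quasiMeasurePreserving_sub_left (volume : Measure X) x).ae_eq_comp h
  filter_upwards [h1] with t ht
  rw [ht]

theorem mol_contDiff (k : ℕ) {u : X → F} (hu : LocallyIntegrable u) :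
    ContDiff ℝ ((⊤ : ℕ∞) : WithTop ℕ∞) (mol k u) :=
  (rho_test (X := X) k).2.contDiff_convolution_left (lsmul ℝ ℝ) (rho_test k).1 hu

theorem mol_integrable_aux (k : ℕ) {u : X → F} (hu : LocallyIntegrable u) (x : X) :
    Integrable fun t => rho k t • u (x - t) :=
  (rho_test (X := X) k).2.convolutionExists_left (lsmul ℝ ℝ) (rho_cont k) hu x

theorem mol_sub (k : ℕ) {u v : X → F} (hu : LocallyIntegrable u) (hv : LocallyIntegrable v) :
    mol k (u - v) = mol k u - mol k v := by
  funext x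
  change ∫ t, rho k t • (u (x - t) - v (x - t)) = (∫ t, rho k t • u (x - t)) -
    ∫ t, rho k t • v (x - t)
  rw [← integral_sub (mol_integrable_aux k hu x) (mol_integrable_aux k hv x)]
  refine integral_congr_ae (Eventually.of_forall fun t => ?_)
  simp only [smul_sub]

theorem lintegral_rho (k : ℕ) : ∫⁻ t : X, ENNReal.ofReal (rho k t) = 1 := by
  rw [← ofReal_integral_eq_lintegral_ofReal (rho_integrable k)
    (Eventually.of_forall (rho_nonneg k)), rho_integral, ENNReal.ofReal_one]

/-- Jensen -/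
theorem jensen {r : ℝ} (hr : 1 ≤ r) {Y : Type} [MeasurableSpace Y] (P : Measure Y)
    (hP : P univ = 1) (f : Y → ℝ≥0∞) (hf : AEMeasurable f P) :
    (∫⁻ t, f t ∂P) ^ r ≤ ∫⁻ t, f t ^ r ∂P := by
  rcases eq_or_lt_of_le hr with h | h
  · rw [← h]; simp
  have hconj : r.HolderConjugate (r / (r - 1)) := Real.HolderConjugate.conjExponent h
  have h1 := ENNReal.lintegral_mul_le_Lp_mul_Lq P hconj hf
    (measurable_const (a := (1 : ℝ≥0∞))).aemeasurable
  have h2 : ∫⁻ y, (f * fun _ : Y => (1 : ℝ≥0∞)) y ∂P = ∫⁻ y, f y ∂P :=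
    lintegral_congr fun y => mul_one _
  rw [h2] at h1
  simp only [ENNReal.one_rpow, lintegral_const, hP, mul_one] at h1
  have hr0 : 0 < r := by linarith
  calc (∫⁻ t, f t ∂P) ^ r ≤ ((∫⁻ t, f t ^ r ∂P) ^ (1 / r)) ^ r :=
        ENNReal.rpow_le_rpow h1 hr0.le
    _ = _ := by rw [← ENNReal.rpow_mul, one_div_mul_cancel hr0.ne', ENNReal.rpow_one]

theorem mol_le {p : ℝ≥0∞} (hp1 : 1 ≤ p) (hp : p ≠ ∞) (k : ℕ) {u : X → F}
    (hu : AEStronglyMeasurable u volume) : eLpNorm (mol k u) p volume ≤ eLpNorm u p volume := by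
  -- strongly measurable representative
  wlog hus : StronglyMeasurable u generalizing u
  · have h1 := this hu.stronglyMeasurable_mk.aestronglyMeasurable hu.stronglyMeasurable_mk
    rw [mol_congr k hu.ae_eq_mk, eLpNorm_congr_ae hu.ae_eq_mk]
    exact h1
  have hp0 : p ≠ 0 := (zero_lt_one.trans_le hp1).ne'
  set r := p.toReal with hr
  have hr1 : 1 ≤ r := by
    rw [hr, ← ENNReal.toReal_one]
    exact (ENNReal.toReal_le_toReal ENNReal.one_ne_top hp).2 hp1
  have hr0 : 0 < r := by linarith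
  rw [eLpNorm_eq_lintegral_rpow_enorm_toReal hp0 hp, eLpNorm_eq_lintegral_rpow_enorm_toReal hp0 hp]
  refine ENNReal.rpow_le_rpow ?_ (by positivity)
  change ∫⁻ x, ‖mol k u x‖ₑ ^ r ≤ ∫⁻ x, ‖u x‖ₑ ^ r
  set P : Measure X := (volume : Measure X).withDensity (fun t => ENNReal.ofReal (rho k t)) with hPdef
  have hρm : Measurable fun t : X => ENNReal.ofReal (rho k t) :=
    (rho_cont k).measurable.ennreal_ofReal
  have hP : P univ = 1 := by
    rw [hPdef, withDensity_apply _ MeasurableSet.univ, Measure.restrict_univ, lintegral_rho]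
  have hum : ∀ x, Measurable fun t : X => ‖u (x - t)‖ₑ := fun x =>
    (hus.comp_measurable (measurable_const.sub measurable_id)).enorm
  have hum2 : Measurable fun z : X × X => ‖u (z.1 - z.2)‖ₑ :=
    (hus.comp_measurable (measurable_fst.sub measurable_snd)).enorm
  have hpt : ∀ x, ‖mol k u x‖ₑ ^ r ≤ ∫⁻ t, ENNReal.ofReal (rho k t) * ‖u (x - t)‖ₑ ^ r := by
    intro x
    have h1 : ‖mol k u x‖ₑ ≤ ∫⁻ t, ‖u (x - t)‖ₑ ∂P := by
      rw [hPdef, lintegral_withDensity_eq_lintegral_mul _ hρm (hum x)]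
      refine (enorm_integral_le_lintegral_enorm _).trans (le_of_eq ?_)
      refine lintegral_congr fun t => ?_
      rw [enorm_smul, Pi.mul_apply, Real.enorm_of_nonneg (rho_nonneg k t)]
    calc ‖mol k u x‖ₑ ^ r ≤ (∫⁻ t, ‖u (x - t)‖ₑ ∂P) ^ r := ENNReal.rpow_le_rpow h1 hr0.le
      _ ≤ ∫⁻ t, ‖u (x - t)‖ₑ ^ r ∂P := jensen hr1 P hP _ (hum x).aemeasurable
      _ = _ := by
          rw [hPdef, lintegral_withDensity_eq_lintegral_mul _ hρm ((hum x).pow_const r)]
          rfl
  calc ∫⁻ x, ‖mol k u x‖ₑ ^ r ≤ ∫⁻ x, ∫⁻ t, ENNReal.ofReal (rho k t) * ‖u (x - t)‖ₑ ^ r :=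
        lintegral_mono hpt
    _ = ∫⁻ t, ∫⁻ x, ENNReal.ofReal (rho k t) * ‖u (x - t)‖ₑ ^ r := by
        refine lintegral_lintegral_swap ?_
        exact ((hρm.comp measurable_snd).mul (hum2.pow_const r)).aemeasurable
    _ = ∫⁻ t, ENNReal.ofReal (rho k t) * ∫⁻ x, ‖u x‖ₑ ^ r := by
        refine lintegral_congr fun t => ?_
        rw [lintegral_const_mul' _ _ ENNReal.ofReal_ne_top]
        congr 1
        exact lintegral_sub_right_eq_self (fun x => ‖u x‖ₑ ^ r) t
    _ = ∫⁻ x, ‖u x‖ₑ ^ r := by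
        rw [lintegral_mul_const _ hρm, lintegral_rho, one_mul]

theorem mol_tendsto {p : ℝ≥0∞} (hp1 : 1 ≤ p) (hp : p ≠ ∞) {u : X → F} (hu : MemLp u p volume) :
    Tendsto (fun k => eLpNorm (mol k u - u) p volume) atTop (𝓝 0) := by
  have hul : LocallyIntegrable u := hu.locallyIntegrable hp1
  rw [ENNReal.tendsto_nhds_zero]
  intro ε hε
  have hε3 : ε / 3 ≠ 0 := (ENNReal.div_pos hε.ne' (by norm_num)).ne'
  obtain ⟨v, hvc, hv1, hv2, hv3⟩ := hu.exists_hasCompactSupport_eLpNorm_sub_le hp hε3
  have hvl : LocallyIntegrable v := hv2.locallyIntegrable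
  -- uniform convergence for `v`
  set K := Metric.cthickening 1 (tsupport v) with hK
  have hKc : IsCompact K := hvc.isCompact.cthickening
  have hKm : volume K ≠ ∞ := hKc.measure_lt_top.ne
  have hp0 : p ≠ 0 := (zero_lt_one.trans_le hp1).ne'
  obtain ⟨η, hη, hη2⟩ : ∃ η : ℝ, 0 < η ∧ ENNReal.ofReal η * volume K ^ (1 / p.toReal) ≤ ε / 3 := by
    by_cases h0 : volume K ^ (1 / p.toReal) = 0
    · exact ⟨1, one_pos, by rw [h0, mul_zero]; exact zero_le⟩
    have hKt : volume K ^ (1 / p.toReal) ≠ ∞ := ENNReal.rpow_ne_top_of_nonneg (by positivity) hKm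
    by_cases hεt : ε / 3 = ∞
    · exact ⟨1, one_pos, by rw [hεt]; exact le_top⟩
    have h1 : 0 < ε / 3 / volume K ^ (1 / p.toReal) := ENNReal.div_pos hε3 hKt
    have h2 : ε / 3 / volume K ^ (1 / p.toReal) ≠ ∞ := ENNReal.div_ne_top hεt h0
    refine ⟨(ε / 3 / volume K ^ (1 / p.toReal)).toReal, ENNReal.toReal_pos h1.ne' h2, ?_⟩
    rw [ENNReal.ofReal_toReal h2, ENNReal.div_mul_cancel h0 hKt]
  obtain ⟨δ, hδ, hδ2⟩ := Metric.uniformContinuous_iff.1 (hvc.uniformContinuous_of_continuous hv2) η hη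
  have hev : ∀ᶠ k : ℕ in atTop, 1 / ((k : ℝ) + 1) < min δ 1 :=
    (tendsto_one_div_add_atTop_nhds_zero_nat).eventually (gt_mem_nhds (by positivity))
  filter_upwards [hev] with k hk
  have hvk : eLpNorm (mol k v - v) p volume ≤ ε / 3 := by
    have hz : ∀ x, x ∉ K → mol k v x = v x := by
      intro x hx
      have hd : ∀ y ∈ Metric.ball x (bp X k).rOut, v y = v x := by
        intro y hy
        rw [Metric.mem_ball, bp_rOut] at hy
        have h1 : ∀ y, dist y x < 1 → v y = 0 := by
          intro y hy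
          by_contra hcon
          apply hx
          have : y ∈ tsupport v := subset_tsupport v hcon
          refine Metric.mem_cthickening_of_dist_le x y 1 _ this ?_
          rw [dist_comm]; exact hy.le
        rw [h1 y (hy.trans (hk.trans_le (min_le_right _ _))), h1 x (by simp)]
      exact (bp X k).normed_convolution_eq_right hd
    have hb : ∀ x, ‖(mol k v - v) x‖ ≤ η := by
      intro x
      rw [Pi.sub_apply, ← dist_eq_norm]
      refine ContDiffBump.dist_normed_convolution_le hv2.aestronglyMeasurable fun y hy => ?_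
      rw [Metric.mem_ball, bp_rOut] at hy
      exact (hδ2 (hy.trans (hk.trans_le (min_le_left _ _)))).le
    have h3 : mol k v - v = K.indicator (mol k v - v) := by
      funext x
      by_cases hx : x ∈ K
      · rw [indicator_of_mem hx]
      · rw [indicator_of_notMem hx, Pi.sub_apply, hz x hx, sub_self]
    rw [h3, eLpNorm_indicator_eq_eLpNorm_restrict hKc.measurableSet]
    refine (eLpNorm_le_of_ae_bound (C := η) (Eventually.of_forall hb)).trans ?_
    rw [Measure.restrict_apply_univ, mul_comm, ← one_div]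
    exact hη2
  have hd : mol k u - u = (mol k (u - v) + (mol k v - v)) - (u - v) := by
    rw [mol_sub k hul hvl]; abel
  rw [hd]
  have m1 : AEStronglyMeasurable (mol k (u - v)) volume :=
    (mol_contDiff k (hul.sub hvl)).continuous.aestronglyMeasurable
  have m2 : AEStronglyMeasurable (mol k v - v) volume :=
    (mol_contDiff k hvl).continuous.aestronglyMeasurable.sub hv2.aestronglyMeasurable
  have m3 : AEStronglyMeasurable (u - v) volume := hu.1.sub hv2.aestronglyMeasurable
  calc eLpNorm ((mol k (u - v) + (mol k v - v)) - (u - v)) p volume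
      ≤ eLpNorm (mol k (u - v) + (mol k v - v)) p volume + eLpNorm (u - v) p volume :=
        eLpNorm_sub_le (m1.add m2) m3 hp1
    _ ≤ (eLpNorm (mol k (u - v)) p volume + eLpNorm (mol k v - v) p volume) +
        eLpNorm (u - v) p volume := by
        gcongr
        exact eLpNorm_add_le m1 m2 hp1
    _ ≤ (ε / 3 + ε / 3) + ε / 3 := by
        gcongr
        exact (mol_le hp1 hp k m3).trans hv1
    _ = ε := ENNReal.add_thirds ε

/-- weak derivative in the direction `e` -/
def WDg (e : X) (u g : X → F) : Prop :=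
  ∀ φ : X → ℝ, Test φ → ∫ z, fderiv ℝ φ z e • u z = -∫ z, φ z • g z

theorem mol_fderiv {e : X} {u g : X → F} (hu : LocallyIntegrable u) (h : WDg e u g) (k : ℕ) (x : X) :
    fderiv ℝ (mol k u) x e = mol k g x := by
  have h1 : HasFDerivAt (mol k u) ((fderiv ℝ (rho (X := X) k) ⋆[(lsmul ℝ ℝ).precompL X, volume] u) x)
      x := (rho_test (X := X) k).2.hasFDerivAt_convolution_left (lsmul ℝ ℝ)
        ((rho_test k).1.of_le (by exact_mod_cast le_top)) hu x
  rw [h1.fderiv]
  have hc : Continuous (fderiv ℝ (rho (X := X) k)) :=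
    (rho_test (X := X) k).1.continuous_fderiv (by simp)
  have h0 : ((fderiv ℝ (rho (X := X) k) ⋆[(lsmul ℝ ℝ).precompL X, volume] u) x) e =
      ((fun s => (fderiv ℝ (rho (X := X) k) s) e) ⋆[lsmul ℝ ℝ, volume] u) x := by
    have hex := ((rho_test (X := X) k).2.fderiv ℝ).convolutionExists_left
      ((lsmul ℝ ℝ : ℝ →L[ℝ] F →L[ℝ] F).precompL X) hc hu x
    rw [convolution_def, ContinuousLinearMap.integral_apply hex]
    rfl
  rw [h0]
  -- the test function
  set φ : X → ℝ := fun s => rho k (x - s) with hφ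
  have hφt : Test φ := by
    constructor
    · exact (rho_test (X := X) k).1.comp (contDiff_const.sub contDiff_id)
    · exact (rho_test (X := X) k).2.comp_homeomorph (Homeomorph.subLeft x)
  have hφd : ∀ s, fderiv ℝ φ s e = -(fderiv ℝ (rho (X := X) k) (x - s) e) := by
    intro s
    have h2 : HasFDerivAt φ ((fderiv ℝ (rho (X := X) k) (x - s)).comp (-(ContinuousLinearMap.id ℝ X))) s := by
      refine HasFDerivAt.comp s ?_ ?_
      · exact ((rho_test (X := X) k).1.differentiable (by simp) _).hasFDerivAt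
      · exact (hasFDerivAt_id s).const_sub x
    rw [h2.fderiv]
    simp
  have h3 := h φ hφt
  have h4 : ((fun s => (fderiv ℝ (rho (X := X) k) s) e) ⋆[lsmul ℝ ℝ, volume] u) x =
      ∫ s, (fderiv ℝ (rho (X := X) k) (x - s) e) • u s := by
    rw [convolution_eq_swap]
    rfl
  rw [h4]
  have h5 : ∫ s, (fderiv ℝ (rho (X := X) k) (x - s) e) • u s = -∫ s, fderiv ℝ φ s e • u s := by
    rw [← integral_neg]
    refine integral_congr_ae (Eventually.of_forall fun s => ?_)
    simp only [hφd, neg_smul, neg_neg]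
  rw [h5, h3, neg_neg]
  change _ = ((rho k) ⋆[lsmul ℝ ℝ, volume] g) x
  rw [convolution_eq_swap]
  rfl

end moll

end Pool.Agent.H690.HK
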