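import Pool.Agent.H690.HK.SpA

/-! Task SPLIT of the project HK of helper998, part B: calculus of weak derivatives. -/

set_option autoImplicit false
set_option linter.unusedSectionVars false

noncomputable section

namespace Pool.Agent.H690.HK

open MeasureTheory Filter Topology Set ContinuousLinearMap
open scoped ENNReal NNReal Convolution

open Pool.Agent.H998.HK

section calc1

variable {X : Type} [NormedAddCommGroup X] [NormedSpace ℝ X] [FiniteDimensional ℝ X]
  [MeasureSpace X] [BorelSpace X] [(volume : Measure X).IsAddHaarMeasure]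
variable {F : Type} [NormedAddCommGroup F] [NormedSpace ℝ F] [CompleteSpace F]

theorem _root_.Pool.Agent.H998.HK.Test.qcont {φ : X → ℝ} (h : Test φ) : Continuous φ := h.1.continuous

theorem _root_.Pool.Agent.H998.HK.Test.qcont_fderiv {φ : X → ℝ} (h : Test φ) (e : X) : Continuous fun z => fderiv ℝ φ z e :=
  (h.1.continuous_fderiv (by simp)).clm_apply continuous_const

theorem _root_.Pool.Agent.H998.HK.Test.qcs_fderiv {φ : X → ℝ} (h : Test φ) (e : X) :
    HasCompactSupport fun z => fderiv ℝ φ z e :=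
  (h.2.fderiv ℝ).comp_left (g := fun L : X →L[ℝ] ℝ => L e) rfl

theorem _root_.Pool.Agent.H998.HK.Test.qdiff {φ : X → ℝ} (h : Test φ) : Differentiable ℝ φ := h.1.differentiable (by simp)

theorem _root_.Pool.Agent.H998.HK.Test.qfderiv_test {φ : X → ℝ} (h : Test φ) (e : X) : Test fun z => fderiv ℝ φ z e :=
  ⟨(h.1.fderiv_right (m := ((⊤ : ℕ∞) : WithTop ℕ∞)) (by simp)).clm_apply contDiff_const,
    h.qcs_fderiv e⟩

theorem _root_.Pool.Agent.H998.HK.Test.qmul {φ ψ : X → ℝ} (h : Test φ) (h' : ContDiff ℝ ((⊤ : ℕ∞) : WithTop ℕ∞) ψ) :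
    Test fun z => φ z * ψ z := ⟨h.1.mul h', h.2.mul_right⟩

/-- continuous compactly supported times locally integrable is integrable -/
theorem cs_smul_integrable {φ : X → ℝ} (hc : Continuous φ) (hs : HasCompactSupport φ) {u : X → F}
    (hu : LocallyIntegrable u) : Integrable fun z => φ z • u z :=
  hu.integrable_smul_left_of_hasCompactSupport hc hs

theorem _root_.Pool.Agent.H998.HK.Test.qsmul_int {φ : X → ℝ} (h : Test φ) {u : X → F} (hu : LocallyIntegrable u) :
    Integrable fun z => φ z • u z := cs_smul_integrable h.qcont h.2 hu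

theorem _root_.Pool.Agent.H998.HK.Test.qfderiv_smul_int {φ : X → ℝ} (h : Test φ) (e : X) {u : X → F}
    (hu : LocallyIntegrable u) : Integrable fun z => fderiv ℝ φ z e • u z :=
  cs_smul_integrable (h.qcont_fderiv e) (h.qcs_fderiv e) hu

theorem _root_.Pool.Agent.H998.HK.Test.qbdd {φ : X → ℝ} (h : Test φ) : ∃ C : ℝ, 0 ≤ C ∧ ∀ z, |φ z| ≤ C := by
  obtain ⟨C, hC⟩ := h.2.exists_bound_of_continuous h.qcont
  exact ⟨C, (norm_nonneg _).trans (hC 0), hC⟩

/-- classical integration by parts -/
theorem ibp {φ : X → ℝ} (h : Test φ) {v : X → F} (hv : ContDiff ℝ 1 v) (e : X) :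
    ∫ z, fderiv ℝ φ z e • v z = -∫ z, φ z • fderiv ℝ v z e := by
  have hvd : Differentiable ℝ v := hv.differentiable (by simp)
  have hc : Continuous fun z => fderiv ℝ v z e :=
    (hv.continuous_fderiv (by simp)).clm_apply continuous_const
  rw [integral_smul_fderiv_eq_neg_fderiv_smul_of_integrable (f := φ) (g := v) (v := e)
    (h.qfderiv_smul_int e hv.continuous.locallyIntegrable) (h.qsmul_int hc.locallyIntegrable)
    (h.qsmul_int hv.continuous.locallyIntegrable) (fun x _ => h.qdiff x) (fun x _ => hvd x), neg_neg]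

theorem WDg_of_contDiff {v : X → F} (hv : ContDiff ℝ 1 v) (e : X) :
    WDg e v (fun z => fderiv ℝ v z e) := fun _ hφ => ibp hφ hv e

theorem fderiv_mul_apply {φ ψ : X → ℝ} (h : Differentiable ℝ φ) (h' : Differentiable ℝ ψ) (z e : X) :
    fderiv ℝ (fun z => φ z * ψ z) z e = φ z * fderiv ℝ ψ z e + ψ z * fderiv ℝ φ z e := by
  rw [fderiv_fun_mul (h z) (h' z)]
  simp

/-- multiplication by a smooth function -/
theorem WDg.smooth_mul {e : X} {u g : X → F} (h : WDg e u g) (hu : LocallyIntegrable u)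
    (hg : LocallyIntegrable g) {η : X → ℝ} (hη : ContDiff ℝ ((⊤ : ℕ∞) : WithTop ℕ∞) η) :
    WDg e (fun z => η z • u z) (fun z => η z • g z + fderiv ℝ η z e • u z) := by
  intro φ hφ
  have hηd : Differentiable ℝ η := hη.differentiable (by simp)
  have h1 := h _ (hφ.qmul hη)
  have hcη : Continuous fun z => fderiv ℝ η z e :=
    (hη.continuous_fderiv (by simp)).clm_apply continuous_const
  have i1 : Integrable fun z => (φ z * η z) • g z := (hφ.qmul hη).qsmul_int hg
  have i2 : Integrable fun z => (φ z * fderiv ℝ η z e) • u z :=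
    cs_smul_integrable (hφ.qcont.mul hcη) hφ.2.mul_right hu
  have i3 : Integrable fun z => (η z * fderiv ℝ φ z e) • u z :=
    cs_smul_integrable (hη.continuous.mul (hφ.qcont_fderiv e)) (hφ.qcs_fderiv e).mul_left hu
  have h2 : ∫ z, fderiv ℝ (fun z => φ z * η z) z e • u z =
      (∫ z, (φ z * fderiv ℝ η z e) • u z) + ∫ z, (η z * fderiv ℝ φ z e) • u z := by
    rw [← integral_add i2 i3]
    refine integral_congr_ae (Eventually.of_forall fun z => ?_)
    simp only [fderiv_mul_apply hφ.qdiff hηd, add_smul]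
  rw [h2] at h1
  have h3 : ∫ z, fderiv ℝ φ z e • (η z • u z) = ∫ z, (η z * fderiv ℝ φ z e) • u z :=
    integral_congr_ae (Eventually.of_forall fun z => by simp only [smul_smul, mul_comm])
  have h4 : ∫ z, φ z • (η z • g z + fderiv ℝ η z e • u z) =
      (∫ z, (φ z * η z) • g z) + ∫ z, (φ z * fderiv ℝ η z e) • u z := by
    rw [← integral_add i1 i2]
    refine integral_congr_ae (Eventually.of_forall fun z => ?_)
    simp only [smul_add, smul_smul]
  rw [h3, h4, neg_add, ← h1]
  abel

/-- cutoffs -/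
theorem exists_cutoff (K : Set X) (hK : IsCompact K) : ∃ η : X → ℝ, Test η ∧ (∀ z, 0 ≤ η z ∧ η z ≤ 1) ∧
    ∃ U : Set X, IsOpen U ∧ K ⊆ U ∧ ∀ z ∈ U, η z = 1 := by
  obtain ⟨R, hR⟩ := hK.isBounded.subset_ball (0 : X)
  set R' := max R 1 with hR'
  have hR0 : 0 < R' := lt_of_lt_of_le one_pos (le_max_right _ _)
  let b : ContDiffBump (0 : X) := ⟨R', R' + 1, hR0, by linarith⟩
  refine ⟨b, ⟨b.contDiff, b.hasCompactSupport⟩, fun z => ⟨b.nonneg, b.le_one⟩,
    Metric.ball 0 R', Metric.isOpen_ball, ?_, ?_⟩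
  · exact hR.trans (Metric.ball_subset_ball (le_max_left _ _))
  · intro z hz
    exact b.one_of_mem_closedBall (Metric.ball_subset_closedBall hz)

theorem exists_ae_subseq {u : ℕ → X → F} {v : X → F} {p : ℝ≥0∞} (hp : p ≠ 0)
    (hu : ∀ k, AEStronglyMeasurable (u k) volume) (hv : AEStronglyMeasurable v volume)
    (h : Tendsto (fun k => eLpNorm (u k - v) p volume) atTop (𝓝 0)) :
    ∃ ns : ℕ → ℕ, StrictMono ns ∧ ∀ᵐ x, Tendsto (fun k => u (ns k) x) atTop (𝓝 (v x)) :=
  (tendstoInMeasure_of_tendsto_eLpNorm hp hu hv h).exists_seq_tendsto_ae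

/-- the chain rule -/
theorem WDg.comp {e : X} {u g : X → ℝ} (h : WDg e u g) (hu : LocallyIntegrable u)
    (hg : LocallyIntegrable g) {Ψ Ψ' : ℝ → ℝ} (hΨ : ∀ s, HasDerivAt Ψ (Ψ' s) s)
    (hΨ' : Continuous Ψ') {M : ℝ} (hM : ∀ s, |Ψ' s| ≤ M) :
    WDg e (fun z => Ψ (u z)) (fun z => Ψ' (u z) * g z) := by
  intro φ hφ
  obtain ⟨η, hη, hη01, U, hU, hKU, hU1⟩ := exists_cutoff (tsupport φ) hφ.2
  have hM0 : 0 ≤ M := (abs_nonneg _).trans (hM 0)
  -- localised functions
  set u' : X → ℝ := fun z => η z • u z with hu'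
  set g' : X → ℝ := fun z => η z • g z + fderiv ℝ η z e • u z with hg'
  have hw' : WDg e u' g' := h.smooth_mul hu hg hη.1
  have hu'i : Integrable u' := hη.qsmul_int hu
  have hg'i : Integrable g' := (hη.qsmul_int hg).add (hη.qfderiv_smul_int e hu)
  have hΨc : Continuous Ψ := continuous_iff_continuousAt.2 fun s => (hΨ s).continuousAt
  have hLip : ∀ s t, |Ψ s - Ψ t| ≤ M * |s - t| := by
    intro s t
    have := Convex.norm_image_sub_le_of_norm_hasDerivWithin_le (f := Ψ) (f' := Ψ') (s := univ)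
      (C := M) (fun x _ => (hΨ x).hasDerivWithinAt) (fun x _ => hM x) convex_univ
      (mem_univ t) (mem_univ s)
    simpa [Real.norm_eq_abs] using this
  -- equality on the support of `φ`
  have hon : ∀ z ∈ tsupport φ, u' z = u z ∧ g' z = g z := by
    intro z hz
    have h1 : η z = 1 := hU1 z (hKU hz)
    have h2 : fderiv ℝ η z = 0 := by
      have h3 : η =ᶠ[𝓝 z] fun _ => (1 : ℝ) :=
        Filter.mem_of_superset (hU.mem_nhds (hKU hz)) fun y hy => hU1 y hy
      rw [h3.fderiv_eq, fderiv_const_apply]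
    simp only [hu', hg', h1, h2, one_smul]
    simp
  have hφ0 : ∀ z, z ∉ tsupport φ → φ z = 0 ∧ fderiv ℝ φ z e = 0 := by
    intro z hz
    refine ⟨image_eq_zero_of_notMem_tsupport hz, ?_⟩
    have : fderiv ℝ φ z = 0 := by
      by_contra hcon
      exact hz (support_fderiv_subset ℝ hcon)
    rw [this]; rfl
  have e1 : ∫ z, fderiv ℝ φ z e • Ψ (u z) = ∫ z, fderiv ℝ φ z e • Ψ (u' z) := by
    refine integral_congr_ae (Eventually.of_forall fun z => ?_)
    by_cases hz : z ∈ tsupport φ
    · simp only [(hon z hz).1]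
    · simp only [(hφ0 z hz).2, zero_smul]
  have e2 : ∫ z, φ z • (Ψ' (u z) * g z) = ∫ z, φ z • (Ψ' (u' z) * g' z) := by
    refine integral_congr_ae (Eventually.of_forall fun z => ?_)
    by_cases hz : z ∈ tsupport φ
    · simp only [(hon z hz).1, (hon z hz).2]
    · simp only [(hφ0 z hz).1, zero_smul]
  rw [e1, e2]
  -- mollification
  have hu'm : MemLp u' 1 volume := memLp_one_iff_integrable.2 hu'i
  have hg'm : MemLp g' 1 volume := memLp_one_iff_integrable.2 hg'i
  have t1 := mol_tendsto le_rfl ENNReal.one_ne_top hu'm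
  have t2 := mol_tendsto le_rfl ENNReal.one_ne_top hg'm
  have hmu : ∀ k, ContDiff ℝ ((⊤ : ℕ∞) : WithTop ℕ∞) (mol k u') := fun k =>
    mol_contDiff k hu'i.locallyIntegrable
  have hmg : ∀ k, ContDiff ℝ ((⊤ : ℕ∞) : WithTop ℕ∞) (mol k g') := fun k =>
    mol_contDiff k hg'i.locallyIntegrable
  obtain ⟨ns, hns, hae⟩ := exists_ae_subseq one_ne_zero
    (fun k => (hmu k).continuous.aestronglyMeasurable) hu'i.1 t1
  -- the classical identity
  have hcl : ∀ k, ∫ z, fderiv ℝ φ z e • Ψ (mol k u' z) =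
      -∫ z, φ z • (Ψ' (mol k u' z) * mol k g' z) := by
    intro k
    have hd : ∀ z, HasFDerivAt (fun z => Ψ (mol k u' z))
        (Ψ' (mol k u' z) • fderiv ℝ (mol k u') z) z := fun z =>
      (hΨ _).comp_hasFDerivAt z ((hmu k).differentiable (by simp) z).hasFDerivAt
    have hfd : ∀ z, fderiv ℝ (fun z => Ψ (mol k u' z)) z e = Ψ' (mol k u' z) * mol k g' z := by
      intro z
      rw [(hd z).fderiv, smul_apply,
        mol_fderiv hu'i.locallyIntegrable hw' k z, smul_eq_mul]
    have hC : ContDiff ℝ 1 fun z => Ψ (mol k u' z) := by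
      have : ContDiff ℝ 1 Ψ := by
        rw [contDiff_one_iff_deriv]
        refine ⟨fun s => (hΨ s).differentiableAt, ?_⟩
        have : deriv Ψ = Ψ' := funext fun s => (hΨ s).deriv
        rw [this]; exact hΨ'
      exact this.comp ((hmu k).of_le (by exact_mod_cast le_top))
    rw [ibp hφ hC e]
    simp only [hfd]
  obtain ⟨C0, hC0, hφb⟩ := hφ.qbdd
  obtain ⟨C1, hC1, hφ'b⟩ := (hφ.qfderiv_test e).qbdd
  -- limits
  have L1 : Tendsto (fun k => ∫ z, fderiv ℝ φ z e • Ψ (mol k u' z)) atTop
      (𝓝 (∫ z, fderiv ℝ φ z e • Ψ (u' z))) := by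
    rw [tendsto_iff_norm_sub_tendsto_zero]
    have hb : ∀ k, ‖(∫ z, fderiv ℝ φ z e • Ψ (mol k u' z)) - ∫ z, fderiv ℝ φ z e • Ψ (u' z)‖ ≤
        C1 * M * (eLpNorm (mol k u' - u') 1 volume).toReal := by
      intro k
      have i1 : Integrable fun z => fderiv ℝ φ z e • Ψ (mol k u' z) :=
        hφ.qfderiv_smul_int e (hΨc.comp (hmu k).continuous).locallyIntegrable
      have hΨu : LocallyIntegrable fun z => Ψ (u' z) := by
        have h5 : LocallyIntegrable fun _ : X => |Ψ 0| := (continuous_const).locallyIntegrable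
        have h6 : LocallyIntegrable fun z => |Ψ 0| + M * |u' z| :=
          h5.add (hu'i.abs.const_mul M).locallyIntegrable
        refine h6.mono (hΨc.comp_aestronglyMeasurable hu'i.1) (Eventually.of_forall fun z => ?_)
        have h7 := hLip (u' z) 0
        rw [sub_zero] at h7
        rw [Real.norm_eq_abs, Real.norm_eq_abs,
          abs_of_nonneg (a := |Ψ 0| + M * |u' z|) (by positivity)]
        have := abs_sub_abs_le_abs_sub (Ψ (u' z)) (Ψ 0)
        linarith
      have i2 : Integrable fun z => fderiv ℝ φ z e • Ψ (u' z) := hφ.qfderiv_smul_int e hΨu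
      rw [← integral_sub i1 i2]
      refine (norm_integral_le_integral_norm _).trans ?_
      have hsub : Integrable (mol k u' - u') := by
        have := (mol_le le_rfl ENNReal.one_ne_top k hu'i.1)
        have h8 : MemLp (mol k u') 1 volume :=
          ⟨(hmu k).continuous.aestronglyMeasurable, this.trans_lt hu'm.2⟩
        exact memLp_one_iff_integrable.1 (h8.sub hu'm)
      have h9 : (eLpNorm (mol k u' - u') 1 volume).toReal = ∫ z, ‖(mol k u' - u') z‖ := by
        rw [eLpNorm_one_eq_lintegral_enorm, integral_norm_eq_lintegral_enorm hsub.1]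
      rw [h9, ← integral_const_mul]
      refine integral_mono_of_nonneg (Eventually.of_forall fun z => norm_nonneg _)
        (hsub.norm.const_mul _) (Eventually.of_forall fun z => ?_)
      simp only [smul_eq_mul, ← mul_sub]
      rw [norm_mul, Real.norm_eq_abs, Real.norm_eq_abs, mul_assoc]
      exact mul_le_mul (hφ'b z) (hLip _ _) (abs_nonneg _) hC1
    refine squeeze_zero (fun _ => norm_nonneg _) hb ?_
    have := (ENNReal.tendsto_toReal ENNReal.zero_ne_top).comp t1
    rw [ENNReal.toReal_zero] at this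
    simpa using this.const_mul (C1 * M)
  have L2 : Tendsto (fun k => ∫ z, φ z • (Ψ' (mol (ns k) u' z) * mol (ns k) g' z)) atTop
      (𝓝 (∫ z, φ z • (Ψ' (u' z) * g' z))) := by
    -- split
    have i0 : ∀ k, Integrable (mol k g' - g') := fun k => by
      have h8 : MemLp (mol k g') 1 volume :=
        ⟨(hmg k).continuous.aestronglyMeasurable,
          (mol_le le_rfl ENNReal.one_ne_top k hg'i.1).trans_lt hg'm.2⟩
      exact memLp_one_iff_integrable.1 (h8.sub hg'm)
    have mΨ : ∀ k, AEStronglyMeasurable (fun z => φ z * Ψ' (mol k u' z)) volume := fun k =>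
      (hφ.qcont.mul (hΨ'.comp (hmu k).continuous)).aestronglyMeasurable
    have bΨ : ∀ k z, ‖φ z * Ψ' (mol k u' z)‖ ≤ C0 * M := fun k z => by
      rw [norm_mul, Real.norm_eq_abs, Real.norm_eq_abs]
      exact mul_le_mul (hφb z) (hM _) (abs_nonneg _) hC0
    have j1 : ∀ k, Integrable fun z => φ z * Ψ' (mol k u' z) * (mol k g' - g') z := fun k =>
      (i0 k).bdd_mul (mΨ k) (Eventually.of_forall (bΨ k))
    have j2 : ∀ k, Integrable fun z => φ z * Ψ' (mol k u' z) * g' z := fun k =>
      hg'i.bdd_mul (mΨ k) (Eventually.of_forall (bΨ k))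
    have hs : ∀ k, ∫ z, φ z • (Ψ' (mol k u' z) * mol k g' z) =
        (∫ z, φ z * Ψ' (mol k u' z) * (mol k g' - g') z) + ∫ z, φ z * Ψ' (mol k u' z) * g' z := by
      intro k
      rw [← integral_add (j1 k) (j2 k)]
      refine integral_congr_ae (Eventually.of_forall fun z => ?_)
      simp only [smul_eq_mul, Pi.sub_apply]
      ring
    simp only [hs]
    have a1 : Tendsto (fun k => ∫ z, φ z * Ψ' (mol (ns k) u' z) * (mol (ns k) g' - g') z) atTop
        (𝓝 0) := by
      refine squeeze_zero_norm (a := fun k => C0 * M *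
        (eLpNorm (mol (ns k) g' - g') 1 volume).toReal) (fun k => ?_) ?_
      · refine (norm_integral_le_integral_norm _).trans ?_
        have h9 : (eLpNorm (mol (ns k) g' - g') 1 volume).toReal = ∫ z, ‖(mol (ns k) g' - g') z‖ := by
          rw [eLpNorm_one_eq_lintegral_enorm, integral_norm_eq_lintegral_enorm (i0 (ns k)).1]
        rw [h9, ← integral_const_mul]
        refine integral_mono_of_nonneg (Eventually.of_forall fun z => norm_nonneg _)
          ((i0 _).norm.const_mul _) (Eventually.of_forall fun z => ?_)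
        simp only
        rw [norm_mul]
        exact mul_le_mul_of_nonneg_right (bΨ _ z) (norm_nonneg _)
      · have := (ENNReal.tendsto_toReal ENNReal.zero_ne_top).comp (t2.comp hns.tendsto_atTop)
        rw [ENNReal.toReal_zero] at this
        simpa using this.const_mul (C0 * M)
    have a2 : Tendsto (fun k => ∫ z, φ z * Ψ' (mol (ns k) u' z) * g' z) atTop
        (𝓝 (∫ z, φ z • (Ψ' (u' z) * g' z))) := by
      refine tendsto_integral_of_dominated_convergence (fun z => C0 * M * ‖g' z‖)
        (fun k => (j2 _).1) (hg'i.norm.const_mul _) (fun k => Eventually.of_forall fun z => ?_) ?_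
      · rw [norm_mul]
        exact mul_le_mul_of_nonneg_right (bΨ _ z) (norm_nonneg _)
      · filter_upwards [hae] with z hz
        have := (((hΨ'.tendsto _).comp hz).const_mul (φ z)).mul_const (g' z)
        simpa [mul_assoc] using this
    simpa using a1.add a2
  have L3 := L1.comp hns.tendsto_atTop
  have L4 := L2.neg
  refine tendsto_nhds_unique L3 (L4.congr fun k => ?_)
  exact (hcl (ns k)).symm

end calc1

end Pool.Agent.H690.HK
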