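import Pool.Agent.H690.HK.SpB

/-! Task SPLIT of the project HK of helper998, part C: level sets, products, marginals. -/

set_option autoImplicit false
set_option linter.unusedSectionVars false

noncomputable section

namespace Pool.Agent.H690.HK

open MeasureTheory Filter Topology Set ContinuousLinearMap
open scoped ENNReal NNReal Convolution

open Pool.Agent.H998.HK

section calc2

variable {X : Type} [NormedAddCommGroup X] [NormedSpace ℝ X] [FiniteDimensional ℝ X]
  [MeasureSpace X] [BorelSpace X] [(volume : Measure X).IsAddHaarMeasure]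
variable {F : Type} [NormedAddCommGroup F] [NormedSpace ℝ F] [CompleteSpace F]
variable {F' : Type} [NormedAddCommGroup F'] [NormedSpace ℝ F'] [CompleteSpace F']

theorem WDg.clm {e : X} {u g : X → F} (h : WDg e u g) (hu : LocallyIntegrable u)
    (hg : LocallyIntegrable g) (L : F →L[ℝ] F') : WDg e (fun z => L (u z)) (fun z => L (g z)) := by
  intro φ hφ
  have h1 := congrArg L (h φ hφ)
  rw [map_neg, ← L.integral_comp_comm (hφ.qfderiv_smul_int e hu),
    ← L.integral_comp_comm (hφ.qsmul_int hg)] at h1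
  simpa using h1

theorem LocInt.clm {u : X → F} (hu : LocallyIntegrable u) (L : F →L[ℝ] F') :
    LocallyIntegrable fun z => L (u z) := by
  intro x
  obtain ⟨s, hs, h⟩ := hu x
  exact ⟨s, hs, L.integrable_comp h⟩

/-- level sets, real-valued functions -/
theorem level_real {e : X} {u g : X → ℝ} (h : WDg e u g) (hu : LocallyIntegrable u)
    (hg : LocallyIntegrable g) : ∀ᵐ z, u z = 0 → g z = 0 := by
  have hum : AEStronglyMeasurable u volume := hu.aestronglyMeasurable
  have hgm : AEStronglyMeasurable g volume := hg.aestronglyMeasurable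
  set G : X → ℝ := fun z => if u z = 0 then g z else 0 with hG
  have hlim : ∀ z, Tendsto (fun n : ℕ => (1 / (1 + (((n : ℝ) + 1) * u z) ^ 2)) * g z) atTop
      (𝓝 (G z)) := by
    intro z
    by_cases hz : u z = 0
    · simp [hG, hz]
    · have h1 : Tendsto (fun n : ℕ => 1 / (1 + (((n : ℝ) + 1) * u z) ^ 2)) atTop (𝓝 0) := by
        have h2 : Tendsto (fun n : ℕ => 1 + (((n : ℝ) + 1) * u z) ^ 2) atTop atTop := by
          apply tendsto_atTop_add_const_left
          have h3 : Tendsto (fun n : ℕ => ((n : ℝ) + 1)) atTop atTop :=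
            tendsto_atTop_add_const_right _ _ tendsto_natCast_atTop_atTop
          have h4 : Tendsto (fun n : ℕ => ((n : ℝ) + 1) ^ 2 * (u z) ^ 2) atTop atTop :=
            ((tendsto_pow_atTop two_ne_zero).comp h3).atTop_mul_const (by positivity)
          refine h4.congr fun n => by ring
        refine h2.inv_tendsto_atTop.congr fun n => ?_
        simp
      have h2 := h1.mul_const (g z)
      simpa [hG, hz] using h2
  have hGm : AEStronglyMeasurable G volume := by
    refine aestronglyMeasurable_of_tendsto_ae (u := atTop)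
      (f := fun (n : ℕ) z => (1 / (1 + (((n : ℝ) + 1) * u z) ^ 2)) * g z) (fun n => ?_)
      (Eventually.of_forall hlim)
    have h1 : Continuous fun s : ℝ => 1 / (1 + (((n : ℝ) + 1) * s) ^ 2) := by
      refine continuous_const.div (by fun_prop) fun s => by positivity
    exact (h1.comp_aestronglyMeasurable hum).mul hgm
  have hGl : LocallyIntegrable G := by
    refine hg.mono hGm (Eventually.of_forall fun z => ?_)
    by_cases hz : u z = 0
    · simp [hG, hz]
    · simp [hG, hz]
  have hmain : ∀ᵐ z, G z = 0 := by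
    refine ae_eq_zero_of_integral_contDiff_smul_eq_zero hGl fun φ hφ1 hφ2 => ?_
    have hφ : Test φ := ⟨hφ1, hφ2⟩
    have hid : ∀ n : ℕ, ∫ z, fderiv ℝ φ z e • (1 / ((n : ℝ) + 1) * Real.arctan (((n : ℝ) + 1) * u z)) =
        -∫ z, φ z • ((1 / (1 + (((n : ℝ) + 1) * u z) ^ 2)) * g z) := by
      intro n
      have hn : (0 : ℝ) < (n : ℝ) + 1 := by positivity
      refine (WDg.comp h hu hg (Ψ := fun s => 1 / ((n : ℝ) + 1) * Real.arctan (((n : ℝ) + 1) * s))
        (Ψ' := fun s => 1 / (1 + (((n : ℝ) + 1) * s) ^ 2)) (M := 1) ?_ ?_ ?_) φ hφ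
      · intro s
        have h1 : HasDerivAt (fun s : ℝ => ((n : ℝ) + 1) * s) ((n : ℝ) + 1) s := by
          simpa using (hasDerivAt_id s).const_mul ((n : ℝ) + 1)
        have h2 := (h1.arctan).const_mul (1 / ((n : ℝ) + 1))
        refine h2.congr_deriv ?_
        field_simp
      · exact continuous_const.div (by fun_prop) fun s => by positivity
      · intro s
        rw [abs_of_nonneg (by positivity), div_le_one (by positivity)]
        nlinarith [sq_nonneg (((n : ℝ) + 1) * s)]
    have L1 : Tendsto (fun n : ℕ => ∫ z, fderiv ℝ φ z e •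
        (1 / ((n : ℝ) + 1) * Real.arctan (((n : ℝ) + 1) * u z))) atTop (𝓝 0) := by
      refine squeeze_zero_norm (a := fun n : ℕ => (1 / ((n : ℝ) + 1)) *
        ((Real.pi / 2) * ∫ z, ‖fderiv ℝ φ z e‖)) (fun n => ?_) ?_
      · refine (norm_integral_le_integral_norm _).trans ?_
        rw [← mul_assoc, ← integral_const_mul]
        have hi : Integrable fun z => fderiv ℝ φ z e :=
          (hφ.qcont_fderiv e).integrable_of_hasCompactSupport (hφ.qcs_fderiv e)
        refine integral_mono_of_nonneg (Eventually.of_forall fun z => norm_nonneg _)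
          (hi.norm.const_mul _) (Eventually.of_forall fun z => ?_)
        have hn : (0 : ℝ) < 1 / ((n : ℝ) + 1) := by positivity
        simp only
        rw [norm_smul, norm_mul, Real.norm_of_nonneg hn.le, Real.norm_eq_abs (Real.arctan _)]
        have h1 : |Real.arctan (((n : ℝ) + 1) * u z)| ≤ Real.pi / 2 := by
          rw [abs_le]
          exact ⟨(Real.neg_pi_div_two_lt_arctan _).le, (Real.arctan_lt_pi_div_two _).le⟩
        rw [mul_comm]
        gcongr
      · have := (tendsto_one_div_add_atTop_nhds_zero_nat (𝕜 := ℝ)).mul_const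
          ((Real.pi / 2) * ∫ z, ‖fderiv ℝ φ z e‖)
        simpa using this
    have L2 : Tendsto (fun n : ℕ => ∫ z, φ z • ((1 / (1 + (((n : ℝ) + 1) * u z) ^ 2)) * g z)) atTop
        (𝓝 (∫ z, φ z • G z)) := by
      have hi : Integrable fun z => φ z • g z := hφ.qsmul_int hg
      refine tendsto_integral_of_dominated_convergence (fun z => ‖φ z • g z‖) (fun n => ?_) hi.norm
        (fun n => Eventually.of_forall fun z => ?_) (Eventually.of_forall fun z => ?_)
      · have h1 : Continuous fun s : ℝ => 1 / (1 + (((n : ℝ) + 1) * s) ^ 2) := by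
          refine continuous_const.div (by fun_prop) fun s => by positivity
        exact hφ.qcont.aestronglyMeasurable.smul ((h1.comp_aestronglyMeasurable hum).mul hgm)
      · rw [norm_smul, norm_smul, norm_mul]
        have h1 : ‖1 / (1 + (((n : ℝ) + 1) * u z) ^ 2)‖ ≤ 1 := by
          rw [Real.norm_of_nonneg (by positivity), div_le_one (by positivity)]
          nlinarith [sq_nonneg (((n : ℝ) + 1) * u z)]
        have h2 := norm_nonneg (g z)
        gcongr
        exact mul_le_of_le_one_left h2 h1
      · exact (hlim z).const_smul (φ z)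
    have h3 : Tendsto (fun n : ℕ => ∫ z, fderiv ℝ φ z e •
        (1 / ((n : ℝ) + 1) * Real.arctan (((n : ℝ) + 1) * u z))) atTop (𝓝 (-∫ z, φ z • G z)) :=
      L2.neg.congr fun n => (hid n).symm
    have h4 := tendsto_nhds_unique L1 h3
    linarith
  filter_upwards [hmain] with z hz hu0
  simpa [hG, hu0] using hz

/-- level sets, complex-valued functions -/
theorem level_complex {e : X} {u g : X → ℂ} (h : WDg e u g) (hu : LocallyIntegrable u)
    (hg : LocallyIntegrable g) : ∀ᵐ z, u z = 0 → g z = 0 := by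
  have h1 := level_real (WDg.clm h hu hg Complex.reCLM) (LocInt.clm hu _) (LocInt.clm hg _)
  have h2 := level_real (WDg.clm h hu hg Complex.imCLM) (LocInt.clm hu _) (LocInt.clm hg _)
  filter_upwards [h1, h2] with z h3 h4 h5
  apply Complex.ext
  · exact h3 (by simp [h5])
  · exact h4 (by simp [h5])

/-! ### pairings -/

theorem mul_L1_tendsto {𝕜 : Type} [RCLike 𝕜] {a b : ℕ → X → 𝕜} {a' b' : X → 𝕜}
    (ha : ∀ k, MemLp (a k) 2 volume) (hb : ∀ k, MemLp (b k) 2 volume) (ha' : MemLp a' 2 volume)
    (hb' : MemLp b' 2 volume) (h1 : Tendsto (fun k => eLpNorm (a k - a') 2 volume) atTop (𝓝 0))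
    (h2 : Tendsto (fun k => eLpNorm (b k - b') 2 volume) atTop (𝓝 0)) :
    Tendsto (fun k => eLpNorm ((fun z => a k z * b k z) - fun z => a' z * b' z) 1 volume) atTop
      (𝓝 0) := by
  have hb0 : Tendsto (fun k => eLpNorm (b k - b') 2 volume + eLpNorm b' 2 volume) atTop
      (𝓝 (eLpNorm b' 2 volume)) := by
    simpa using h2.add_const (eLpNorm b' 2 volume)
  have hlim : Tendsto (fun k => eLpNorm (a k - a') 2 volume *
      (eLpNorm (b k - b') 2 volume + eLpNorm b' 2 volume) +
      eLpNorm a' 2 volume * eLpNorm (b k - b') 2 volume) atTop (𝓝 0) := by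
    have t1 := ENNReal.Tendsto.mul h1 (Or.inr hb'.eLpNorm_ne_top) hb0 (Or.inr ENNReal.zero_ne_top)
    have t2 := ENNReal.Tendsto.const_mul (a := eLpNorm a' 2 volume) h2 (Or.inr ha'.eLpNorm_ne_top)
    simpa using t1.add t2
  refine tendsto_of_tendsto_of_tendsto_of_le_of_le tendsto_const_nhds hlim (fun _ => zero_le) ?_
  intro k
  have e1 : ((fun z => a k z * b k z) - fun z => a' z * b' z) =
      (a k - a') • b k + a' • (b k - b') := by
    funext z
    change a k z * b k z - a' z * b' z = (a k z - a' z) * b k z + a' z * (b k z - b' z)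
    ring
  change eLpNorm ((fun z => a k z * b k z) - fun z => a' z * b' z) 1 volume ≤ _
  rw [e1]
  have m1 : AEStronglyMeasurable ((a k - a') • b k) volume := ((ha k).1.sub ha'.1).smul (hb k).1
  have m2 : AEStronglyMeasurable (a' • (b k - b')) volume := ha'.1.smul ((hb k).1.sub hb'.1)
  refine (eLpNorm_add_le m1 m2 le_rfl).trans ?_
  refine add_le_add ?_ ?_
  · refine (eLpNorm_smul_le_mul_eLpNorm (p := 2) (q := 2) (hb k).1 ((ha k).1.sub ha'.1)).trans ?_
    gcongr
    have : b k = (b k - b') + b' := by abel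
    nth_rewrite 1 [this]
    exact eLpNorm_add_le ((hb k).1.sub hb'.1) hb'.1 (by norm_num)
  · exact eLpNorm_smul_le_mul_eLpNorm (p := 2) (q := 2) ((hb k).1.sub hb'.1) ha'.1

/-- limits of integrals against bounded functions -/
theorem tendsto_bdd_integral {𝕜 : Type} [RCLike 𝕜] {c : ℕ → X → 𝕜} {c' : X → 𝕜}
    (hc : ∀ k, Integrable (c k)) (hc' : Integrable c')
    (h : Tendsto (fun k => eLpNorm (c k - c') 1 volume) atTop (𝓝 0)) {ψ : X → ℝ}
    (hψ : AEStronglyMeasurable ψ volume) {C : ℝ} (hC : ∀ z, |ψ z| ≤ C) :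
    Tendsto (fun k => ∫ z, ψ z • c k z) atTop (𝓝 (∫ z, ψ z • c' z)) := by
  rw [tendsto_iff_norm_sub_tendsto_zero]
  have hb : ∀ k, ‖(∫ z, ψ z • c k z) - ∫ z, ψ z • c' z‖ ≤ C * (eLpNorm (c k - c') 1 volume).toReal := by
    intro k
    have i1 : Integrable fun z => ψ z • c k z := (hc k).bdd_smul C hψ (Eventually.of_forall hC)
    have i2 : Integrable fun z => ψ z • c' z := hc'.bdd_smul C hψ (Eventually.of_forall hC)
    have i3 : Integrable (c k - c') := (hc k).sub hc'
    rw [← integral_sub i1 i2]
    refine (norm_integral_le_integral_norm _).trans ?_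
    have h9 : (eLpNorm (c k - c') 1 volume).toReal = ∫ z, ‖(c k - c') z‖ := by
      rw [eLpNorm_one_eq_lintegral_enorm, integral_norm_eq_lintegral_enorm i3.1]
    rw [h9, ← integral_const_mul]
    refine integral_mono_of_nonneg (Eventually.of_forall fun z => norm_nonneg _)
      (i3.norm.const_mul _) (Eventually.of_forall fun z => ?_)
    simp only [← smul_sub]
    rw [norm_smul]
    exact mul_le_mul_of_nonneg_right (hC z) (norm_nonneg _)
  refine squeeze_zero (fun _ => norm_nonneg _) hb ?_
  have := (ENNReal.tendsto_toReal ENNReal.zero_ne_top).comp h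
  rw [ENNReal.toReal_zero] at this
  simpa using this.const_mul C

theorem mol_memLp {p : ℝ≥0∞} (hp1 : 1 ≤ p) (hp : p ≠ ∞) (k : ℕ) {u : X → F}
    (hu : MemLp u p volume) : MemLp (mol k u) p volume :=
  ⟨(mol_contDiff k (hu.locallyIntegrable hp1)).continuous.aestronglyMeasurable,
    (mol_le hp1 hp k hu.1).trans_lt hu.2⟩

/-- squares -/
theorem WDg.sq {e : X} {u g : X → ℝ} (h : WDg e u g) (hu : MemLp u 2 volume) (hg : MemLp g 2 volume) :
    WDg e (fun z => u z * u z) (fun z => 2 * (u z * g z)) := by
  have h12 : (1 : ℝ≥0∞) ≤ 2 := by norm_num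
  have h2t : (2 : ℝ≥0∞) ≠ ∞ := by norm_num
  intro φ hφ
  have hul := hu.locallyIntegrable h12
  have hum : ∀ k, MemLp (mol k u) 2 volume := fun k => mol_memLp h12 h2t k hu
  have hgm : ∀ k, MemLp (mol k g) 2 volume := fun k => mol_memLp h12 h2t k hg
  have t1 := mol_tendsto h12 h2t hu
  have t2 := mol_tendsto h12 h2t hg
  have L1 := mul_L1_tendsto hum hum hu hu t1 t1
  have L2 := mul_L1_tendsto hum hgm hu hg t1 t2
  have i1 : ∀ k, Integrable fun z => mol k u z * mol k u z := fun k => (hum k).integrable_mul (hum k)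
  have i2 : ∀ k, Integrable fun z => mol k u z * mol k g z := fun k => (hum k).integrable_mul (hgm k)
  have i3 : Integrable fun z => u z * u z := hu.integrable_mul hu
  have i4 : Integrable fun z => u z * g z := hu.integrable_mul hg
  obtain ⟨C0, hC0, hφb⟩ := hφ.qbdd
  obtain ⟨C1, hC1, hφ'b⟩ := (hφ.qfderiv_test e).qbdd
  have M1 := tendsto_bdd_integral i1 i3 L1 (hφ.qcont_fderiv e).aestronglyMeasurable hφ'b
  have M2 := tendsto_bdd_integral i2 i4 L2 hφ.qcont.aestronglyMeasurable hφb
  have hcl : ∀ k, ∫ z, fderiv ℝ φ z e • (mol k u z * mol k u z) =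
      -(2 * ∫ z, φ z • (mol k u z * mol k g z)) := by
    intro k
    have hcd := mol_contDiff k hul
    have hd := hcd.differentiable (by simp)
    rw [ibp hφ ((hcd.mul hcd).of_le (by exact_mod_cast le_top)) e, ← integral_const_mul]
    congr 1
    refine integral_congr_ae (Eventually.of_forall fun z => ?_)
    simp only
    rw [fderiv_mul_apply hd hd, mol_fderiv hul h k z]
    simp only [smul_eq_mul]; ring
  have h5 : ∫ z, φ z • (2 * (u z * g z)) = 2 * ∫ z, φ z • (u z * g z) := by
    rw [← integral_const_mul]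
    refine integral_congr_ae (Eventually.of_forall fun z => ?_)
    simp only [smul_eq_mul]; ring
  rw [h5]
  refine tendsto_nhds_unique M1 ((M2.const_mul 2).neg.congr fun k => (hcl k).symm)

theorem memLp_re {u : X → ℂ} {p : ℝ≥0∞} (h : MemLp u p volume) :
    MemLp (fun z => (u z).re) p volume := h.re

theorem memLp_im {u : X → ℂ} {p : ℝ≥0∞} (h : MemLp u p volume) :
    MemLp (fun z => (u z).im) p volume := h.im

/-- the real part of `conj a * b` -/
def rp (a b : ℂ) : ℝ := a.re * b.re + a.im * b.im

theorem rp_self (a : ℂ) : rp a a = ‖a‖ ^ 2 := by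
  rw [← Complex.normSq_eq_norm_sq, Complex.normSq_apply]; rfl

theorem abs_rp_le (a b : ℂ) : |rp a b| ≤ ‖a‖ * ‖b‖ := by
  have h1 : rp a b = ((starRingEnd ℂ) a * b).re := by
    simp [rp, Complex.mul_re]
  rw [h1]
  refine (Complex.abs_re_le_norm _).trans (le_of_eq ?_)
  simp

/-- `|f|²` -/
theorem WDg.normSq {e : X} {f D : X → ℂ} (h : WDg e f D) (hf : MemLp f 2 volume)
    (hD : MemLp D 2 volume) : WDg e (fun z => ‖f z‖ ^ 2) (fun z => 2 * rp (f z) (D z)) := by
  have h12 : (1 : ℝ≥0∞) ≤ 2 := by norm_num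
  have hfl := hf.locallyIntegrable h12
  have hDl := hD.locallyIntegrable h12
  have h1 := WDg.sq (WDg.clm h hfl hDl Complex.reCLM) (memLp_re hf) (memLp_re hD)
  have h2 := WDg.sq (WDg.clm h hfl hDl Complex.imCLM) (memLp_im hf) (memLp_im hD)
  intro φ hφ
  have i1 : LocallyIntegrable fun z => (f z).re * (f z).re :=
    ((memLp_re hf).integrable_mul (memLp_re hf)).locallyIntegrable
  have i2 : LocallyIntegrable fun z => (f z).im * (f z).im :=
    ((memLp_im hf).integrable_mul (memLp_im hf)).locallyIntegrable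
  have i3 : LocallyIntegrable fun z => 2 * ((f z).re * (D z).re) :=
    (((memLp_re hf).integrable_mul (memLp_re hD)).const_mul 2).locallyIntegrable
  have i4 : LocallyIntegrable fun z => 2 * ((f z).im * (D z).im) :=
    (((memLp_im hf).integrable_mul (memLp_im hD)).const_mul 2).locallyIntegrable
  have h3 := h1 φ hφ
  have h4 := h2 φ hφ
  simp only [Complex.reCLM_apply] at h3
  simp only [Complex.imCLM_apply] at h4
  have e1 : ∫ z, fderiv ℝ φ z e • ‖f z‖ ^ 2 = (∫ z, fderiv ℝ φ z e • ((f z).re * (f z).re)) +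
      ∫ z, fderiv ℝ φ z e • ((f z).im * (f z).im) := by
    rw [← integral_add (hφ.qfderiv_smul_int e i1) (hφ.qfderiv_smul_int e i2)]
    refine integral_congr_ae (Eventually.of_forall fun z => ?_)
    simp only [← rp_self, rp, smul_eq_mul]; ring
  have e2 : ∫ z, φ z • (2 * rp (f z) (D z)) = (∫ z, φ z • (2 * ((f z).re * (D z).re))) +
      ∫ z, φ z • (2 * ((f z).im * (D z).im)) := by
    rw [← integral_add (hφ.qsmul_int i3) (hφ.qsmul_int i4)]
    refine integral_congr_ae (Eventually.of_forall fun z => ?_)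
    simp only [rp, smul_eq_mul]; ring
  rw [e1, e2, h3, h4]; ring

/-- integration by parts, bounded times compactly supported -/
theorem ibp_L2 {e : X} {a b U V : X → ℝ} (h : WDg e a b) (ha : AEStronglyMeasurable a volume)
    {M : ℝ} (hM : ∀ z, |a z| ≤ M) (hb : MemLp b 2 volume) (hUV : WDg e U V)
    (hU : MemLp U 2 volume) (hUc : HasCompactSupport U) (hV : Integrable V) :
    ∫ z, a z * V z = -∫ z, b z * U z := by
  have h12 : (1 : ℝ≥0∞) ≤ 2 := by norm_num
  have h2t : (2 : ℝ≥0∞) ≠ ∞ := by norm_num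
  have hUl := hU.locallyIntegrable h12
  have hUm : ∀ k, MemLp (mol k U) 2 volume := fun k => mol_memLp h12 h2t k hU
  have hVm : ∀ k, Integrable (mol k V) := fun k =>
    memLp_one_iff_integrable.1 (mol_memLp le_rfl ENNReal.one_ne_top k (memLp_one_iff_integrable.2 hV))
  have t1 := mol_tendsto h12 h2t hU
  have t2 := mol_tendsto le_rfl ENNReal.one_ne_top (memLp_one_iff_integrable.2 hV)
  have L1 := mul_L1_tendsto (fun _ => hb) hUm hb hU (by simp) t1
  have i1 : ∀ k, Integrable fun z => b z * mol k U z := fun k => hb.integrable_mul (hUm k)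
  have i2 : Integrable fun z => b z * U z := hb.integrable_mul hU
  have M1 := tendsto_bdd_integral i1 i2 L1 (ψ := fun _ => (1 : ℝ)) aestronglyMeasurable_const
    (C := 1) (by simp)
  have M2 := tendsto_bdd_integral hVm hV t2 ha hM
  simp only [one_smul] at M1
  simp only [smul_eq_mul] at M2
  have hcl : ∀ k, ∫ z, a z * mol k V z = -∫ z, b z * mol k U z := by
    intro k
    have hT : Test (mol k U) := by
      refine ⟨mol_contDiff k hUl, ?_⟩
      exact HasCompactSupport.convolution (lsmul ℝ ℝ) (rho_test (X := X) k).2 hUc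
    have h5 := h _ hT
    simp only [smul_eq_mul, mol_fderiv hUl hUV] at h5
    have e1 : ∫ z, a z * mol k V z = ∫ z, mol k V z * a z :=
      integral_congr_ae (Eventually.of_forall fun z => mul_comm _ _)
    have e2 : ∫ z, b z * mol k U z = ∫ z, mol k U z * b z :=
      integral_congr_ae (Eventually.of_forall fun z => mul_comm _ _)
    rw [e1, e2, h5]
  exact tendsto_nhds_unique M2 (M1.neg.congr fun k => (hcl k).symm)

end calc2

end Pool.Agent.H690.HK
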