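import Pool.Agent.H690.HK.SpC

/-! Task SPLIT of the project HK of helper998, part D: product spaces. -/

set_option autoImplicit false
set_option linter.unusedSectionVars false

noncomputable section

namespace Pool.Agent.H690.HK

open MeasureTheory Filter Topology Set ContinuousLinearMap
open scoped ENNReal NNReal Convolution

open Pool.Agent.H998.HK

section prodspace

variable {A : Type} [NormedAddCommGroup A] [NormedSpace ℝ A] [FiniteDimensional ℝ A]
  [MeasureSpace A] [BorelSpace A] [(volume : Measure A).IsAddHaarMeasure]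
  [SecondCountableTopology A]
variable {B : Type} [NormedAddCommGroup B] [NormedSpace ℝ B] [FiniteDimensional ℝ B]
  [MeasureSpace B] [BorelSpace B] [(volume : Measure B).IsAddHaarMeasure]
  [SecondCountableTopology B]
variable {F : Type} [NormedAddCommGroup F] [NormedSpace ℝ F] [CompleteSpace F]

theorem vol_prod : (volume : Measure (A × B)) = (volume : Measure A).prod volume := rfl

instance haar_prod : (volume : Measure (A × B)).IsAddHaarMeasure :=
  inferInstanceAs (((volume : Measure A).prod (volume : Measure B)).IsAddHaarMeasure)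

theorem fderiv_fst_fun {φ : A → ℝ} (h : Differentiable ℝ φ) (z e : A × B) :
    fderiv ℝ (fun z : A × B => φ z.1) z e = fderiv ℝ φ z.1 e.1 := by
  have h1 : HasFDerivAt (fun z : A × B => φ z.1)
      ((fderiv ℝ φ z.1).comp (ContinuousLinearMap.fst ℝ A B)) z :=
    (h z.1).hasFDerivAt.comp z hasFDerivAt_fst
  rw [h1.fderiv]; rfl

theorem fderiv_snd_fun {φ : B → ℝ} (h : Differentiable ℝ φ) (z e : A × B) :
    fderiv ℝ (fun z : A × B => φ z.2) z e = fderiv ℝ φ z.2 e.2 := by
  have h1 : HasFDerivAt (fun z : A × B => φ z.2)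
      ((fderiv ℝ φ z.2).comp (ContinuousLinearMap.snd ℝ A B)) z :=
    (h z.2).hasFDerivAt.comp z hasFDerivAt_snd
  rw [h1.fderiv]; rfl

theorem contDiff_fst_fun {φ : A → ℝ} (h : ContDiff ℝ ((⊤ : ℕ∞) : WithTop ℕ∞) φ) :
    ContDiff ℝ ((⊤ : ℕ∞) : WithTop ℕ∞) (fun z : A × B => φ z.1) := h.comp contDiff_fst

theorem contDiff_snd_fun {φ : B → ℝ} (h : ContDiff ℝ ((⊤ : ℕ∞) : WithTop ℕ∞) φ) :
    ContDiff ℝ ((⊤ : ℕ∞) : WithTop ℕ∞) (fun z : A × B => φ z.2) := h.comp contDiff_snd

/-- products of test functions -/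
theorem test_prod {φ : A → ℝ} {ψ : B → ℝ} (hφ : Test φ) (hψ : Test ψ) :
    Test (fun z : A × B => φ z.1 * ψ z.2) := by
  refine ⟨(contDiff_fst_fun hφ.1).mul (contDiff_snd_fun hψ.1), ?_⟩
  refine HasCompactSupport.intro (K := tsupport φ ×ˢ tsupport ψ) (hφ.2.isCompact.prod hψ.2.isCompact) ?_
  intro z hz
  by_cases h1 : z.1 ∈ tsupport φ
  · have h2 : z.2 ∉ tsupport ψ := fun h => hz ⟨h1, h⟩
    rw [image_eq_zero_of_notMem_tsupport h2, mul_zero]
  · rw [image_eq_zero_of_notMem_tsupport h1, zero_mul]

/-- a function whose integral against test functions of the second variable vanishes -/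
theorem snd_zero {k : A × B → F} (hk : Integrable k)
    (h : ∀ ψ : B → ℝ, Test ψ → ∫ z : A × B, ψ z.2 • k z = 0) {β : B → ℝ}
    (hβ : AEStronglyMeasurable β volume) {C : ℝ} (hC : ∀ y, |β y| ≤ C) :
    ∫ z : A × B, β z.2 • k z = 0 := by
  have hkp : Integrable k ((volume : Measure A).prod volume) := hk
  have hK : Integrable fun y => ∫ x, k (x, y) := hkp.integral_prod_right
  have hz : ∀ᵐ y, ∫ x, k (x, y) = 0 := by
    refine ae_eq_zero_of_integral_contDiff_smul_eq_zero hK.locallyIntegrable fun ψ h1 h2 => ?_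
    have hψ : Test ψ := ⟨h1, h2⟩
    obtain ⟨M, hM, hψb⟩ := hψ.qbdd
    have hi : Integrable (fun z : A × B => ψ z.2 • k z) ((volume : Measure A).prod volume) :=
      hkp.bdd_smul M (hψ.qcont.comp continuous_snd).aestronglyMeasurable
        (Eventually.of_forall fun z => hψb z.2)
    have h3 := h ψ hψ
    rw [vol_prod, integral_prod_symm _ hi] at h3
    rw [← h3]
    refine integral_congr_ae (Eventually.of_forall fun y => ?_)
    simp only
    rw [← integral_smul]
  have hβm : AEStronglyMeasurable (fun z : A × B => β z.2) ((volume : Measure A).prod volume) :=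
    hβ.comp_snd
  have hi : Integrable (fun z : A × B => β z.2 • k z) ((volume : Measure A).prod volume) :=
    hkp.bdd_smul C hβm (Eventually.of_forall fun z => hC z.2)
  rw [vol_prod, integral_prod_symm _ hi]
  refine (integral_congr_ae (hz.mono fun y hy => ?_)).trans (integral_zero _ _)
  simp only
  rw [integral_smul, hy, smul_zero]

theorem fst_zero {k : A × B → F} (hk : Integrable k)
    (h : ∀ ψ : A → ℝ, Test ψ → ∫ z : A × B, ψ z.1 • k z = 0) {β : A → ℝ}
    (hβ : AEStronglyMeasurable β volume) {C : ℝ} (hC : ∀ y, |β y| ≤ C) :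
    ∫ z : A × B, β z.1 • k z = 0 := by
  have hkp : Integrable k ((volume : Measure A).prod volume) := hk
  have hK : Integrable fun x => ∫ y, k (x, y) := hkp.integral_prod_left
  have hz : ∀ᵐ x, ∫ y, k (x, y) = 0 := by
    refine ae_eq_zero_of_integral_contDiff_smul_eq_zero hK.locallyIntegrable fun ψ h1 h2 => ?_
    have hψ : Test ψ := ⟨h1, h2⟩
    obtain ⟨M, hM, hψb⟩ := hψ.qbdd
    have hi : Integrable (fun z : A × B => ψ z.1 • k z) ((volume : Measure A).prod volume) :=
      hkp.bdd_smul M (hψ.qcont.comp continuous_fst).aestronglyMeasurable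
        (Eventually.of_forall fun z => hψb z.1)
    have h3 := h ψ hψ
    rw [vol_prod, integral_prod _ hi] at h3
    rw [← h3]
    refine integral_congr_ae (Eventually.of_forall fun y => ?_)
    simp only
    rw [← integral_smul]
  have hβm : AEStronglyMeasurable (fun z : A × B => β z.1) ((volume : Measure A).prod volume) :=
    hβ.comp_fst
  have hi : Integrable (fun z : A × B => β z.1 • k z) ((volume : Measure A).prod volume) :=
    hkp.bdd_smul C hβm (Eventually.of_forall fun z => hC z.1)
  rw [vol_prod, integral_prod _ hi]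
  refine (integral_congr_ae (hz.mono fun y hy => ?_)).trans (integral_zero _ _)
  simp only
  rw [integral_smul, hy, smul_zero]

/-- multiplication by a bounded function of the other variable -/
theorem WDg.mul_snd {e : A} {u g : A × B → F} (h : WDg ((e, 0) : A × B) u g)
    (hu : LocallyIntegrable u) (hg : LocallyIntegrable g) {β : B → ℝ}
    (hβ : AEStronglyMeasurable β volume) {C : ℝ} (hC : ∀ y, |β y| ≤ C) :
    WDg ((e, 0) : A × B) (fun z => β z.2 • u z) (fun z => β z.2 • g z) := by
  intro φ hφ
  have i1 := hφ.qfderiv_smul_int ((e, 0) : A × B) hu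
  have i2 := hφ.qsmul_int hg
  have hk : Integrable fun z : A × B => fderiv ℝ φ z (e, 0) • u z + φ z • g z := i1.add i2
  have hβm : AEStronglyMeasurable (fun z : A × B => β z.2) volume :=
    hβ.comp_snd (μ := (volume : Measure A))
  have h0 := snd_zero hk (fun ψ hψ => by
    have h1 := h _ (hφ.qmul (contDiff_snd_fun (A := A) hψ.1))
    have e1 : ∀ z : A × B, fderiv ℝ (fun z : A × B => φ z * ψ z.2) z (e, 0) =
        ψ z.2 * fderiv ℝ φ z (e, 0) := by
      intro z
      rw [fderiv_mul_apply hφ.qdiff ((contDiff_snd_fun (A := A) hψ.1).differentiable (by simp)),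
        fderiv_snd_fun hψ.qdiff]
      simp
    simp only [e1] at h1
    obtain ⟨M, hM, hψb⟩ := hψ.qbdd
    have hψm : AEStronglyMeasurable (fun z : A × B => ψ z.2) volume :=
      (hψ.qcont.comp continuous_snd).aestronglyMeasurable
    have j1 : Integrable fun z : A × B => ψ z.2 • (fderiv ℝ φ z (e, 0) • u z) :=
      i1.bdd_smul M hψm (Eventually.of_forall fun z => hψb z.2)
    have j2 : Integrable fun z : A × B => ψ z.2 • (φ z • g z) :=
      i2.bdd_smul M hψm (Eventually.of_forall fun z => hψb z.2)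
    have e2 : ∫ z : A × B, ψ z.2 • (fderiv ℝ φ z (e, 0) • u z + φ z • g z) =
        (∫ z : A × B, (ψ z.2 * fderiv ℝ φ z (e, 0)) • u z) + ∫ z : A × B, (φ z * ψ z.2) • g z := by
      have : ∫ z : A × B, ψ z.2 • (fderiv ℝ φ z (e, 0) • u z + φ z • g z) =
          (∫ z : A × B, ψ z.2 • (fderiv ℝ φ z (e, 0) • u z)) + ∫ z : A × B, ψ z.2 • (φ z • g z) := by
        rw [← integral_add j1 j2]
        refine integral_congr_ae (Eventually.of_forall fun z => ?_)
        simp only [smul_add]
      rw [this]
      congr 1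
      · refine integral_congr_ae (Eventually.of_forall fun z => ?_)
        simp only [smul_smul]
      · refine integral_congr_ae (Eventually.of_forall fun z => ?_)
        simp only [smul_smul, mul_comm]
    rw [e2, h1]
    simp) hβ hC
  have j1 : Integrable fun z : A × B => β z.2 • (fderiv ℝ φ z (e, 0) • u z) :=
    i1.bdd_smul C hβm (Eventually.of_forall fun z => hC z.2)
  have j2 : Integrable fun z : A × B => β z.2 • (φ z • g z) :=
    i2.bdd_smul C hβm (Eventually.of_forall fun z => hC z.2)
  have e3 : ∫ z : A × B, β z.2 • (fderiv ℝ φ z (e, 0) • u z + φ z • g z) =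
      (∫ z : A × B, fderiv ℝ φ z (e, 0) • (β z.2 • u z)) + ∫ z : A × B, φ z • (β z.2 • g z) := by
    have : ∫ z : A × B, β z.2 • (fderiv ℝ φ z (e, 0) • u z + φ z • g z) =
        (∫ z : A × B, β z.2 • (fderiv ℝ φ z (e, 0) • u z)) + ∫ z : A × B, β z.2 • (φ z • g z) := by
      rw [← integral_add j1 j2]
      refine integral_congr_ae (Eventually.of_forall fun z => ?_)
      simp only [smul_add]
    rw [this]
    congr 1
    · refine integral_congr_ae (Eventually.of_forall fun z => ?_)
      simp only [smul_smul, mul_comm]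
    · refine integral_congr_ae (Eventually.of_forall fun z => ?_)
      simp only [smul_smul, mul_comm]
  rw [e3] at h0
  exact eq_neg_of_add_eq_zero_left h0

theorem WDg.mul_fst {e : B} {u g : A × B → F} (h : WDg ((0, e) : A × B) u g)
    (hu : LocallyIntegrable u) (hg : LocallyIntegrable g) {β : A → ℝ}
    (hβ : AEStronglyMeasurable β volume) {C : ℝ} (hC : ∀ y, |β y| ≤ C) :
    WDg ((0, e) : A × B) (fun z => β z.1 • u z) (fun z => β z.1 • g z) := by
  intro φ hφ
  have i1 := hφ.qfderiv_smul_int ((0, e) : A × B) hu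
  have i2 := hφ.qsmul_int hg
  have hk : Integrable fun z : A × B => fderiv ℝ φ z (0, e) • u z + φ z • g z := i1.add i2
  have hβm : AEStronglyMeasurable (fun z : A × B => β z.1) volume :=
    hβ.comp_fst (ν := (volume : Measure B))
  have h0 := fst_zero hk (fun ψ hψ => by
    have h1 := h _ (hφ.qmul (contDiff_fst_fun (B := B) hψ.1))
    have e1 : ∀ z : A × B, fderiv ℝ (fun z : A × B => φ z * ψ z.1) z (0, e) =
        ψ z.1 * fderiv ℝ φ z (0, e) := by
      intro z
      rw [fderiv_mul_apply hφ.qdiff ((contDiff_fst_fun (B := B) hψ.1).differentiable (by simp)),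
        fderiv_fst_fun hψ.qdiff]
      simp
    simp only [e1] at h1
    obtain ⟨M, hM, hψb⟩ := hψ.qbdd
    have hψm : AEStronglyMeasurable (fun z : A × B => ψ z.1) volume :=
      (hψ.qcont.comp continuous_fst).aestronglyMeasurable
    have j1 : Integrable fun z : A × B => ψ z.1 • (fderiv ℝ φ z (0, e) • u z) :=
      i1.bdd_smul M hψm (Eventually.of_forall fun z => hψb z.1)
    have j2 : Integrable fun z : A × B => ψ z.1 • (φ z • g z) :=
      i2.bdd_smul M hψm (Eventually.of_forall fun z => hψb z.1)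
    have e2 : ∫ z : A × B, ψ z.1 • (fderiv ℝ φ z (0, e) • u z + φ z • g z) =
        (∫ z : A × B, (ψ z.1 * fderiv ℝ φ z (0, e)) • u z) + ∫ z : A × B, (φ z * ψ z.1) • g z := by
      have : ∫ z : A × B, ψ z.1 • (fderiv ℝ φ z (0, e) • u z + φ z • g z) =
          (∫ z : A × B, ψ z.1 • (fderiv ℝ φ z (0, e) • u z)) + ∫ z : A × B, ψ z.1 • (φ z • g z) := by
        rw [← integral_add j1 j2]
        refine integral_congr_ae (Eventually.of_forall fun z => ?_)
        simp only [smul_add]
      rw [this]
      congr 1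
      · refine integral_congr_ae (Eventually.of_forall fun z => ?_)
        simp only [smul_smul]
      · refine integral_congr_ae (Eventually.of_forall fun z => ?_)
        simp only [smul_smul, mul_comm]
    rw [e2, h1]
    simp) hβ hC
  have j1 : Integrable fun z : A × B => β z.1 • (fderiv ℝ φ z (0, e) • u z) :=
    i1.bdd_smul C hβm (Eventually.of_forall fun z => hC z.1)
  have j2 : Integrable fun z : A × B => β z.1 • (φ z • g z) :=
    i2.bdd_smul C hβm (Eventually.of_forall fun z => hC z.1)
  have e3 : ∫ z : A × B, β z.1 • (fderiv ℝ φ z (0, e) • u z + φ z • g z) =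
      (∫ z : A × B, fderiv ℝ φ z (0, e) • (β z.1 • u z)) + ∫ z : A × B, φ z • (β z.1 • g z) := by
    have : ∫ z : A × B, β z.1 • (fderiv ℝ φ z (0, e) • u z + φ z • g z) =
        (∫ z : A × B, β z.1 • (fderiv ℝ φ z (0, e) • u z)) + ∫ z : A × B, β z.1 • (φ z • g z) := by
      rw [← integral_add j1 j2]
      refine integral_congr_ae (Eventually.of_forall fun z => ?_)
      simp only [smul_add]
    rw [this]
    congr 1
    · refine integral_congr_ae (Eventually.of_forall fun z => ?_)
      simp only [smul_smul, mul_comm]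
    · refine integral_congr_ae (Eventually.of_forall fun z => ?_)
      simp only [smul_smul, mul_comm]
  rw [e3] at h0
  exact eq_neg_of_add_eq_zero_left h0

/-- large cutoffs -/
theorem exists_big_cutoff : ∃ η : ℕ → B → ℝ, (∀ n, Test (η n)) ∧ (∀ n y, 0 ≤ η n y ∧ η n y ≤ 1) ∧
    (∀ y, Tendsto (fun n => η n y) atTop (𝓝 1)) := by
  let b : ℕ → ContDiffBump (0 : B) := fun n =>
    ⟨(n : ℝ) + 1, (n : ℝ) + 2, by positivity, by linarith⟩
  refine ⟨fun n => b n, fun n => ⟨(b n).contDiff, (b n).hasCompactSupport⟩,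
    fun n y => ⟨(b n).nonneg, (b n).le_one⟩, fun y => ?_⟩
  refine tendsto_const_nhds.congr' ?_
  filter_upwards [eventually_ge_atTop ⌈‖y‖⌉₊] with n hn
  symm
  apply (b n).one_of_mem_closedBall
  rw [Metric.mem_closedBall, dist_zero_right]
  have h1 : ‖y‖ ≤ ⌈‖y‖⌉₊ := Nat.le_ceil _
  have h2 : ((⌈‖y‖⌉₊ : ℕ) : ℝ) ≤ n := by exact_mod_cast hn
  change ‖y‖ ≤ (n : ℝ) + 1
  linarith

/-- test functions of the first variable only -/
theorem WDg.fst_test {e : A} {u g : A × B → F} (h : WDg ((e, 0) : A × B) u g) (hu : Integrable u)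
    (hg : Integrable g) {φ : A → ℝ} (hφ : Test φ) :
    ∫ z : A × B, fderiv ℝ φ z.1 e • u z = -∫ z : A × B, φ z.1 • g z := by
  obtain ⟨η, hη, hη01, hηt⟩ := exists_big_cutoff (B := B)
  have hcl : ∀ n, ∫ z : A × B, η n z.2 • (fderiv ℝ φ z.1 e • u z) =
      -∫ z : A × B, η n z.2 • (φ z.1 • g z) := by
    intro n
    have h1 := h _ (test_prod hφ (hη n))
    have e1 : ∀ z : A × B, fderiv ℝ (fun z : A × B => φ z.1 * η n z.2) z (e, 0) =
        η n z.2 * fderiv ℝ φ z.1 e := by
      intro z
      rw [fderiv_mul_apply ((contDiff_fst_fun (B := B) hφ.1).differentiable (by simp))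
        ((contDiff_snd_fun (A := A) (hη n).1).differentiable (by simp)),
        fderiv_snd_fun (hη n).qdiff, fderiv_fst_fun hφ.qdiff]
      simp
    simp only [e1] at h1
    have e2 : ∫ z : A × B, η n z.2 • (fderiv ℝ φ z.1 e • u z) =
        ∫ z : A × B, (η n z.2 * fderiv ℝ φ z.1 e) • u z :=
      integral_congr_ae (Eventually.of_forall fun z => by simp only [smul_smul])
    have e3 : ∫ z : A × B, η n z.2 • (φ z.1 • g z) = ∫ z : A × B, (φ z.1 * η n z.2) • g z :=
      integral_congr_ae (Eventually.of_forall fun z => by simp only [smul_smul, mul_comm])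
    rw [e2, e3, h1]
  obtain ⟨C0, hC0, hφb⟩ := hφ.qbdd
  obtain ⟨C1, hC1, hφ'b⟩ := (hφ.qfderiv_test e).qbdd
  have i1 : Integrable fun z : A × B => fderiv ℝ φ z.1 e • u z :=
    hu.bdd_smul C1 ((hφ.qcont_fderiv e).comp continuous_fst).aestronglyMeasurable
      (Eventually.of_forall fun z => hφ'b z.1)
  have i2 : Integrable fun z : A × B => φ z.1 • g z :=
    hg.bdd_smul C0 (hφ.qcont.comp continuous_fst).aestronglyMeasurable
      (Eventually.of_forall fun z => hφb z.1)
  have lim : ∀ k : A × B → F, Integrable k →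
      Tendsto (fun n => ∫ z : A × B, η n z.2 • k z) atTop (𝓝 (∫ z, k z)) := by
    intro k hk
    refine tendsto_integral_of_dominated_convergence (fun z => ‖k z‖) (fun n => ?_) hk.norm
      (fun n => Eventually.of_forall fun z => ?_) (Eventually.of_forall fun z => ?_)
    · exact ((hη n).qcont.comp continuous_snd).aestronglyMeasurable.smul hk.1
    · rw [norm_smul, Real.norm_of_nonneg (hη01 n z.2).1]
      exact mul_le_of_le_one_left (norm_nonneg _) (hη01 n z.2).2
    · simpa using (hηt z.2).smul_const (k z)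
  exact tendsto_nhds_unique (lim _ i1) ((lim _ i2).neg.congr fun n => (hcl n).symm)

/-- marginals -/
theorem WDg.marginal {e : A} {u g : A × B → F} (h : WDg ((e, 0) : A × B) u g) (hu : Integrable u)
    (hg : Integrable g) : WDg e (fun x => ∫ y, u (x, y)) (fun x => ∫ y, g (x, y)) := by
  intro φ hφ
  have h1 := h.fst_test hu hg hφ
  obtain ⟨C0, hC0, hφb⟩ := hφ.qbdd
  obtain ⟨C1, hC1, hφ'b⟩ := (hφ.qfderiv_test e).qbdd
  have i1 : Integrable (fun z : A × B => fderiv ℝ φ z.1 e • u z)
      ((volume : Measure A).prod volume) :=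
    hu.bdd_smul C1 ((hφ.qcont_fderiv e).comp continuous_fst).aestronglyMeasurable
      (Eventually.of_forall fun z => hφ'b z.1)
  have i2 : Integrable (fun z : A × B => φ z.1 • g z) ((volume : Measure A).prod volume) :=
    hg.bdd_smul C0 (hφ.qcont.comp continuous_fst).aestronglyMeasurable
      (Eventually.of_forall fun z => hφb z.1)
  rw [vol_prod, integral_prod _ i1, integral_prod _ i2] at h1
  have e1 : ∫ x, fderiv ℝ φ x e • ∫ y, u (x, y) = ∫ x, ∫ y, fderiv ℝ φ x e • u (x, y) :=
    integral_congr_ae (Eventually.of_forall fun x => by simp only; rw [integral_smul])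
  have e2 : ∫ x, φ x • ∫ y, g (x, y) = ∫ x, ∫ y, φ x • g (x, y) :=
    integral_congr_ae (Eventually.of_forall fun x => by simp only; rw [integral_smul])
  rw [e1, e2, h1]

end prodspace

end Pool.Agent.H690.HK
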