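import Pool.Agent.H690.HK.SpD

/-! Task SPLIT of the project HK of helper998, part E: product rule, marginal of the square. -/

set_option autoImplicit false
set_option linter.unusedSectionVars false

noncomputable section

namespace Pool.Agent.H690.HK

open MeasureTheory Filter Topology Set ContinuousLinearMap
open scoped ENNReal NNReal Convolution

open Pool.Agent.H998.HK

/-- Cauchy-Schwarz -/
theorem cs_sq {Y : Type} [MeasurableSpace Y] {μ : Measure Y} {p q : Y → ℝ} (hp : MemLp p 2 μ)
    (hq : MemLp q 2 μ) : (∫ y, p y * q y ∂μ) ^ 2 ≤ (∫ y, p y ^ 2 ∂μ) * ∫ y, q y ^ 2 ∂μ := by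
  have i1 : Integrable (fun y => p y ^ 2) μ := hp.integrable_sq
  have i2 : Integrable (fun y => q y ^ 2) μ := hq.integrable_sq
  have i3 : Integrable (fun y => p y * q y) μ := hp.integrable_mul hq
  have h : ∀ t : ℝ, 0 ≤ (∫ y, q y ^ 2 ∂μ) * (t * t) + (2 * ∫ y, p y * q y ∂μ) * t +
      ∫ y, p y ^ 2 ∂μ := by
    intro t
    have h1 : 0 ≤ ∫ y, (p y + t * q y) ^ 2 ∂μ := integral_nonneg fun y => sq_nonneg _
    have h2 : ∫ y, (p y + t * q y) ^ 2 ∂μ = ∫ y, (p y ^ 2 + ((2 * t) * (p y * q y) +
        (t * t) * q y ^ 2)) ∂μ := by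
      refine integral_congr_ae (Eventually.of_forall fun y => ?_)
      simp only; ring
    have i4 : Integrable (fun y => (2 * t) * (p y * q y)) μ := i3.const_mul _
    have i5 : Integrable (fun y => (t * t) * q y ^ 2) μ := i2.const_mul _
    have i6 : Integrable (fun y => (2 * t) * (p y * q y) + (t * t) * q y ^ 2) μ := i4.add i5
    rw [h2, integral_add i1 i6, integral_add i4 i5, integral_const_mul, integral_const_mul] at h1
    linarith
  have h3 := discrim_le_zero h
  rw [discrim] at h3
  nlinarith

section prodspace2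

variable {A : Type} [NormedAddCommGroup A] [NormedSpace ℝ A] [FiniteDimensional ℝ A]
  [MeasureSpace A] [BorelSpace A] [(volume : Measure A).IsAddHaarMeasure]
  [SecondCountableTopology A]
variable {B : Type} [NormedAddCommGroup B] [NormedSpace ℝ B] [FiniteDimensional ℝ B]
  [MeasureSpace B] [BorelSpace B] [(volume : Measure B).IsAddHaarMeasure]
  [SecondCountableTopology B]
variable {F : Type} [NormedAddCommGroup F] [NormedSpace ℝ F] [CompleteSpace F]

theorem slice_test {φ : A × B → ℝ} (hφ : Test φ) (y : B) : Test (fun x => φ (x, y)) := by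
  refine ⟨hφ.1.comp (contDiff_id.prodMk contDiff_const), ?_⟩
  refine HasCompactSupport.intro (hφ.2.isCompact.image continuous_fst) ?_
  intro x hx
  by_contra h
  exact hx ⟨(x, y), subset_tsupport _ h, rfl⟩

theorem slice_fderiv {φ : A × B → ℝ} (hφ : Test φ) (x : A) (y : B) (e : A) :
    fderiv ℝ (fun x => φ (x, y)) x e = fderiv ℝ φ (x, y) (e, 0) := by
  have h1 : HasFDerivAt (fun x => φ (x, y))
      ((fderiv ℝ φ (x, y)).comp (ContinuousLinearMap.inl ℝ A B)) x :=
    (hφ.qdiff (x, y)).hasFDerivAt.comp x (hasFDerivAt_prodMk_left x y)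
  rw [h1.fderiv]; rfl

theorem locInt_fst {a : A → F} (ha : LocallyIntegrable a) :
    LocallyIntegrable (fun z : A × B => a z.1) := by
  rw [locallyIntegrable_iff]
  intro K hK
  have h1 : IntegrableOn a (Prod.fst '' K) := ha.integrableOn_isCompact (hK.image continuous_fst)
  have h2 : volume (Prod.snd '' K) < ∞ := (hK.image continuous_snd).measure_lt_top
  have h3 : IntegrableOn (fun z : A × B => a z.1) ((Prod.fst '' K) ×ˢ (Prod.snd '' K)) volume := by
    rw [IntegrableOn, vol_prod, ← Measure.prod_restrict]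
    have : IsFiniteMeasure ((volume : Measure B).restrict (Prod.snd '' K)) :=
      ⟨by simpa using h2⟩
    exact Integrable.comp_fst h1 _
  exact h3.mono_set (fun z hz => ⟨⟨z, hz, rfl⟩, ⟨z, hz, rfl⟩⟩)

theorem WDg.of_fst {e : A} {a b : A → F} (h : WDg e a b) (ha : LocallyIntegrable a)
    (hb : LocallyIntegrable b) :
    WDg ((e, 0) : A × B) (fun z => a z.1) (fun z => b z.1) := by
  intro φ hφ
  have i1 : Integrable (fun z : A × B => fderiv ℝ φ z (e, 0) • a z.1)
      ((volume : Measure A).prod volume) := hφ.qfderiv_smul_int (e, 0) (locInt_fst ha)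
  have i2 : Integrable (fun z : A × B => φ z • b z.1)
      ((volume : Measure A).prod volume) := hφ.qsmul_int (locInt_fst hb)
  rw [vol_prod, integral_prod_symm _ i1, integral_prod_symm _ i2, ← integral_neg]
  refine integral_congr_ae (Eventually.of_forall fun y => ?_)
  have h1 := h _ (slice_test hφ y)
  simp only [slice_fderiv hφ] at h1
  exact h1

theorem memLp_fst_cs {b : A → ℝ} (hb : MemLp b 2 volume) {ψ : A × B → ℝ} (hψ : Continuous ψ)
    (hc : HasCompactSupport ψ) : MemLp (fun z : A × B => b z.1 * ψ z) 2 volume := by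
  have hm : AEStronglyMeasurable (fun z : A × B => b z.1 * ψ z) volume := by
    have : AEStronglyMeasurable (fun z : A × B => b z.1) ((volume : Measure A).prod volume) :=
      hb.1.comp_fst
    exact this.mul hψ.aestronglyMeasurable
  refine (memLp_two_iff_integrable_sq hm).2 ?_
  have h2 : LocallyIntegrable (fun x => b x ^ 2) volume := hb.integrable_sq.locallyIntegrable
  have h4 : HasCompactSupport (fun z => ψ z ^ 2) :=
    hc.comp_left (g := fun t : ℝ => t ^ 2) (by simp)
  have h3 := cs_smul_integrable (hψ.pow 2) h4 (locInt_fst (B := B) h2)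
  refine h3.congr (Eventually.of_forall fun z => ?_)
  simp only [Pi.pow_apply, smul_eq_mul]
  ring

/-- slices of an `L²` function -/
theorem slice_memLp {f : A × B → F} (hf : MemLp f 2 volume) :
    ∀ᵐ x, MemLp (fun y => f (x, y)) 2 (volume : Measure B) := by
  have h1 : AEStronglyMeasurable f ((volume : Measure A).prod volume) := hf.1
  have h2 : Integrable (fun z => ‖f z‖ ^ 2) ((volume : Measure A).prod volume) :=
    (memLp_two_iff_integrable_sq_norm hf.1).1 hf
  filter_upwards [h1.prodMk_left, h2.prod_right_ae] with x hx hx2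
  exact (memLp_two_iff_integrable_sq_norm hx).2 hx2

theorem prod_rule_real {e : A} {a b : A → ℝ} (h : WDg e a b) (ha : AEStronglyMeasurable a volume)
    {M : ℝ} (hM : ∀ x, |a x| ≤ M) (hb : MemLp b 2 volume) {u g : A × B → ℝ}
    (hu : WDg ((e, 0) : A × B) u g) (hu2 : MemLp u 2 volume) (hg2 : MemLp g 2 volume) :
    WDg ((e, 0) : A × B) (fun z => a z.1 * u z) (fun z => a z.1 * g z + b z.1 * u z) := by
  intro φ hφ
  have hul : LocallyIntegrable u := hu2.locallyIntegrable (by norm_num)
  have hgl : LocallyIntegrable g := hg2.locallyIntegrable (by norm_num)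
  set P : A × B → ℝ := fun z => φ z • u z with hP
  set Q : A × B → ℝ := fun z => φ z • g z + fderiv ℝ φ z (e, 0) • u z with hQ
  have hPi : Integrable P ((volume : Measure A).prod volume) := hφ.qsmul_int hul
  have hQi : Integrable Q ((volume : Measure A).prod volume) :=
    (hφ.qsmul_int hgl).add (hφ.qfderiv_smul_int (e, 0) hul)
  have hPQ : WDg ((e, 0) : A × B) P Q := hu.smooth_mul hul hgl hφ.1
  have hUV := hPQ.marginal hPi hQi
  set U : A → ℝ := fun x => ∫ y, P (x, y) with hU
  set V : A → ℝ := fun x => ∫ y, Q (x, y) with hV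
  have hUi : Integrable U := hPi.integral_prod_left
  have hVi : Integrable V := hQi.integral_prod_left
  have hUc : HasCompactSupport U := by
    refine HasCompactSupport.intro (hφ.2.isCompact.image continuous_fst) ?_
    intro x hx
    have : ∀ y, P (x, y) = 0 := by
      intro y
      have h0 : φ (x, y) = 0 := by
        by_contra h
        exact hx ⟨(x, y), subset_tsupport _ h, rfl⟩
      simp [hP, h0]
    simp only [hU, this, integral_zero]
  obtain ⟨C, hC, hφb⟩ := hφ.qbdd
  set K : Set B := Prod.snd '' tsupport φ with hK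
  have hKc : IsCompact K := hφ.2.isCompact.image continuous_snd
  have hU2 : MemLp U 2 volume := by
    refine (memLp_two_iff_integrable_sq hUi.1).2 ?_
    have i3 : Integrable (fun z => ‖u z‖ ^ 2) ((volume : Measure A).prod volume) :=
      (memLp_two_iff_integrable_sq_norm hu2.1).1 hu2
    have i4 : Integrable fun x => ∫ y, ‖u (x, y)‖ ^ 2 := i3.integral_prod_left
    refine (i4.const_mul (C ^ 2 * (volume K).toReal)).mono' (hUi.1.pow 2) ?_
    filter_upwards [slice_memLp hu2] with x hx
    have hφx : MemLp (fun y => φ (x, y)) 2 (volume : Measure B) := by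
      have hcx : Continuous fun y => φ (x, y) := hφ.qcont.comp (Continuous.prodMk_right x)
      refine hcx.memLp_of_hasCompactSupport ?_
      refine HasCompactSupport.intro hKc ?_
      intro y hy
      by_contra h
      exact hy ⟨(x, y), subset_tsupport _ h, rfl⟩
    have h5 := cs_sq hφx hx
    have h6 : ∫ y, φ (x, y) ^ 2 ≤ C ^ 2 * (volume K).toReal := by
      have h7 : ∀ y, φ (x, y) ^ 2 ≤ K.indicator (fun _ => C ^ 2) y := by
        intro y
        by_cases hy : y ∈ K
        · rw [indicator_of_mem hy, ← sq_abs]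
          exact pow_le_pow_left₀ (abs_nonneg _) (hφb _) 2
        · rw [indicator_of_notMem hy]
          have : φ (x, y) = 0 := by
            by_contra h
            exact hy ⟨(x, y), subset_tsupport _ h, rfl⟩
          simp [this]
      have h8 : Integrable (K.indicator fun _ => C ^ 2) (volume : Measure B) := by
        refine (integrable_indicator_iff hKc.measurableSet).2 ?_
        exact integrableOn_const (hs := hKc.measure_lt_top.ne)
      calc ∫ y, φ (x, y) ^ 2 ≤ ∫ y, K.indicator (fun _ => C ^ 2) y :=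
            integral_mono_of_nonneg (Eventually.of_forall fun y => sq_nonneg _) h8
              (Eventually.of_forall h7)
        _ = C ^ 2 * (volume K).toReal := by
            rw [integral_indicator hKc.measurableSet, setIntegral_const, smul_eq_mul, mul_comm]
            rfl
    have h9 : 0 ≤ ∫ y, u (x, y) ^ 2 := integral_nonneg fun y => sq_nonneg _
    rw [Real.norm_of_nonneg (sq_nonneg _)]
    calc U x ^ 2 = (∫ y, φ (x, y) * u (x, y)) ^ 2 := by simp only [hU, hP, smul_eq_mul]
      _ ≤ (∫ y, φ (x, y) ^ 2) * ∫ y, u (x, y) ^ 2 := h5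
      _ ≤ C ^ 2 * (volume K).toReal * ∫ y, u (x, y) ^ 2 := mul_le_mul_of_nonneg_right h6 h9
      _ = C ^ 2 * (volume K).toReal * ∫ y, ‖u (x, y)‖ ^ 2 := by
          simp only [Real.norm_eq_abs, sq_abs]
  have hmain := ibp_L2 h ha hM hb hUV hU2 hUc hVi
  -- left side
  have ham : AEStronglyMeasurable (fun z : A × B => a z.1) ((volume : Measure A).prod volume) :=
    ha.comp_fst
  have j1 : Integrable (fun z : A × B => a z.1 * Q z) ((volume : Measure A).prod volume) :=
    hQi.bdd_smul M ham (Eventually.of_forall fun z => hM z.1)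
  have hbφ : MemLp (fun z : A × B => b z.1 * φ z) 2 volume := memLp_fst_cs hb hφ.qcont hφ.2
  have j2 : Integrable (fun z : A × B => b z.1 * P z) ((volume : Measure A).prod volume) := by
    have := hbφ.integrable_mul hu2
    refine this.congr (Eventually.of_forall fun z => ?_)
    simp only [hP, smul_eq_mul, Pi.mul_apply]
    ring
  have k1 : ∫ x, a x * V x = ∫ z : A × B, a z.1 * Q z := by
    rw [vol_prod, integral_prod _ j1]
    refine integral_congr_ae (Eventually.of_forall fun x => ?_)
    simp only [hV]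
    rw [integral_const_mul]
  have k2 : ∫ x, b x * U x = ∫ z : A × B, b z.1 * P z := by
    rw [vol_prod, integral_prod _ j2]
    refine integral_congr_ae (Eventually.of_forall fun x => ?_)
    simp only [hU]
    rw [integral_const_mul]
  rw [k1, k2] at hmain
  have l1 : Integrable (fun z : A × B => a z.1 * (φ z • g z)) :=
    (hφ.qsmul_int hgl).bdd_smul M ham (Eventually.of_forall fun z => hM z.1)
  have l2 : Integrable (fun z : A × B => a z.1 * (fderiv ℝ φ z (e, 0) • u z)) :=
    (hφ.qfderiv_smul_int (e, 0) hul).bdd_smul M ham (Eventually.of_forall fun z => hM z.1)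
  have m1 : ∫ z : A × B, a z.1 * Q z = (∫ z : A × B, a z.1 * (φ z • g z)) +
      ∫ z : A × B, a z.1 * (fderiv ℝ φ z (e, 0) • u z) := by
    rw [← integral_add l1 l2]
    refine integral_congr_ae (Eventually.of_forall fun z => ?_)
    simp only [hQ]
    ring
  have j2' : Integrable (fun z : A × B => b z.1 * P z) := j2
  have m2 : ∫ z : A × B, φ z • (a z.1 * g z + b z.1 * u z) =
      (∫ z : A × B, a z.1 * (φ z • g z)) + ∫ z : A × B, b z.1 * P z := by
    rw [← integral_add l1 j2']
    refine integral_congr_ae (Eventually.of_forall fun z => ?_)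
    simp only [hP, smul_eq_mul]
    ring
  have m3 : ∫ z : A × B, fderiv ℝ φ z (e, 0) • (a z.1 * u z) =
      ∫ z : A × B, a z.1 * (fderiv ℝ φ z (e, 0) • u z) := by
    refine integral_congr_ae (Eventually.of_forall fun z => ?_)
    simp only [smul_eq_mul]
    ring
  rw [m2, m3]
  rw [m1] at hmain
  linarith

theorem WDg.of_re_im {e : A} {u g : A → ℂ} (hu : LocallyIntegrable u)
    (hg : ∀ φ : A → ℝ, Test φ → Integrable fun z => φ z • g z)
    (h1 : WDg e (fun z => (u z).re) (fun z => (g z).re))
    (h2 : WDg e (fun z => (u z).im) (fun z => (g z).im)) : WDg e u g := by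
  intro φ hφ
  have i1 := hφ.qfderiv_smul_int e hu
  have i2 := hg φ hφ
  have e1 := h1 φ hφ
  have e2 := h2 φ hφ
  apply Complex.ext
  · rw [Complex.neg_re]
    have r1 : (∫ z, fderiv ℝ φ z e • u z).re = ∫ z, fderiv ℝ φ z e • (u z).re := by
      have := Complex.reCLM.integral_comp_comm i1
      simp only [Complex.reCLM_apply] at this
      rw [← this]
      refine integral_congr_ae (Eventually.of_forall fun z => ?_)
      simp
    have r2 : (∫ z, φ z • g z).re = ∫ z, φ z • (g z).re := by
      have := Complex.reCLM.integral_comp_comm i2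
      simp only [Complex.reCLM_apply] at this
      rw [← this]
      refine integral_congr_ae (Eventually.of_forall fun z => ?_)
      simp
    rw [r1, r2, e1]
  · rw [Complex.neg_im]
    have r1 : (∫ z, fderiv ℝ φ z e • u z).im = ∫ z, fderiv ℝ φ z e • (u z).im := by
      have := Complex.imCLM.integral_comp_comm i1
      simp only [Complex.imCLM_apply] at this
      rw [← this]
      refine integral_congr_ae (Eventually.of_forall fun z => ?_)
      simp
    have r2 : (∫ z, φ z • g z).im = ∫ z, φ z • (g z).im := by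
      have := Complex.imCLM.integral_comp_comm i2
      simp only [Complex.imCLM_apply] at this
      rw [← this]
      refine integral_congr_ae (Eventually.of_forall fun z => ?_)
      simp
    rw [r1, r2, e2]

/-- product rule, complex valued -/
theorem prod_rule {e : A} {a b : A → ℝ} (h : WDg e a b) (ha : AEStronglyMeasurable a volume)
    {M : ℝ} (hM : ∀ x, |a x| ≤ M) (hb : MemLp b 2 volume) {f D : A × B → ℂ}
    (hf : WDg ((e, 0) : A × B) f D) (hf2 : MemLp f 2 volume) (hD2 : MemLp D 2 volume) :
    WDg ((e, 0) : A × B) (fun z => (a z.1 : ℂ) * f z)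
      (fun z => (a z.1 : ℂ) * D z + (b z.1 : ℂ) * f z) := by
  have hfl : LocallyIntegrable f := hf2.locallyIntegrable (by norm_num)
  have hDl : LocallyIntegrable D := hD2.locallyIntegrable (by norm_num)
  have hre := prod_rule_real h ha hM hb (hf.clm hfl hDl Complex.reCLM) (memLp_re hf2)
    (memLp_re hD2)
  have him := prod_rule_real h ha hM hb (hf.clm hfl hDl Complex.imCLM) (memLp_im hf2)
    (memLp_im hD2)
  have ham : AEStronglyMeasurable (fun z : A × B => a z.1) volume := by
    have : AEStronglyMeasurable (fun z : A × B => a z.1) ((volume : Measure A).prod volume) :=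
      ha.comp_fst
    exact this
  have haf : ∀ k : A × B → ℂ, Integrable k → Integrable fun z => (a z.1 : ℂ) * k z := by
    intro k hk
    have := hk.bdd_smul M ham (Eventually.of_forall fun z => hM z.1)
    refine this.congr (Eventually.of_forall fun z => ?_)
    simp
  have haf2 : MemLp (fun z : A × B => (a z.1 : ℂ) * f z) 2 volume := by
    refine (hf2.const_mul (M : ℂ)).mono ?_ (Eventually.of_forall fun z => ?_)
    · exact (Complex.continuous_ofReal.comp_aestronglyMeasurable ham).mul hf2.1
    · rw [norm_mul, norm_mul, Complex.norm_real, Complex.norm_real, Real.norm_eq_abs,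
        Real.norm_eq_abs]
      exact mul_le_mul_of_nonneg_right ((hM z.1).trans (le_abs_self M)) (norm_nonneg _)
  refine WDg.of_re_im (haf2.locallyIntegrable (by norm_num)) ?_ ?_ ?_
  · intro φ hφ
    have i1 := haf _ (hφ.qsmul_int hDl)
    have hbφ : MemLp (fun z : A × B => b z.1 * φ z) 2 volume := memLp_fst_cs hb hφ.qcont hφ.2
    have hbφ' : MemLp (fun z : A × B => ((b z.1 * φ z : ℝ) : ℂ)) 2 volume := hbφ.ofReal
    have i2 : Integrable (fun z : A × B => ((b z.1 * φ z : ℝ) : ℂ) * f z) :=
      hbφ'.integrable_mul hf2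
    refine (i1.add i2).congr (Eventually.of_forall fun z => ?_)
    simp only [Pi.add_apply, Complex.real_smul, Complex.ofReal_mul]
    ring
  · have e1 : (fun z : A × B => ((a z.1 : ℂ) * f z).re) = fun z => a z.1 * Complex.reCLM (f z) := by
      funext z; simp
    have e2 : (fun z : A × B => ((a z.1 : ℂ) * D z + (b z.1 : ℂ) * f z).re) =
        fun z => a z.1 * Complex.reCLM (D z) + b z.1 * Complex.reCLM (f z) := by
      funext z; simp
    rw [e1, e2]
    exact hre
  · have e1 : (fun z : A × B => ((a z.1 : ℂ) * f z).im) = fun z => a z.1 * Complex.imCLM (f z) := by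
      funext z; simp
    have e2 : (fun z : A × B => ((a z.1 : ℂ) * D z + (b z.1 : ℂ) * f z).im) =
        fun z => a z.1 * Complex.imCLM (D z) + b z.1 * Complex.imCLM (f z) := by
      funext z; simp
    rw [e1, e2]
    exact him

/-- marginal of `|f|²` -/
def tau (f : A × B → ℂ) (x : A) : ℝ := ∫ y, ‖f (x, y)‖ ^ 2

/-- its derivative -/
def sig (f D : A × B → ℂ) (x : A) : ℝ := ∫ y, 2 * rp (f (x, y)) (D (x, y))

theorem tau_nonneg (f : A × B → ℂ) (x : A) : 0 ≤ tau f x :=
  integral_nonneg fun y => sq_nonneg _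

theorem sqn_int {f : A × B → ℂ} (hf : MemLp f 2 volume) :
    Integrable (fun z => ‖f z‖ ^ 2) ((volume : Measure A).prod volume) :=
  (memLp_two_iff_integrable_sq_norm hf.1).1 hf

theorem rp_int {f D : A × B → ℂ} (hf : MemLp f 2 volume) (hD : MemLp D 2 volume) :
    Integrable (fun z => 2 * rp (f z) (D z)) ((volume : Measure A).prod volume) := by
  have h1 : Integrable (fun z => (f z).re * (D z).re) := (memLp_re hf).integrable_mul (memLp_re hD)
  have h2 : Integrable (fun z => (f z).im * (D z).im) := (memLp_im hf).integrable_mul (memLp_im hD)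
  exact (h1.add h2).const_mul 2

theorem tau_int {f : A × B → ℂ} (hf : MemLp f 2 volume) : Integrable (tau f) :=
  (sqn_int hf).integral_prod_left

theorem sig_int {f D : A × B → ℂ} (hf : MemLp f 2 volume) (hD : MemLp D 2 volume) :
    Integrable (sig f D) := (rp_int hf hD).integral_prod_left

theorem WDg_tau {e : A} {f D : A × B → ℂ} (h : WDg ((e, 0) : A × B) f D) (hf : MemLp f 2 volume)
    (hD : MemLp D 2 volume) : WDg e (tau f) (sig f D) :=
  (h.normSq hf hD).marginal (sqn_int hf) (rp_int hf hD)

theorem sig_sq_le {f D : A × B → ℂ} (hf : MemLp f 2 volume) (hD : MemLp D 2 volume) :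
    ∀ᵐ x, sig f D x ^ 2 ≤ 4 * (tau f x * tau D x) := by
  filter_upwards [slice_memLp hf, slice_memLp hD] with x h1 h2
  have i1 : Integrable (fun y => ‖f (x, y)‖ * ‖D (x, y)‖) := h1.norm.integrable_mul h2.norm
  have h3 : |sig f D x| ≤ 2 * ∫ y, ‖f (x, y)‖ * ‖D (x, y)‖ := by
    rw [← integral_const_mul]
    refine abs_integral_le_integral_abs.trans ?_
    refine integral_mono_of_nonneg (Eventually.of_forall fun y => abs_nonneg _) (i1.const_mul 2)
      (Eventually.of_forall fun y => ?_)
    simp only
    rw [abs_mul, abs_two]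
    exact mul_le_mul_of_nonneg_left (abs_rp_le _ _) (by norm_num)
  have h4 := cs_sq h1.norm h2.norm
  have h5 : 0 ≤ ∫ y, ‖f (x, y)‖ * ‖D (x, y)‖ := integral_nonneg fun _ => by positivity
  have h6 : sig f D x ^ 2 ≤ (2 * ∫ y, ‖f (x, y)‖ * ‖D (x, y)‖) ^ 2 := by
    rw [← sq_abs (sig f D x)]
    exact pow_le_pow_left₀ (abs_nonneg _) h3 2
  calc sig f D x ^ 2 ≤ (2 * ∫ y, ‖f (x, y)‖ * ‖D (x, y)‖) ^ 2 := h6
    _ = 4 * (∫ y, ‖f (x, y)‖ * ‖D (x, y)‖) ^ 2 := by ring
    _ ≤ 4 * (tau f x * tau D x) := mul_le_mul_of_nonneg_left h4 (by norm_num)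

/-- integrals over the first variable -/
theorem int_fst_tau {f : A × B → ℂ} (hf : MemLp f 2 volume) {a : A → ℝ}
    (ha : AEStronglyMeasurable a volume) {M : ℝ} (hM : ∀ x, |a x| ≤ M) :
    ∫ z : A × B, a z.1 * ‖f z‖ ^ 2 = ∫ x, a x * tau f x := by
  have j1 : Integrable (fun z : A × B => a z.1 * ‖f z‖ ^ 2) ((volume : Measure A).prod volume) :=
    (sqn_int hf).bdd_smul M ha.comp_fst (Eventually.of_forall fun z => hM z.1)
  rw [vol_prod, integral_prod _ j1]
  refine integral_congr_ae (Eventually.of_forall fun x => ?_)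
  simp only [tau]
  rw [integral_const_mul]

/-- almost everywhere statements in the first variable -/
theorem ae_fst {p : A → Prop} (h : ∀ᵐ x, p x) : ∀ᵐ z : A × B, p z.1 := by
  have : ∀ᵐ z ∂((volume : Measure A).prod (volume : Measure B)), p z.1 :=
    Measure.quasiMeasurePreserving_fst.ae h
  exact this

theorem ae_slice {p : A × B → Prop} (h : ∀ᵐ z, p z) : ∀ᵐ x, ∀ᵐ y, p (x, y) := by
  have h' : ∀ᵐ z ∂((volume : Measure A).prod (volume : Measure B)), p z := h
  exact Measure.ae_ae_of_ae_prod h'

end prodspace2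

end Pool.Agent.H690.HK
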