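import Pool.Agent.H690.HK.SpE
import Pool.Agent.H998.HK.Spec3
import Pool.Agent.H825.HK.Two2

/-! Task SPLIT of the project HK of helper998, part F: the two pieces of a solution. -/

set_option autoImplicit false
set_option linter.unusedSectionVars false

noncomputable section

namespace Pool.Agent.H690.HK

open MeasureTheory Filter Topology Set ContinuousLinearMap
open scoped ENNReal NNReal Convolution ComplexConjugate

open Pool.Agent.H998.HK
open Pool.Agent.H825.HK (integrable_form h1_test measurable_pot)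

/-- the indicator function of a set -/
def oneI {T : Type} (A : Set T) (x : T) : ℝ := A.indicator (fun _ => (1 : ℝ)) x

theorem oneI_of_mem {T : Type} {A : Set T} {x : T} (h : x ∈ A) : oneI A x = 1 := by
  simp [oneI, h]

theorem oneI_of_notMem {T : Type} {A : Set T} {x : T} (h : x ∉ A) : oneI A x = 0 := by
  simp [oneI, h]

theorem oneI_abs {T : Type} (A : Set T) (x : T) : |oneI A x| ≤ 1 := by
  by_cases h : x ∈ A
  · simp [oneI_of_mem h]
  · simp [oneI_of_notMem h]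

theorem oneI_nonneg {T : Type} (A : Set T) (x : T) : 0 ≤ oneI A x := by
  by_cases h : x ∈ A
  · simp [oneI_of_mem h]
  · simp [oneI_of_notMem h]

theorem oneI_le_one {T : Type} (A : Set T) (x : T) : oneI A x ≤ 1 :=
  (le_abs_self _).trans (oneI_abs A x)

theorem oneI_sq {T : Type} (A : Set T) (x : T) : oneI A x ^ 2 = oneI A x := by
  by_cases h : x ∈ A
  · simp [oneI_of_mem h]
  · simp [oneI_of_notMem h]

theorem oneI_compl {T : Type} (A : Set T) (x : T) : oneI Aᶜ x = 1 - oneI A x := by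
  by_cases h : x ∈ A
  · rw [oneI_of_mem h, oneI_of_notMem (by simpa using h)]; ring
  · rw [oneI_of_notMem h, oneI_of_mem (by simpa using h)]; ring

theorem oneI_meas {T : Type} [MeasurableSpace T] {A : Set T} (hA : MeasurableSet A) :
    Measurable (oneI A) := measurable_const.indicator hA

section gen1

variable {X : Type} [NormedAddCommGroup X] [NormedSpace ℝ X] [FiniteDimensional ℝ X]
  [MeasureSpace X] [BorelSpace X] [(volume : Measure X).IsAddHaarMeasure]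
variable {F : Type} [NormedAddCommGroup F] [NormedSpace ℝ F] [CompleteSpace F]

theorem WDg.congr {e : X} {u g u' g' : X → F} (h : WDg e u g) (hu : u =ᵐ[volume] u')
    (hg : g =ᵐ[volume] g') : WDg e u' g' := by
  intro φ hφ
  have h1 := h φ hφ
  have e1 : ∫ z, fderiv ℝ φ z e • u z = ∫ z, fderiv ℝ φ z e • u' z :=
    integral_congr_ae (by filter_upwards [hu] with z hz; rw [hz])
  have e2 : ∫ z, φ z • g z = ∫ z, φ z • g' z :=
    integral_congr_ae (by filter_upwards [hg] with z hz; rw [hz])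
  rw [← e1, ← e2, h1]

end gen1

instance haarYn (n : ℕ) : (volume : Measure (Yn n)).IsAddHaarMeasure := by
  rw [volume_pi]; infer_instance

variable {n : ℕ}

/-- the piece of `f` on `{x ∈ A}` -/
def chi (A : Set E3) (f : Xn n → ℂ) (z : Xn n) : ℂ := oneI A z.1 • f z

/-- multiplication by the indicator in the second variable -/
def gchi (G : Set (Yn n)) (f : Xn n → ℂ) (z : Xn n) : ℂ := oneI G z.2 • f z

theorem chi_eq_indicator (A : Set E3) (f : Xn n → ℂ) :
    chi A f = {z : Xn n | z.1 ∈ A}.indicator f := by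
  funext z
  by_cases h : z.1 ∈ A
  · simp [chi, oneI_of_mem h, h]
  · simp [chi, oneI_of_notMem h, h]

theorem memLp_bdd {f : Xn n → ℂ} (hf : MemLp f 2) {a : Xn n → ℝ} (ha : Measurable a)
    (hM : ∀ x, |a x| ≤ 1) : MemLp (fun z => a z • f z) 2 := by
  refine hf.mono (ha.aestronglyMeasurable.smul hf.1) (Eventually.of_forall fun z => ?_)
  rw [norm_smul]
  exact mul_le_of_le_one_left (norm_nonneg _) (hM z)

theorem chi_memLp {A : Set E3} (hA : MeasurableSet A) {f : Xn n → ℂ} (hf : MemLp f 2) :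
    MemLp (chi A f) 2 :=
  memLp_bdd hf ((oneI_meas hA).comp measurable_fst) fun _ => oneI_abs _ _

theorem gchi_memLp {G : Set (Yn n)} (hG : MeasurableSet G) {f : Xn n → ℂ} (hf : MemLp f 2) :
    MemLp (gchi G f) 2 :=
  memLp_bdd hf ((oneI_meas hG).comp measurable_snd) fun _ => oneI_abs _ _

theorem L2_loc {f : Xn n → ℂ} (hf : MemLp f 2) : LocallyIntegrable f :=
  hf.locallyIntegrable (by norm_num)

/-- the pieces agree with each other -/
theorem chi_ae_gchi {A : Set E3} {G : Set (Yn n)} {f D : Xn n → ℂ}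
    (hAG : ∀ᵐ z : Xn n, f z ≠ 0 → (z.1 ∈ A ↔ z.2 ∈ G)) (h0 : ∀ᵐ z, f z = 0 → D z = 0) :
    chi A D =ᵐ[volume] gchi G D := by
  filter_upwards [hAG, h0] with z h1 h2
  by_cases hz : f z = 0
  · simp [chi, gchi, h2 hz]
  · have := h1 hz
    by_cases hA : z.1 ∈ A
    · simp [chi, gchi, oneI_of_mem hA, oneI_of_mem (this.1 hA)]
    · have hG : z.2 ∉ G := fun h => hA (this.2 h)
      simp [chi, gchi, oneI_of_notMem hA, oneI_of_notMem hG]

/-- part (0) -/
theorem H1_chi {A : Set E3} {G : Set (Yn n)} {f : Xn n → ℂ} {Dx : Fin 3 → Xn n → ℂ}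
    {Dy : Fin n → Fin 3 → Xn n → ℂ} (hA : MeasurableSet A) (hG : MeasurableSet G)
    (hf : H1 n f Dx Dy) (hAG : ∀ᵐ z : Xn n, f z ≠ 0 → (z.1 ∈ A ↔ z.2 ∈ G)) :
    H1 n (chi A f) (fun i => gchi G (Dx i)) (fun j i => chi A (Dy j i)) := by
  refine ⟨chi_memLp hA hf.f2, fun i => gchi_memLp hG (hf.x2 i), fun j i => chi_memLp hA (hf.y2 j i),
    fun i => ?_, fun j i => ?_⟩
  · have h1 : WDg (ex n i) f (Dx i) := hf.wx i
    have h2 := WDg.mul_snd (A := E3) (B := Yn n) (e := EuclideanSpace.single i (1 : ℝ)) h1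
      (L2_loc hf.f2) (L2_loc (hf.x2 i)) (β := oneI G) (oneI_meas hG).aestronglyMeasurable
      (oneI_abs G)
    have h3 : chi A f =ᵐ[volume] gchi G f := chi_ae_gchi hAG (Eventually.of_forall fun _ h => h)
    exact h2.congr h3.symm EventuallyEq.rfl
  · have h1 : WDg (ey n j i) f (Dy j i) := hf.wy j i
    exact WDg.mul_fst (A := E3) (B := Yn n) (e := Pi.single j (EuclideanSpace.single i (1 : ℝ))) h1
      (L2_loc hf.f2) (L2_loc (hf.y2 j i)) (β := oneI A) (oneI_meas hA).aestronglyMeasurable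
      (oneI_abs A)

theorem level_x {f : Xn n → ℂ} {Dx : Fin 3 → Xn n → ℂ} {Dy : Fin n → Fin 3 → Xn n → ℂ}
    (hf : H1 n f Dx Dy) (i : Fin 3) : ∀ᵐ z, f z = 0 → Dx i z = 0 :=
  level_complex (e := ex n i) (hf.wx i) (L2_loc hf.f2) (L2_loc (hf.x2 i))

theorem level_y {f : Xn n → ℂ} {Dx : Fin 3 → Xn n → ℂ} {Dy : Fin n → Fin 3 → Xn n → ℂ}
    (hf : H1 n f Dx Dy) (j : Fin n) (i : Fin 3) : ∀ᵐ z, f z = 0 → Dy j i z = 0 :=
  level_complex (e := ey n j i) (hf.wy j i) (L2_loc hf.f2) (L2_loc (hf.y2 j i))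

theorem tau_chi (A : Set E3) (f : Xn n → ℂ) (x : E3) : tau (chi A f) x = oneI A x * tau f x := by
  simp only [tau, chi]
  rw [← integral_const_mul]
  refine integral_congr_ae (Eventually.of_forall fun y => ?_)
  simp only [norm_smul, mul_pow, Real.norm_eq_abs, sq_abs, oneI_sq]

/-- `τ > 0` where `f ≠ 0` -/
theorem tau_pos {f : Xn n → ℂ} (hf : MemLp f 2) : ∀ᵐ z : Xn n, f z ≠ 0 → 0 < tau f z.1 := by
  set q : ℝ → ℝ := fun t => if t = 0 then 1 else 0 with hq
  have hqm : Measurable q := Measurable.ite (measurableSet_singleton 0) measurable_const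
    measurable_const
  have hm : AEStronglyMeasurable (fun x => q (tau f x)) (volume : Measure E3) :=
    (hqm.comp_aemeasurable (tau_int hf).1.aemeasurable).aestronglyMeasurable
  have hb : ∀ x, |q (tau f x)| ≤ 1 := by
    intro x; simp only [hq]; split_ifs <;> simp
  have h1 := int_fst_tau hf hm hb
  have h2 : ∫ x, q (tau f x) * tau f x = 0 := by
    refine integral_eq_zero_of_ae (Eventually.of_forall fun x => ?_)
    simp only [hq, Pi.zero_apply]
    split_ifs with h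
    · rw [h]; ring
    · ring
  rw [h2] at h1
  have hi : Integrable (fun z : Xn n => q (tau f z.1) * ‖f z‖ ^ 2) :=
    (sqn_int hf).bdd_smul 1 hm.comp_fst (Eventually.of_forall fun z => hb z.1)
  have hn : 0 ≤ fun z : Xn n => q (tau f z.1) * ‖f z‖ ^ 2 := by
    intro z
    simp only [hq, Pi.zero_apply]
    split_ifs <;> positivity
  have h3 := (integral_eq_zero_iff_of_nonneg hn hi).1 h1
  filter_upwards [h3] with z hz hfz
  have h4 : q (tau f z.1) = 0 := by
    simp only [Pi.zero_apply, mul_eq_zero] at hz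
    rcases hz with h | h
    · exact h
    · exact absurd (by simpa using h) hfz
  refine lt_of_le_of_ne (tau_nonneg f z.1) fun h5 => ?_
  simp [hq, ← h5] at h4

/-! ### the functions `θ` -/

def th (ε s : ℝ) : ℝ := s ^ 2 / (s ^ 2 + ε ^ 2)
def th' (ε s : ℝ) : ℝ := 2 * s * ε ^ 2 / (s ^ 2 + ε ^ 2) ^ 2

theorem th_deriv {ε : ℝ} (hε : 0 < ε) (s : ℝ) : HasDerivAt (th ε) (th' ε s) s := by
  have h0 : s ^ 2 + ε ^ 2 ≠ 0 := by positivity
  have h1 : HasDerivAt (fun s : ℝ => s ^ 2) (2 * s) s := by simpa using hasDerivAt_pow 2 s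
  have h2 := h1.div (h1.add_const (ε ^ 2)) h0
  refine h2.congr_deriv ?_
  rw [th']
  field_simp
  ring

theorem th'_cont {ε : ℝ} (hε : 0 < ε) : Continuous (th' ε) := by
  unfold th'
  refine Continuous.div (by fun_prop) (by fun_prop) fun s => by positivity

theorem th_nonneg (ε s : ℝ) : 0 ≤ th ε s := by unfold th; positivity

theorem th_le_one (ε s : ℝ) : th ε s ≤ 1 := by
  unfold th
  exact div_le_one_of_le₀ (by nlinarith [sq_nonneg ε]) (by positivity)

theorem th_abs (ε s : ℝ) : |th ε s| ≤ 1 := by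
  rw [abs_of_nonneg (th_nonneg ε s)]; exact th_le_one ε s

theorem th'_abs {ε : ℝ} (hε : 0 < ε) (s : ℝ) : |th' ε s| ≤ 1 / ε := by
  have h0 : 0 < s ^ 2 + ε ^ 2 := by positivity
  rw [th', abs_div, abs_of_pos (pow_pos h0 2), div_le_div_iff₀ (pow_pos h0 2) hε, abs_mul, abs_mul,
    abs_two, abs_of_nonneg (sq_nonneg ε)]
  have h1 : 2 * |s| * ε ≤ s ^ 2 + ε ^ 2 := by nlinarith [sq_nonneg (|s| - ε), sq_abs s]
  have h2 : ε ^ 2 ≤ s ^ 2 + ε ^ 2 := by nlinarith [sq_nonneg s]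
  calc 2 * |s| * ε ^ 2 * ε = (2 * |s| * ε) * ε ^ 2 := by ring
    _ ≤ (s ^ 2 + ε ^ 2) * (s ^ 2 + ε ^ 2) := mul_le_mul h1 h2 (by positivity) h0.le
    _ = 1 * (s ^ 2 + ε ^ 2) ^ 2 := by ring

theorem th'_zero (ε : ℝ) : th' ε 0 = 0 := by simp [th']

/-- the weight of the uniform estimate -/
def wgt (ε s : ℝ) : ℝ := ε ^ 2 * (s ^ 2 + ε ^ 2) ^ (-5 / 4 : ℝ)

theorem th'_key {ε : ℝ} (hε : 0 < ε) {s : ℝ} (hs : 0 ≤ s) :
    |th' ε s| * (2 * √s) ≤ 4 * wgt ε s := by
  have h0 : 0 < s ^ 2 + ε ^ 2 := by positivity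
  have h1 : 0 ≤ th' ε s := by unfold th'; positivity
  rw [abs_of_nonneg h1, th', wgt]
  have h2 : s * √s ≤ (s ^ 2 + ε ^ 2) ^ (3 / 4 : ℝ) := by
    have h3 : s * √s = (s ^ 2) ^ (3 / 4 : ℝ) := by
      rcases eq_or_lt_of_le hs with h | h
      · rw [← h]; simp
      · rw [Real.sqrt_eq_rpow, ← Real.rpow_natCast s 2, ← Real.rpow_mul hs]
        nth_rewrite 1 [← Real.rpow_one s]
        rw [← Real.rpow_add h]
        norm_num
    rw [h3]
    exact Real.rpow_le_rpow (by positivity) (by nlinarith [sq_nonneg ε]) (by norm_num)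
  have h4 : (s ^ 2 + ε ^ 2) ^ (3 / 4 : ℝ) / (s ^ 2 + ε ^ 2) ^ 2 = (s ^ 2 + ε ^ 2) ^ (-5 / 4 : ℝ) := by
    rw [← Real.rpow_natCast (s ^ 2 + ε ^ 2) 2, ← Real.rpow_sub h0]
    norm_num
  calc 2 * s * ε ^ 2 / (s ^ 2 + ε ^ 2) ^ 2 * (2 * √s)
      = 4 * (ε ^ 2 * ((s * √s) / (s ^ 2 + ε ^ 2) ^ 2)) := by ring
    _ ≤ 4 * (ε ^ 2 * ((s ^ 2 + ε ^ 2) ^ (3 / 4 : ℝ) / (s ^ 2 + ε ^ 2) ^ 2)) := by gcongr
    _ = 4 * (ε ^ 2 * (s ^ 2 + ε ^ 2) ^ (-5 / 4 : ℝ)) := by rw [h4]

theorem wgt_nonneg (ε s : ℝ) : 0 ≤ wgt ε s := by unfold wgt; positivity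

theorem wgt_le {ε : ℝ} (hε : 0 < ε) (s : ℝ) : wgt ε s ≤ ε ^ 2 * (ε ^ 2) ^ (-5 / 4 : ℝ) := by
  unfold wgt
  refine mul_le_mul_of_nonneg_left ?_ (by positivity)
  exact Real.rpow_le_rpow_of_nonpos (by positivity) (by nlinarith [sq_nonneg s]) (by norm_num)

end Pool.Agent.H690.HK
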