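import Pool.Agent.H690.HK.SpF

/-! Task SPLIT of the project HK of helper998, part G: the form of the pieces. -/

set_option autoImplicit false
set_option linter.unusedSectionVars false

noncomputable section

namespace Pool.Agent.H690.HK

open MeasureTheory Filter Topology Set ContinuousLinearMap
open scoped ENNReal NNReal Convolution ComplexConjugate

open Pool.Agent.H998.HK
open Pool.Agent.H825.HK (integrable_form h1_test measurable_pot)

variable {n : ℕ}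

/-- the form against a real test function -/
def Phi (n : ℕ) (v : E3 → ℝ) (E : ℝ) (f : Xn n → ℂ) (Dx : Fin 3 → Xn n → ℂ)
    (Dy : Fin n → Fin 3 → Xn n → ℂ) (φ : Xn n → ℝ) (z : Xn n) : ℂ :=
  formInt n v E f Dx Dy (fun z => ((φ z : ℝ) : ℂ)) (fun i z => ((fderiv ℝ φ z (ex n i) : ℝ) : ℂ))
    (fun j i z => ((fderiv ℝ φ z (ey n j i) : ℝ) : ℂ)) z

theorem slice2_test {φ : Xn n → ℝ} (hφ : Test φ) (x : E3) : Test (fun y => φ (x, y)) := by
  refine ⟨hφ.1.comp (contDiff_const.prodMk contDiff_id), ?_⟩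
  refine HasCompactSupport.intro (hφ.2.isCompact.image continuous_snd) ?_
  intro y hy
  by_contra h
  exact hy ⟨(x, y), subset_tsupport _ h, rfl⟩

section data

variable {f : Xn n → ℂ} {Dx : Fin 3 → Xn n → ℂ} {Dy : Fin n → Fin 3 → Xn n → ℂ} {A : Set E3}
  {G : Set (Yn n)}

/-- the cutoff `θ_ε(τ_χ)` -/
def aa (A : Set E3) (f : Xn n → ℂ) (ε : ℝ) (x : E3) : ℝ := th ε (tau (chi A f) x)

/-- its derivatives -/
def bb (A : Set E3) (G : Set (Yn n)) (f : Xn n → ℂ) (Dx : Fin 3 → Xn n → ℂ) (ε : ℝ) (i : Fin 3)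
    (x : E3) : ℝ := th' ε (tau (chi A f) x) * sig (chi A f) (gchi G (Dx i)) x

theorem aa_meas (hf : H1 n f Dx Dy) (hA : MeasurableSet A) {ε : ℝ} (hε : 0 < ε) :
    AEStronglyMeasurable (aa A f ε) volume := by
  have h1 : Continuous (th ε) := continuous_iff_continuousAt.2 fun s => (th_deriv hε s).continuousAt
  exact h1.comp_aestronglyMeasurable (tau_int (chi_memLp hA hf.f2)).1

theorem WDg_aa (hf : H1 n f Dx Dy) (hA : MeasurableSet A) (hG : MeasurableSet G)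
    (hAG : ∀ᵐ z : Xn n, f z ≠ 0 → (z.1 ∈ A ↔ z.2 ∈ G)) {ε : ℝ} (hε : 0 < ε) (i : Fin 3) :
    WDg (EuclideanSpace.single i (1 : ℝ)) (aa A f ε) (bb A G f Dx ε i) := by
  have hχ := H1_chi hA hG hf hAG
  have h1 : WDg ((EuclideanSpace.single i (1 : ℝ), 0) : E3 × Yn n) (chi A f) (gchi G (Dx i)) :=
    hχ.wx i
  have h2 := WDg_tau h1 hχ.f2 (hχ.x2 i)
  exact h2.comp (tau_int hχ.f2).locallyIntegrable (sig_int hχ.f2 (hχ.x2 i)).locallyIntegrable
    (th_deriv hε) (th'_cont hε) (th'_abs hε)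

/-- the basic pointwise estimate -/
theorem bb_le (hf : H1 n f Dx Dy) (hA : MeasurableSet A) (hG : MeasurableSet G)
    (hAG : ∀ᵐ z : Xn n, f z ≠ 0 → (z.1 ∈ A ↔ z.2 ∈ G)) {ε : ℝ} (hε : 0 < ε) (i : Fin 3) :
    ∀ᵐ x, |bb A G f Dx ε i x| ≤
      4 * wgt ε (tau (chi A f) x) * √(tau (gchi G (Dx i)) x) := by
  have hχ := H1_chi hA hG hf hAG
  filter_upwards [sig_sq_le hχ.f2 (hχ.x2 i)] with x hx
  have h0 := tau_nonneg (chi A f) x
  have h1 : |sig (chi A f) (gchi G (Dx i)) x| ≤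
      2 * √(tau (chi A f) x) * √(tau (gchi G (Dx i)) x) := by
    refine abs_le_of_sq_le_sq ?_ (by positivity)
    rw [mul_pow, mul_pow, Real.sq_sqrt h0, Real.sq_sqrt (tau_nonneg _ x)]
    linarith
  rw [bb, abs_mul]
  calc |th' ε (tau (chi A f) x)| * |sig (chi A f) (gchi G (Dx i)) x|
      ≤ |th' ε (tau (chi A f) x)| * (2 * √(tau (chi A f) x) * √(tau (gchi G (Dx i)) x)) :=
        mul_le_mul_of_nonneg_left h1 (abs_nonneg _)
    _ = |th' ε (tau (chi A f) x)| * (2 * √(tau (chi A f) x)) * √(tau (gchi G (Dx i)) x) := by ring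
    _ ≤ 4 * wgt ε (tau (chi A f) x) * √(tau (gchi G (Dx i)) x) :=
        mul_le_mul_of_nonneg_right (th'_key hε h0) (Real.sqrt_nonneg _)

theorem bb_memLp (hf : H1 n f Dx Dy) (hA : MeasurableSet A) (hG : MeasurableSet G)
    (hAG : ∀ᵐ z : Xn n, f z ≠ 0 → (z.1 ∈ A ↔ z.2 ∈ G)) {ε : ℝ} (hε : 0 < ε) (i : Fin 3) :
    MemLp (bb A G f Dx ε i) 2 := by
  have hχ := H1_chi hA hG hf hAG
  have hm : AEStronglyMeasurable (bb A G f Dx ε i) volume :=
    ((th'_cont hε).comp_aestronglyMeasurable (tau_int hχ.f2).1).mul (sig_int hχ.f2 (hχ.x2 i)).1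
  refine (memLp_two_iff_integrable_sq hm).2 ?_
  set C : ℝ := 4 * (ε ^ 2 * (ε ^ 2) ^ (-5 / 4 : ℝ)) with hC
  refine ((tau_int (hχ.x2 i)).const_mul (C ^ 2)).mono' (hm.pow 2) ?_
  filter_upwards [bb_le hf hA hG hAG hε i] with x hx
  rw [Real.norm_of_nonneg (sq_nonneg _), ← sq_abs]
  have h1 : |bb A G f Dx ε i x| ≤ C * √(tau (gchi G (Dx i)) x) := by
    refine hx.trans (mul_le_mul_of_nonneg_right ?_ (Real.sqrt_nonneg _))
    rw [hC]
    exact mul_le_mul_of_nonneg_left (wgt_le hε _) (by norm_num)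
  calc |bb A G f Dx ε i x| ^ 2 ≤ (C * √(tau (gchi G (Dx i)) x)) ^ 2 :=
        pow_le_pow_left₀ (abs_nonneg _) h1 2
    _ = C ^ 2 * tau (gchi G (Dx i)) x := by rw [mul_pow, Real.sq_sqrt (tau_nonneg _ x)]

/-- the test function `θ_ε(τ_χ) φ` belongs to `H¹` -/
theorem H1_aaφ (hf : H1 n f Dx Dy) (hA : MeasurableSet A) (hG : MeasurableSet G)
    (hAG : ∀ᵐ z : Xn n, f z ≠ 0 → (z.1 ∈ A ↔ z.2 ∈ G)) {ε : ℝ} (hε : 0 < ε) {φ : Xn n → ℝ}
    (hφ : Test φ) : H1 n (fun z => ((aa A f ε z.1 * φ z : ℝ) : ℂ))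
      (fun i z => ((aa A f ε z.1 * fderiv ℝ φ z (ex n i) + bb A G f Dx ε i z.1 * φ z : ℝ) : ℂ))
      (fun j i z => ((aa A f ε z.1 * fderiv ℝ φ z (ey n j i) : ℝ) : ℂ)) := by
  have ham := aa_meas hf hA hε
  have hm : AEStronglyMeasurable (fun z : Xn n => aa A f ε z.1) volume := by
    have : AEStronglyMeasurable (fun z : Xn n => aa A f ε z.1)
        ((volume : Measure E3).prod volume) := ham.comp_fst
    exact this
  have hab : ∀ x, |aa A f ε x| ≤ 1 := fun x => th_abs _ _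
  have l2 : ∀ ψ : Xn n → ℝ, Continuous ψ → HasCompactSupport ψ →
      MemLp (fun z => aa A f ε z.1 * ψ z) 2 := by
    intro ψ h1 h2
    have h3 : MemLp ψ 2 := h1.memLp_of_hasCompactSupport h2
    refine h3.mono (hm.mul h1.aestronglyMeasurable) (Eventually.of_forall fun z => ?_)
    rw [norm_mul]
    exact mul_le_of_le_one_left (norm_nonneg _) (hab _)
  have l3 : ∀ i, MemLp (fun z : Xn n => bb A G f Dx ε i z.1 * φ z) 2 := fun i =>
    memLp_fst_cs (bb_memLp hf hA hG hAG hε i) hφ.qcont hφ.2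
  have hal : LocallyIntegrable (aa A f ε) volume := by
    intro x
    obtain ⟨s, hs⟩ := (volume : Measure E3).finiteAt_nhds x
    refine ⟨s, hs.1, ?_⟩
    have h5 : IntegrableOn (fun _ : E3 => (1 : ℝ)) s volume :=
      integrableOn_const (hs := hs.2.ne)
    exact h5.mono' ham.restrict (Eventually.of_forall fun x => hab x)
  have hbl : ∀ i, LocallyIntegrable (bb A G f Dx ε i) volume := fun i =>
    (bb_memLp hf hA hG hAG hε i).locallyIntegrable (by norm_num)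
  have r1 : ∀ i, MemLp (fun z => aa A f ε z.1 * fderiv ℝ φ z (ex n i) +
      bb A G f Dx ε i z.1 * φ z) 2 := fun i =>
    (l2 _ (hφ.qcont_fderiv _) (hφ.qcs_fderiv _)).add (l3 i)
  have r2 : ∀ j i, MemLp (fun z => aa A f ε z.1 * fderiv ℝ φ z (ey n j i)) 2 := fun j i =>
    l2 _ (hφ.qcont_fderiv _) (hφ.qcs_fderiv _)
  have w1 : ∀ i, WDg (ex n i) (fun z => aa A f ε z.1 * φ z)
      (fun z => aa A f ε z.1 * fderiv ℝ φ z (ex n i) + bb A G f Dx ε i z.1 * φ z) := by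
    intro i
    have h1 : WDg (ex n i) (fun z : Xn n => aa A f ε z.1) (fun z => bb A G f Dx ε i z.1) :=
      (WDg_aa hf hA hG hAG hε i).of_fst hal (hbl i)
    have h2 := h1.smooth_mul (locInt_fst hal) (locInt_fst (hbl i)) hφ.1
    refine h2.congr (Eventually.of_forall fun z => ?_) (Eventually.of_forall fun z => ?_)
    · simp only [smul_eq_mul]; ring
    · simp only [smul_eq_mul]; ring
  have w2 : ∀ j i, WDg (ey n j i) (fun z => aa A f ε z.1 * φ z)
      (fun z => aa A f ε z.1 * fderiv ℝ φ z (ey n j i)) := by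
    intro j i
    have h1 : WDg ((0, Pi.single j (EuclideanSpace.single i (1 : ℝ))) : E3 × Yn n) φ
        (fun z => fderiv ℝ φ z (ey n j i)) :=
      WDg_of_contDiff (hφ.1.of_le (by exact_mod_cast le_top)) _
    exact h1.mul_fst hφ.qcont.locallyIntegrable (hφ.qcont_fderiv _).locallyIntegrable ham hab
  refine ⟨(l2 φ hφ.qcont hφ.2).ofReal, fun i => (r1 i).ofReal, fun j i => (r2 j i).ofReal,
    fun i => ?_, fun j i => ?_⟩
  · exact (w1 i).clm ((l2 φ hφ.qcont hφ.2).locallyIntegrable (by norm_num))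
      ((r1 i).locallyIntegrable (by norm_num)) Complex.ofRealCLM
  · exact (w2 j i).clm ((l2 φ hφ.qcont hφ.2).locallyIntegrable (by norm_num))
      ((r2 j i).locallyIntegrable (by norm_num)) Complex.ofRealCLM

/-- the identity from the equation of `f` -/
theorem key_identity {v : E3 → ℝ} {E : ℝ} (hFB : S_FB1) (hX : XStar v) (hv : Measurable v)
    (hf : H1 n f Dx Dy) (hs : WeakSol n v E f Dx Dy) (hA : MeasurableSet A)
    (hG : MeasurableSet G) (hAG : ∀ᵐ z : Xn n, f z ≠ 0 → (z.1 ∈ A ↔ z.2 ∈ G)) {ε : ℝ}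
    (hε : 0 < ε) {φ : Xn n → ℝ} (hφ : Test φ) :
    ∫ z : Xn n, (aa A f ε z.1 : ℂ) * Phi n v E f Dx Dy φ z =
      -((1 / 2 : ℂ) * ∑ i, ∫ z : Xn n, ((bb A G f Dx ε i z.1 * φ z : ℝ) : ℂ) * Dx i z) := by
  have h1 := hs _ _ _ (H1_aaφ hf hA hG hAG hε hφ)
  have i1 : Integrable (Phi n v E f Dx Dy φ) := integrable_form hFB hX hv hf (h1_test hφ) E
  have ham := aa_meas hf hA hε
  have hm : AEStronglyMeasurable (fun z : Xn n => aa A f ε z.1) volume := by
    have : AEStronglyMeasurable (fun z : Xn n => aa A f ε z.1)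
        ((volume : Measure E3).prod volume) := ham.comp_fst
    exact this
  have i2 : Integrable (fun z : Xn n => (aa A f ε z.1 : ℂ) * Phi n v E f Dx Dy φ z) := by
    have := i1.bdd_smul 1 hm (Eventually.of_forall fun z => th_abs _ _)
    refine this.congr (Eventually.of_forall fun z => ?_)
    simp
  have i3 : ∀ i, Integrable (fun z : Xn n => ((bb A G f Dx ε i z.1 * φ z : ℝ) : ℂ) * Dx i z) := by
    intro i
    have h2 : MemLp (fun z : Xn n => bb A G f Dx ε i z.1 * φ z) 2 :=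
      memLp_fst_cs (bb_memLp hf hA hG hAG hε i) hφ.qcont hφ.2
    have h3 : MemLp (fun z : Xn n => ((bb A G f Dx ε i z.1 * φ z : ℝ) : ℂ)) 2 := h2.ofReal
    exact h3.integrable_mul (hf.x2 i)
  have e1 : ∀ z, formInt n v E f Dx Dy (fun z => ((aa A f ε z.1 * φ z : ℝ) : ℂ))
      (fun i z => ((aa A f ε z.1 * fderiv ℝ φ z (ex n i) + bb A G f Dx ε i z.1 * φ z : ℝ) : ℂ))
      (fun j i z => ((aa A f ε z.1 * fderiv ℝ φ z (ey n j i) : ℝ) : ℂ)) z =
      (aa A f ε z.1 : ℂ) * Phi n v E f Dx Dy φ z +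
        (1 / 2 : ℂ) * ∑ i, ((bb A G f Dx ε i z.1 * φ z : ℝ) : ℂ) * Dx i z := by
    intro z
    simp only [formInt, Phi, Complex.conj_ofReal]
    have s1 : ∑ i, ((aa A f ε z.1 * fderiv ℝ φ z (ex n i) + bb A G f Dx ε i z.1 * φ z : ℝ) : ℂ) *
        Dx i z = (aa A f ε z.1 : ℂ) * ∑ i, ((fderiv ℝ φ z (ex n i) : ℝ) : ℂ) * Dx i z +
          ∑ i, ((bb A G f Dx ε i z.1 * φ z : ℝ) : ℂ) * Dx i z := by
      rw [Finset.mul_sum, ← Finset.sum_add_distrib]
      refine Finset.sum_congr rfl fun i _ => ?_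
      push_cast; ring
    have s2 : ∑ j, ∑ i, ((aa A f ε z.1 * fderiv ℝ φ z (ey n j i) : ℝ) : ℂ) * Dy j i z =
        (aa A f ε z.1 : ℂ) * ∑ j, ∑ i, ((fderiv ℝ φ z (ey n j i) : ℝ) : ℂ) * Dy j i z := by
      rw [Finset.mul_sum]
      refine Finset.sum_congr rfl fun j _ => ?_
      rw [Finset.mul_sum]
      refine Finset.sum_congr rfl fun i _ => ?_
      push_cast; ring
    rw [s1, s2]
    push_cast
    ring
  simp only [e1] at h1
  have i4 : Integrable (fun z : Xn n => (1 / 2 : ℂ) *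
      ∑ i, ((bb A G f Dx ε i z.1 * φ z : ℝ) : ℂ) * Dx i z) :=
    (integrable_finsetSum _ fun i _ => i3 i).const_mul _
  rw [integral_add i2 i4, integral_const_mul, integral_finsetSum _ fun i _ => i3 i] at h1
  exact eq_neg_of_add_eq_zero_left h1

end data

end Pool.Agent.H690.HK
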