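import Pool.Agent.H690.HK.SpG

/-! Task SPLIT of the project HK of helper998, part H: the estimate of the form of the pieces. -/

set_option autoImplicit false
set_option linter.unusedSectionVars false

noncomputable section

namespace Pool.Agent.H690.HK

open MeasureTheory Filter Topology Set ContinuousLinearMap
open scoped ENNReal NNReal Convolution ComplexConjugate

open Pool.Agent.H998.HK
open Pool.Agent.H825.HK (integrable_form h1_test measurable_pot)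

variable {n : ℕ}

theorem int_sq_eq {Y : Type} [MeasurableSpace Y] {μ : Measure Y} {g : Y → ℝ} (hg : MemLp g 2 μ) :
    ∫ y, g y ^ 2 ∂μ = (eLpNorm g 2 μ).toReal ^ 2 := by
  rw [hg.eLpNorm_eq_integral_rpow_norm (by norm_num) (by norm_num)]
  have h0 : 0 ≤ ∫ y, g y ^ 2 ∂μ := integral_nonneg fun y => sq_nonneg _
  have h1 : ∫ y, ‖g y‖ ^ (2 : ℝ≥0∞).toReal ∂μ = ∫ y, g y ^ 2 ∂μ := by
    refine integral_congr_ae (Eventually.of_forall fun y => ?_)
    simp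
  rw [h1, ENNReal.toReal_ofReal (by positivity)]
  have h2 : (2 : ℝ≥0∞).toReal⁻¹ = (1 / 2 : ℝ) := by norm_num
  rw [h2, ← Real.sqrt_eq_rpow, Real.sq_sqrt h0]

section data

variable {f : Xn n → ℂ} {Dx : Fin 3 → Xn n → ℂ} {Dy : Fin n → Fin 3 → Xn n → ℂ} {A : Set E3}
  {G : Set (Yn n)} {v : E3 → ℝ} {E : ℝ}

theorem form_chi_ae (hf : H1 n f Dx Dy)
    (hAG : ∀ᵐ z : Xn n, f z ≠ 0 → (z.1 ∈ A ↔ z.2 ∈ G)) (φ : Xn n → ℝ) :
    ∀ᵐ z, Phi n v E (chi A f) (fun i => gchi G (Dx i)) (fun j i => chi A (Dy j i)) φ z =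
      (oneI A z.1 : ℂ) * Phi n v E f Dx Dy φ z := by
  have h1 : ∀ᵐ z, ∀ i, chi A (Dx i) z = gchi G (Dx i) z :=
    ae_all_iff.2 fun i => chi_ae_gchi hAG (level_x hf i)
  filter_upwards [h1] with z hz
  simp only [Phi, formInt, ← hz]
  simp only [chi, Complex.real_smul]
  have s1 : ∑ i, conj ((fderiv ℝ φ z (ex n i) : ℝ) : ℂ) * ((oneI A z.1 : ℂ) * Dx i z) =
      (oneI A z.1 : ℂ) * ∑ i, conj ((fderiv ℝ φ z (ex n i) : ℝ) : ℂ) * Dx i z := by
    rw [Finset.mul_sum]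
    refine Finset.sum_congr rfl fun i _ => ?_
    ring
  have s2 : ∑ j, ∑ i, conj ((fderiv ℝ φ z (ey n j i) : ℝ) : ℂ) * ((oneI A z.1 : ℂ) * Dy j i z) =
      (oneI A z.1 : ℂ) * ∑ j, ∑ i, conj ((fderiv ℝ φ z (ey n j i) : ℝ) : ℂ) * Dy j i z := by
    rw [Finset.mul_sum]
    refine Finset.sum_congr rfl fun j _ => ?_
    rw [Finset.mul_sum]
    refine Finset.sum_congr rfl fun i _ => ?_
    ring
  rw [s1, s2]
  ring

theorem Phi_zero (hf : H1 n f Dx Dy) (φ : Xn n → ℝ) :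
    ∀ᵐ z, f z = 0 → Phi n v E f Dx Dy φ z = 0 := by
  have h1 : ∀ᵐ z, ∀ i, f z = 0 → Dx i z = 0 := ae_all_iff.2 fun i => level_x hf i
  have h2 : ∀ᵐ z, ∀ j, ∀ i, f z = 0 → Dy j i z = 0 :=
    ae_all_iff.2 fun j => ae_all_iff.2 fun i => level_y hf j i
  filter_upwards [h1, h2] with z hz1 hz2 h0
  simp [Phi, formInt, hz1 _ h0, hz2 _ _ h0, h0]

theorem th_tendsto {s : ℝ} (hs : 0 < s) :
    Tendsto (fun k : ℕ => th (1 / ((k : ℝ) + 1)) s) atTop (𝓝 1) := by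
  have h1 : Tendsto (fun k : ℕ => 1 / ((k : ℝ) + 1)) atTop (𝓝 0) :=
    tendsto_one_div_add_atTop_nhds_zero_nat
  have h2 : Tendsto (fun ε : ℝ => th ε s) (𝓝 0) (𝓝 (th 0 s)) := by
    have : ContinuousAt (fun ε : ℝ => s ^ 2 / (s ^ 2 + ε ^ 2)) 0 := by
      refine ContinuousAt.div (by fun_prop) (by fun_prop) ?_
      positivity
    exact this
  have h3 : th 0 s = 1 := by
    unfold th
    rw [zero_pow two_ne_zero, add_zero, div_self (by positivity)]
  rw [h3] at h2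
  exact h2.comp h1

theorem limit_ae (hf : H1 n f Dx Dy)
    (hAG : ∀ᵐ z : Xn n, f z ≠ 0 → (z.1 ∈ A ↔ z.2 ∈ G)) (φ : Xn n → ℝ) :
    ∀ᵐ z, Tendsto (fun k : ℕ => (aa A f (1 / ((k : ℝ) + 1)) z.1 : ℂ) * Phi n v E f Dx Dy φ z) atTop
      (𝓝 (Phi n v E (chi A f) (fun i => gchi G (Dx i)) (fun j i => chi A (Dy j i)) φ z)) := by
  filter_upwards [form_chi_ae (v := v) (E := E) hf hAG φ, Phi_zero (v := v) (E := E) hf φ,
    tau_pos hf.f2] with z h1 h2 h3
  rw [h1]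
  by_cases hz : f z = 0
  · rw [h2 hz]
    simp
  · refine Tendsto.mul_const _ ?_
    have h4 : Tendsto (fun k : ℕ => aa A f (1 / ((k : ℝ) + 1)) z.1) atTop (𝓝 (oneI A z.1)) := by
      by_cases hA : z.1 ∈ A
      · rw [oneI_of_mem hA]
        have : tau (chi A f) z.1 = tau f z.1 := by rw [tau_chi, oneI_of_mem hA, one_mul]
        simp only [aa, this]
        exact th_tendsto (h3 hz)
      · rw [oneI_of_notMem hA]
        have : tau (chi A f) z.1 = 0 := by rw [tau_chi, oneI_of_notMem hA, zero_mul]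
        simp only [aa, this, th]
        simp
    exact (Complex.continuous_ofReal.tendsto _).comp h4

theorem tendsto_form (hFB : S_FB1) (hX : XStar v) (hv : Measurable v)
    (hf : H1 n f Dx Dy) (hA : MeasurableSet A)
    (hAG : ∀ᵐ z : Xn n, f z ≠ 0 → (z.1 ∈ A ↔ z.2 ∈ G)) {φ : Xn n → ℝ} (hφ : Test φ) :
    Tendsto (fun k : ℕ => ∫ z, (aa A f (1 / ((k : ℝ) + 1)) z.1 : ℂ) * Phi n v E f Dx Dy φ z) atTop
      (𝓝 (∫ z, Phi n v E (chi A f) (fun i => gchi G (Dx i)) (fun j i => chi A (Dy j i)) φ z)) := by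
  have i1 : Integrable (Phi n v E f Dx Dy φ) := integrable_form hFB hX hv hf (h1_test hφ) E
  refine tendsto_integral_of_dominated_convergence (fun z => ‖Phi n v E f Dx Dy φ z‖)
    (fun k => ?_) i1.norm (fun k => Eventually.of_forall fun z => ?_) (limit_ae hf hAG φ)
  · have ham := aa_meas (A := A) hf hA (ε := 1 / ((k : ℝ) + 1)) (by positivity)
    have hm : AEStronglyMeasurable (fun z : Xn n => aa A f (1 / ((k : ℝ) + 1)) z.1) volume := by
      have : AEStronglyMeasurable (fun z : Xn n => aa A f (1 / ((k : ℝ) + 1)) z.1)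
          ((volume : Measure E3).prod volume) := ham.comp_fst
      exact this
    exact (Complex.continuous_ofReal.comp_aestronglyMeasurable hm).mul i1.1
  · rw [norm_mul, Complex.norm_real]
    exact mul_le_of_le_one_left (norm_nonneg _) (th_abs _ _)

/-- the estimate on slices -/
theorem slice_bound (hf : H1 n f Dx Dy) (hA : MeasurableSet A) (hG : MeasurableSet G)
    (hAG : ∀ᵐ z : Xn n, f z ≠ 0 → (z.1 ∈ A ↔ z.2 ∈ G)) {ζ : E3 → ℝ} {φ : Xn n → ℝ}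
    (hφ : Test φ) (hφζ : ∀ z, φ z ≠ 0 → ζ z.1 = 1) {S : ℝ} (hS0 : 0 ≤ S)
    (hS : ∀ x, ∫ y, (oneI G y * φ (x, y)) ^ 2 ≤ S ^ 2) {ε : ℝ} (hε : 0 < ε) (i : Fin 3) :
    ∀ᵐ x, ∫⁻ y, ‖((bb A G f Dx ε i x * φ (x, y) : ℝ) : ℂ) * Dx i (x, y)‖ₑ ≤
      ENNReal.ofReal (4 * S * (ζ x ^ 2 * wgt ε (tau f x) * ∑ i, tau (Dx i) x)) := by
  have hae : ∀ᵐ x, ∀ᵐ y, chi A (Dx i) (x, y) = gchi G (Dx i) (x, y) :=
    ae_slice (chi_ae_gchi hAG (level_x hf i))
  filter_upwards [hae, slice_memLp (hf.x2 i), bb_le hf hA hG hAG hε i] with x h1 h2 h3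
  by_cases hx : x ∈ A
  swap
  · have h4 : tau (chi A f) x = 0 := by rw [tau_chi, oneI_of_notMem hx, zero_mul]
    have h5 : bb A G f Dx ε i x = 0 := by rw [bb, h4, th'_zero, zero_mul]
    simp [h5]
  by_cases h0 : ∀ y, φ (x, y) = 0
  · simp [h0]
  push Not at h0
  obtain ⟨y0, hy0⟩ := h0
  have hζ : ζ x = 1 := hφζ (x, y0) hy0
  have ht : tau (chi A f) x = tau f x := by rw [tau_chi, oneI_of_mem hx, one_mul]
  rw [ht] at h3
  -- the derivative on the slice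
  have hD : ∀ᵐ y, Dx i (x, y) = oneI G y • Dx i (x, y) := by
    filter_upwards [h1] with y hy
    simp only [chi, gchi, oneI_of_mem hx, one_smul] at hy
    exact hy
  have hδ : tau (gchi G (Dx i)) x ≤ tau (Dx i) x := by
    simp only [tau]
    refine integral_mono_of_nonneg (Eventually.of_forall fun y => sq_nonneg _)
      ((memLp_two_iff_integrable_sq_norm h2.1).1 h2) (Eventually.of_forall fun y => ?_)
    simp only [gchi]
    rw [norm_smul]
    refine pow_le_pow_left₀ (by positivity) ?_ 2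
    exact mul_le_of_le_one_left (norm_nonneg _) (oneI_abs _ _)
  set p : Yn n → ℝ := fun y => |oneI G y * φ (x, y)| with hp
  have hφx := slice2_test hφ x
  have hp2 : MemLp p 2 volume := by
    have h5 : MemLp (fun y => φ (x, y)) 2 (volume : Measure (Yn n)) :=
      hφx.qcont.memLp_of_hasCompactSupport hφx.2
    refine h5.mono ?_ (Eventually.of_forall fun y => ?_)
    · exact (((oneI_meas hG).aestronglyMeasurable.mul hφx.qcont.aestronglyMeasurable).norm)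
    · simp only [hp, Real.norm_eq_abs, abs_abs, abs_mul]
      exact mul_le_of_le_one_left (abs_nonneg _) (oneI_abs _ _)
  have hcs := cs_sq hp2 h2.norm
  have hp3 : ∫ y, p y ^ 2 ≤ S ^ 2 := by
    refine le_trans (le_of_eq ?_) (hS x)
    refine integral_congr_ae (Eventually.of_forall fun y => ?_)
    simp only [hp, sq_abs]
  have hδ0 := tau_nonneg (Dx i) x
  have hI : ∫ y, p y * ‖Dx i (x, y)‖ ≤ S * √(tau (Dx i) x) := by
    refine le_of_sq_le_sq ?_ (by positivity)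
    rw [mul_pow, Real.sq_sqrt hδ0]
    exact hcs.trans (mul_le_mul_of_nonneg_right hp3 hδ0)
  have hint : Integrable (fun y => |bb A G f Dx ε i x| * (p y * ‖Dx i (x, y)‖)) :=
    (hp2.integrable_mul h2.norm).const_mul _
  have hw := wgt_nonneg ε (tau f x)
  have hsum : tau (Dx i) x ≤ ∑ i, tau (Dx i) x :=
    Finset.single_le_sum (f := fun i => tau (Dx i) x) (fun i _ => tau_nonneg _ x)
      (Finset.mem_univ i)
  calc ∫⁻ y, ‖((bb A G f Dx ε i x * φ (x, y) : ℝ) : ℂ) * Dx i (x, y)‖ₑ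
      = ∫⁻ y, ENNReal.ofReal (|bb A G f Dx ε i x| * (p y * ‖Dx i (x, y)‖)) := by
        refine lintegral_congr_ae ?_
        filter_upwards [hD] with y hy
        rw [← ofReal_norm, norm_mul, Complex.norm_real, norm_mul, Real.norm_eq_abs,
          Real.norm_eq_abs]
        congr 1
        simp only [hp]
        by_cases hyG : y ∈ G
        · rw [oneI_of_mem hyG]; rw [one_mul]; ring
        · rw [oneI_of_notMem hyG, zero_smul] at hy
          rw [hy]; simp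
    _ = ENNReal.ofReal (∫ y, |bb A G f Dx ε i x| * (p y * ‖Dx i (x, y)‖)) :=
        (ofReal_integral_eq_lintegral_ofReal hint (Eventually.of_forall fun y => by
          simp only [hp, Pi.zero_apply]; positivity)).symm
    _ ≤ ENNReal.ofReal (4 * S * (ζ x ^ 2 * wgt ε (tau f x) * ∑ i, tau (Dx i) x)) := by
        refine ENNReal.ofReal_le_ofReal ?_
        rw [integral_const_mul, hζ, one_pow, one_mul]
        have h6 : |bb A G f Dx ε i x| ≤ 4 * wgt ε (tau f x) * √(tau (Dx i) x) :=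
          h3.trans (mul_le_mul_of_nonneg_left (Real.sqrt_le_sqrt hδ) (by positivity))
        have h7 : 0 ≤ ∫ y, p y * ‖Dx i (x, y)‖ := integral_nonneg fun y => by
          simp only [hp]; positivity
        calc |bb A G f Dx ε i x| * ∫ y, p y * ‖Dx i (x, y)‖
            ≤ (4 * wgt ε (tau f x) * √(tau (Dx i) x)) * (S * √(tau (Dx i) x)) :=
              mul_le_mul h6 hI h7 (by positivity)
          _ = 4 * S * (wgt ε (tau f x) * (√(tau (Dx i) x) * √(tau (Dx i) x))) := by ring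
          _ = 4 * S * (wgt ε (tau f x) * tau (Dx i) x) := by rw [Real.mul_self_sqrt hδ0]
          _ ≤ 4 * S * (wgt ε (tau f x) * ∑ i, tau (Dx i) x) := by gcongr

theorem term_bound (hf : H1 n f Dx Dy) (hA : MeasurableSet A) (hG : MeasurableSet G)
    (hAG : ∀ᵐ z : Xn n, f z ≠ 0 → (z.1 ∈ A ↔ z.2 ∈ G)) {ζ : E3 → ℝ} {φ : Xn n → ℝ}
    (hφ : Test φ) (hφζ : ∀ z, φ z ≠ 0 → ζ z.1 = 1) {S : ℝ} (hS0 : 0 ≤ S)
    (hS : ∀ x, ∫ y, (oneI G y * φ (x, y)) ^ 2 ≤ S ^ 2) {M : ℝ} (hM0 : 0 ≤ M) {ε : ℝ} (hε : 0 < ε)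
    (hM : ∫⁻ x, ENNReal.ofReal (ζ x ^ 2 * wgt ε (tau f x) * ∑ i, tau (Dx i) x) ≤
      ENNReal.ofReal M) (i : Fin 3) :
    ‖∫ z : Xn n, ((bb A G f Dx ε i z.1 * φ z : ℝ) : ℂ) * Dx i z‖ ≤ 4 * S * M := by
  have h2 : MemLp (fun z : Xn n => bb A G f Dx ε i z.1 * φ z) 2 :=
    memLp_fst_cs (bb_memLp hf hA hG hAG hε i) hφ.qcont hφ.2
  have h3 : MemLp (fun z : Xn n => ((bb A G f Dx ε i z.1 * φ z : ℝ) : ℂ)) 2 := h2.ofReal
  have i3 : Integrable (fun z : Xn n => ((bb A G f Dx ε i z.1 * φ z : ℝ) : ℂ) * Dx i z) :=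
    h3.integrable_mul (hf.x2 i)
  have h4 : ‖∫ z : Xn n, ((bb A G f Dx ε i z.1 * φ z : ℝ) : ℂ) * Dx i z‖ₑ ≤
      ENNReal.ofReal (4 * S * M) := by
    calc ‖∫ z : Xn n, ((bb A G f Dx ε i z.1 * φ z : ℝ) : ℂ) * Dx i z‖ₑ
        ≤ ∫⁻ z : Xn n, ‖((bb A G f Dx ε i z.1 * φ z : ℝ) : ℂ) * Dx i z‖ₑ :=
          enorm_integral_le_lintegral_enorm _
      _ = ∫⁻ x, ∫⁻ y, ‖((bb A G f Dx ε i x * φ (x, y) : ℝ) : ℂ) * Dx i (x, y)‖ₑ := by
          rw [vol_prod]
          exact lintegral_prod _ i3.1.enorm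
      _ ≤ ∫⁻ x, ENNReal.ofReal (4 * S * (ζ x ^ 2 * wgt ε (tau f x) * ∑ i, tau (Dx i) x)) :=
          lintegral_mono_ae (slice_bound hf hA hG hAG hφ hφζ hS0 hS hε i)
      _ = ENNReal.ofReal (4 * S) *
            ∫⁻ x, ENNReal.ofReal (ζ x ^ 2 * wgt ε (tau f x) * ∑ i, tau (Dx i) x) := by
          rw [← lintegral_const_mul' _ _ ENNReal.ofReal_ne_top]
          refine lintegral_congr fun x => ?_
          rw [ENNReal.ofReal_mul (by positivity)]
      _ ≤ ENNReal.ofReal (4 * S) * ENNReal.ofReal M := by gcongr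
      _ = ENNReal.ofReal (4 * S * M) := (ENNReal.ofReal_mul (by positivity)).symm
  rw [← ofReal_norm] at h4
  exact (ENNReal.ofReal_le_ofReal_iff (by positivity)).1 h4

/-- the key bound -/
theorem key_bound (hFB : S_FB1) (hX : XStar v) (hv : Measurable v)
    (hf : H1 n f Dx Dy) (hs : WeakSol n v E f Dx Dy) (hA : MeasurableSet A) (hG : MeasurableSet G)
    (hAG : ∀ᵐ z : Xn n, f z ≠ 0 → (z.1 ∈ A ↔ z.2 ∈ G)) {ζ : E3 → ℝ} {φ : Xn n → ℝ}
    (hφ : Test φ) (hφζ : ∀ z, φ z ≠ 0 → ζ z.1 = 1) {S : ℝ} (hS0 : 0 ≤ S)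
    (hS : ∀ x, ∫ y, (oneI G y * φ (x, y)) ^ 2 ≤ S ^ 2) {M : ℝ} (hM0 : 0 ≤ M)
    (hM : ∀ ε : ℝ, 0 < ε →
      ∫⁻ x, ENNReal.ofReal (ζ x ^ 2 * wgt ε (tau f x) * ∑ i, tau (Dx i) x) ≤ ENNReal.ofReal M) :
    ‖∫ z, Phi n v E (chi A f) (fun i => gchi G (Dx i)) (fun j i => chi A (Dy j i)) φ z‖ ≤
      6 * S * M := by
  refine le_of_tendsto (tendsto_form (E := E) hFB hX hv hf hA hAG hφ).norm
    (Eventually.of_forall fun k => ?_)
  have hε : (0 : ℝ) < 1 / ((k : ℝ) + 1) := by positivity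
  rw [key_identity hFB hX hv hf hs hA hG hAG hε hφ, norm_neg, norm_mul]
  have h1 : ‖∑ i, ∫ z : Xn n, ((bb A G f Dx (1 / ((k : ℝ) + 1)) i z.1 * φ z : ℝ) : ℂ) * Dx i z‖ ≤
      ∑ _i : Fin 3, 4 * S * M :=
    norm_sum_le_of_le _ fun i _ => term_bound hf hA hG hAG hφ hφζ hS0 hS hM0 hε (hM _ hε) i
  have h2 : ‖(1 / 2 : ℂ)‖ = 1 / 2 := by norm_num
  rw [h2]
  simp only [Finset.sum_const, Finset.card_univ, Fintype.card_fin, nsmul_eq_mul,
    Nat.cast_ofNat] at h1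
  linarith

end data

end Pool.Agent.H690.HK
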