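import Pool.Agent.H690.HK.SpH
import Pool.Agent.H998.HK.TDens

/-! Task SPLIT of the project HK of helper998, part I: assembly. -/

set_option autoImplicit false
set_option linter.unusedSectionVars false

noncomputable section

namespace Pool.Agent.H690.HK

open MeasureTheory Filter Topology Set ContinuousLinearMap
open scoped ENNReal NNReal Convolution ComplexConjugate

open Pool.Agent.H998.HK
open Pool.Agent.H825.HK (integrable_form h1_test measurable_pot)

variable {n : ℕ}

/-- the uniform estimate -/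
def S_EST' : Prop := ∀ (n : ℕ) (v : E3 → ℝ) (E : ℝ) (f : Xn n → ℂ) (Dx : Fin 3 → Xn n → ℂ)
  (Dy : Fin n → Fin 3 → Xn n → ℂ), XStar v → Measurable v → H1 n f Dx Dy →
  WeakSol n v E f Dx Dy → ∀ ζ : E3 → ℝ, Test ζ → ∃ M : ℝ, ∀ ε : ℝ, 0 < ε →
    ∫⁻ x, ENNReal.ofReal (ζ x ^ 2 * (ε ^ 2 * ((tau f x) ^ 2 + ε ^ 2) ^ (-5 / 4 : ℝ)) *
      ∑ i, tau (Dx i) x) ≤ ENNReal.ofReal M

section data

variable {f : Xn n → ℂ} {Dx : Fin 3 → Xn n → ℂ} {Dy : Fin n → Fin 3 → Xn n → ℂ} {A : Set E3}
  {G : Set (Yn n)} {v : E3 → ℝ} {E : ℝ}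

theorem Phi_add {φ ψ : Xn n → ℝ} (hφ : Test φ) (hψ : Test ψ) (z : Xn n) :
    Phi n v E f Dx Dy (fun z => φ z + ψ z) z = Phi n v E f Dx Dy φ z + Phi n v E f Dx Dy ψ z := by
  have h1 : ∀ e : Xn n, fderiv ℝ (fun z => φ z + ψ z) z e = fderiv ℝ φ z e + fderiv ℝ ψ z e := by
    intro e
    rw [fderiv_fun_add (hφ.qdiff z) (hψ.qdiff z)]
    rfl
  simp only [Phi, formInt, h1, Complex.conj_ofReal]
  simp only [Complex.ofReal_add, map_add, Complex.conj_ofReal, add_mul, Finset.sum_add_distrib]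
  ring

theorem Phi_split (φ : Xn n → ℝ) (z : Xn n) :
    Phi n v E (chi A f) (fun i => gchi G (Dx i)) (fun j i => chi A (Dy j i)) φ z +
      Phi n v E (chi Aᶜ f) (fun i => gchi Gᶜ (Dx i)) (fun j i => chi Aᶜ (Dy j i)) φ z =
      Phi n v E f Dx Dy φ z := by
  have hA : ∀ g : Xn n → ℂ, chi Aᶜ g z = g z - chi A g z := by
    intro g
    simp only [chi, oneI_compl, sub_smul, one_smul]
  have hG : ∀ g : Xn n → ℂ, gchi Gᶜ g z = g z - gchi G g z := by
    intro g
    simp only [gchi, oneI_compl, sub_smul, one_smul]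
  simp only [Phi, formInt, hA, hG, mul_sub, Finset.sum_sub_distrib]
  ring

theorem form_zero (hFB : S_FB1) (hX : XStar v) (hv : Measurable v)
    (hf : H1 n f Dx Dy) (hs : WeakSol n v E f Dx Dy) (hA : MeasurableSet A) (hG : MeasurableSet G)
    (hAG : ∀ᵐ z : Xn n, f z ≠ 0 → (z.1 ∈ A ↔ z.2 ∈ G))
    (hE : ∀ ζ : E3 → ℝ, Test ζ → ∃ M : ℝ, ∀ ε : ℝ, 0 < ε →
      ∫⁻ x, ENNReal.ofReal (ζ x ^ 2 * wgt ε (tau f x) * ∑ i, tau (Dx i) x) ≤ ENNReal.ofReal M)
    {φ : Xn n → ℝ} (hφ : Test φ) :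
    ∫ z, Phi n v E (chi A f) (fun i => gchi G (Dx i)) (fun j i => chi A (Dy j i)) φ z = 0 := by
  obtain ⟨ζ, hζt, hζ01, U, hUo, hKU, hζ1⟩ := exists_cutoff (Prod.fst '' tsupport φ)
    (hφ.2.isCompact.image continuous_fst)
  obtain ⟨M0, hM0⟩ := hE ζ hζt
  set M : ℝ := max M0 0 with hMdef
  have hMnn : 0 ≤ M := le_max_right _ _
  have hM : ∀ ε : ℝ, 0 < ε →
      ∫⁻ x, ENNReal.ofReal (ζ x ^ 2 * wgt ε (tau f x) * ∑ i, tau (Dx i) x) ≤ ENNReal.ofReal M :=
    fun ε hε => (hM0 ε hε).trans (ENNReal.ofReal_le_ofReal (le_max_left _ _))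
  obtain ⟨C, hC, hφb⟩ := hφ.qbdd
  set K : Set (Yn n) := Prod.snd '' tsupport φ with hK
  have hKc : IsCompact K := hφ.2.isCompact.image continuous_snd
  have hφK : ∀ x y, y ∉ K → φ (x, y) = 0 := by
    intro x y hy
    by_contra h
    exact hy ⟨(x, y), subset_tsupport _ h, rfl⟩
  have hGK : MeasurableSet (G ∩ K) := hG.inter hKc.measurableSet
  set u : Yn n → ℝ := oneI (G ∩ K) with hu
  have hu2 : MemLp u 2 volume := by
    have : MemLp ((G ∩ K).indicator fun _ => (1 : ℝ)) 2 (volume : Measure (Yn n)) :=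
      memLp_indicator_const 2 hGK 1
        (Or.inr ((measure_mono inter_subset_right).trans_lt hKc.measure_lt_top).ne)
    exact this
  have hul : LocallyIntegrable u := hu2.locallyIntegrable (by norm_num)
  set β : ℕ → Yn n → ℝ := fun k => mol k u with hβ
  have hβc : ∀ k, ContDiff ℝ ((⊤ : ℕ∞) : WithTop ℕ∞) (β k) := fun k => mol_contDiff k hul
  have hβ2 : ∀ k, MemLp (β k - u) 2 volume := fun k =>
    (mol_memLp (by norm_num) (by norm_num) k hu2).sub hu2
  have hd : Tendsto (fun k => (eLpNorm (β k - u) 2 volume).toReal) atTop (𝓝 0) := by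
    have h1 := mol_tendsto (p := 2) (by norm_num) (by norm_num) hu2
    have h2 := (ENNReal.tendsto_toReal ENNReal.zero_ne_top).comp h1
    rw [ENNReal.toReal_zero] at h2
    exact h2
  have hAG' : ∀ᵐ z : Xn n, f z ≠ 0 → (z.1 ∈ Aᶜ ↔ z.2 ∈ Gᶜ) := by
    filter_upwards [hAG] with z hz h0
    exact not_congr (hz h0)
  have key : ∀ k, ‖∫ z, Phi n v E (chi A f) (fun i => gchi G (Dx i))
      (fun j i => chi A (Dy j i)) φ z‖ ≤ 12 * C * M * (eLpNorm (β k - u) 2 volume).toReal := by
    intro k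
    set d : ℝ := (eLpNorm (β k - u) 2 volume).toReal with hdd
    have hd0 : 0 ≤ d := ENNReal.toReal_nonneg
    have hdi : ∫ y, (β k - u) y ^ 2 = d ^ 2 := int_sq_eq (hβ2 k)
    have hdint : Integrable (fun y => C ^ 2 * (β k - u) y ^ 2) := (hβ2 k).integrable_sq.const_mul _
    set φ1 : Xn n → ℝ := fun z => φ z * β k z.2 with hφ1
    set φ2 : Xn n → ℝ := fun z => φ z * (1 - β k z.2) with hφ2
    have t1 : Test φ1 := hφ.qmul (contDiff_snd_fun (hβc k))
    have t2 : Test φ2 := hφ.qmul (contDiff_const.sub (contDiff_snd_fun (hβc k)))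
    have hsum : φ = fun z => φ2 z + φ1 z := by
      funext z; simp only [hφ1, hφ2]; ring
    have hζφ : ∀ z, φ z ≠ 0 → ζ z.1 = 1 := fun z hz =>
      hζ1 z.1 (hKU ⟨z, subset_tsupport _ hz, rfl⟩)
    have b2 : ‖∫ z, Phi n v E (chi A f) (fun i => gchi G (Dx i)) (fun j i => chi A (Dy j i)) φ2 z‖ ≤
        6 * (C * d) * M := by
      refine key_bound hFB hX hv hf hs hA hG hAG t2 (fun z hz => hζφ z fun h => hz (by
        simp [hφ2, h])) (by positivity) (fun x => ?_) hMnn hM
      have hpt : ∀ y, (oneI G y * φ2 (x, y)) ^ 2 ≤ C ^ 2 * (β k - u) y ^ 2 := by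
        intro y
        by_cases hyK : y ∈ K
        · by_cases hyG : y ∈ G
          · have h1 : u y = 1 := oneI_of_mem ⟨hyG, hyK⟩
            have h2 : (oneI G y * φ2 (x, y)) ^ 2 = φ (x, y) ^ 2 * (β k - u) y ^ 2 := by
              rw [oneI_of_mem hyG]
              simp only [hφ2, Pi.sub_apply, h1]
              ring
            rw [h2]
            refine mul_le_mul_of_nonneg_right ?_ (sq_nonneg _)
            rw [← sq_abs]
            exact pow_le_pow_left₀ (abs_nonneg _) (hφb _) 2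
          · rw [oneI_of_notMem hyG]
            simp only [zero_mul, ne_eq, OfNat.ofNat_ne_zero, not_false_eq_true, zero_pow]
            positivity
        · have h1 : φ2 (x, y) = 0 := by simp [hφ2, hφK x y hyK]
          rw [h1]
          simp only [mul_zero, ne_eq, OfNat.ofNat_ne_zero, not_false_eq_true, zero_pow]
          positivity
      calc ∫ y, (oneI G y * φ2 (x, y)) ^ 2 ≤ ∫ y, C ^ 2 * (β k - u) y ^ 2 :=
            integral_mono_of_nonneg (Eventually.of_forall fun y => sq_nonneg _) hdint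
              (Eventually.of_forall hpt)
        _ = (C * d) ^ 2 := by rw [integral_const_mul, hdi]; ring
    have b1 : ‖∫ z, Phi n v E (chi Aᶜ f) (fun i => gchi Gᶜ (Dx i))
        (fun j i => chi Aᶜ (Dy j i)) φ1 z‖ ≤ 6 * (C * d) * M := by
      refine key_bound hFB hX hv hf hs hA.compl hG.compl hAG' t1 (fun z hz => hζφ z fun h => hz (by
        simp [hφ1, h])) (by positivity) (fun x => ?_) hMnn hM
      have hpt : ∀ y, (oneI Gᶜ y * φ1 (x, y)) ^ 2 ≤ C ^ 2 * (β k - u) y ^ 2 := by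
        intro y
        by_cases hyK : y ∈ K
        · by_cases hyG : y ∈ G
          · rw [oneI_of_notMem (by simpa using hyG)]
            simp only [zero_mul, ne_eq, OfNat.ofNat_ne_zero, not_false_eq_true, zero_pow]
            positivity
          · have h1 : u y = 0 := oneI_of_notMem fun h => hyG h.1
            have h2 : (oneI Gᶜ y * φ1 (x, y)) ^ 2 = φ (x, y) ^ 2 * (β k - u) y ^ 2 := by
              rw [oneI_of_mem (by simpa using hyG)]
              simp only [hφ1, Pi.sub_apply, h1]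
              ring
            rw [h2]
            refine mul_le_mul_of_nonneg_right ?_ (sq_nonneg _)
            rw [← sq_abs]
            exact pow_le_pow_left₀ (abs_nonneg _) (hφb _) 2
        · have h1 : φ1 (x, y) = 0 := by simp [hφ1, hφK x y hyK]
          rw [h1]
          simp only [mul_zero, ne_eq, OfNat.ofNat_ne_zero, not_false_eq_true, zero_pow]
          positivity
      calc ∫ y, (oneI Gᶜ y * φ1 (x, y)) ^ 2 ≤ ∫ y, C ^ 2 * (β k - u) y ^ 2 :=
            integral_mono_of_nonneg (Eventually.of_forall fun y => sq_nonneg _) hdint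
              (Eventually.of_forall hpt)
        _ = (C * d) ^ 2 := by rw [integral_const_mul, hdi]; ring
    have hχ := H1_chi hA hG hf hAG
    have hχ' := H1_chi hA.compl hG.compl hf hAG'
    have j2 : Integrable (Phi n v E (chi A f) (fun i => gchi G (Dx i))
      (fun j i => chi A (Dy j i)) φ2) := integrable_form hFB hX hv hχ (h1_test t2) E
    have j1 : Integrable (Phi n v E (chi A f) (fun i => gchi G (Dx i))
      (fun j i => chi A (Dy j i)) φ1) := integrable_form hFB hX hv hχ (h1_test t1) E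
    have j1' : Integrable (Phi n v E (chi Aᶜ f) (fun i => gchi Gᶜ (Dx i))
      (fun j i => chi Aᶜ (Dy j i)) φ1) := integrable_form hFB hX hv hχ' (h1_test t1) E
    have e0 : ∫ z, Phi n v E f Dx Dy φ1 z = 0 := hs _ _ _ (h1_test t1)
    have e1 : (∫ z, Phi n v E (chi A f) (fun i => gchi G (Dx i)) (fun j i => chi A (Dy j i)) φ1 z) +
        ∫ z, Phi n v E (chi Aᶜ f) (fun i => gchi Gᶜ (Dx i)) (fun j i => chi Aᶜ (Dy j i)) φ1 z =
        0 := by
      rw [← integral_add j1 j1', ← e0]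
      exact integral_congr_ae (Eventually.of_forall fun z => Phi_split φ1 z)
    have e2 : ∫ z, Phi n v E (chi A f) (fun i => gchi G (Dx i)) (fun j i => chi A (Dy j i)) φ z =
        (∫ z, Phi n v E (chi A f) (fun i => gchi G (Dx i)) (fun j i => chi A (Dy j i)) φ2 z) +
        ∫ z, Phi n v E (chi A f) (fun i => gchi G (Dx i)) (fun j i => chi A (Dy j i)) φ1 z := by
      rw [← integral_add j2 j1]
      refine integral_congr_ae (Eventually.of_forall fun z => ?_)
      simp only
      rw [← Phi_add t2 t1, ← hsum]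
    have e3 : ∫ z, Phi n v E (chi A f) (fun i => gchi G (Dx i)) (fun j i => chi A (Dy j i)) φ z =
        (∫ z, Phi n v E (chi A f) (fun i => gchi G (Dx i)) (fun j i => chi A (Dy j i)) φ2 z) -
        ∫ z, Phi n v E (chi Aᶜ f) (fun i => gchi Gᶜ (Dx i)) (fun j i => chi Aᶜ (Dy j i)) φ1 z := by
      rw [e2, eq_neg_of_add_eq_zero_left e1]
      ring
    rw [e3]
    refine (norm_sub_le _ _).trans ?_
    linarith
  have h0 : ‖∫ z, Phi n v E (chi A f) (fun i => gchi G (Dx i))
      (fun j i => chi A (Dy j i)) φ z‖ ≤ 12 * C * M * 0 :=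
    ge_of_tendsto (hd.const_mul (12 * C * M)) (Eventually.of_forall key)
  rw [mul_zero] at h0
  exact norm_le_zero_iff.1 h0

end data

/-- the splitting lemma from the uniform estimate -/
theorem SPLIT_of_EST (hFX : S_FBX) (hFY : S_FBY) (hCX : S_COUX) (hCY : S_COUY)
    (hE : S_EST') : S_SPLIT := by
  have hFB := fb1_of hFX hFY hCX hCY
  intro n v E f Dx Dy hX hv hf hs w c hw hwc t
  set A : Set E3 := {x | w x < t} with hA
  set G : Set (Yn n) := {y | c - ∑ j, w (y j) < t} with hG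
  have hAm : MeasurableSet A := measurableSet_lt hw measurable_const
  have hGm : MeasurableSet G := by
    refine measurableSet_lt (measurable_const.sub ?_) measurable_const
    exact Finset.measurable_sum _ fun j _ => hw.comp (measurable_pi_apply j)
  have hAG : ∀ᵐ z : Xn n, f z ≠ 0 → (z.1 ∈ A ↔ z.2 ∈ G) := by
    filter_upwards [hwc] with z hz h0
    have h1 := hz h0
    simp only [hA, hG, mem_ofPred_eq]
    rw [← h1]
    simp
  have hind : ({z : Xn n | w z.1 < t}.indicator f) = chi A f := (chi_eq_indicator A f).symm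
  rw [hind]
  refine ⟨fun i => gchi G (Dx i), fun j i => chi A (Dy j i), H1_chi hAm hGm hf hAG, ?_⟩
  exact t_TDENS hFX hFY hCX hCY n v E _ _ _ hX hv (H1_chi hAm hGm hf hAG)
    fun φ hφ => form_zero hFB hX hv hf hs hAm hGm hAG (hE n v E f Dx Dy hX hv hf hs) hφ

end Pool.Agent.H690.HK
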